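import Pool.Agent.J4H54.KT.Lp
set_option autoImplicit false

/-!
The regulators on the tori: the leading part is `log |N|` and the Laplacian of the product of
`n + 1` complete graphs, the error is small; independence.
-/

namespace Pool.Agent.J4H54.KT

open Pool.Agent.TH826.UH (NZ)

open Pool.Agent.TH826.MK (pairing)

open Pool.Agent.J4H54.K2 (LP tk)

open MeasureTheory Finset

open scoped Real

variable {n : ℕ}

/-- the angular velocities -/
noncomputable def om (l : Fin (n + 1)) : ℝ := -sg l * (2 * π)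

theorem abs_om (l : Fin (n + 1)) : |om l| ≤ 2 * π := by
  have h : |om l| = 2 * π := by
    unfold om
    refine Fin.cases ?_ (fun l => ?_) l
    · show |-(1 : ℝ) * (2 * π)| = 2 * π
      rw [neg_one_mul, abs_neg, abs_of_pos (by positivity)]
    · show |-(-1 : ℝ) * (2 * π)| = 2 * π
      rw [neg_neg, one_mul, abs_of_pos (by positivity)]
  exact h.le

theorem sg_om (l : Fin (n + 1)) : sg l * ∏ j ∈ univ.erase l, om j = (2 * π) ^ n := by
  have h1 : ∏ j : Fin (n + 1), -sg j = -1 := by
    rw [Fin.prod_univ_succ]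
    have h2 : ∀ m : Fin n, -sg m.succ = 1 := fun m => by
      show -(-1 : ℝ) = 1
      norm_num
    simp only [h2, prod_const_one, mul_one]
    rfl
  rw [← mul_prod_erase univ _ (mem_univ l)] at h1
  have h3 : ∏ j ∈ univ.erase l, om j = (∏ j ∈ univ.erase l, -sg j) * (2 * π) ^ n := by
    unfold om
    rw [prod_mul_distrib, prod_const, card_erase_of_mem (mem_univ l), card_univ, Fintype.card_fin,
      Nat.add_sub_cancel]
  rw [h3, ← mul_assoc]
  have h4 : sg l * ∏ j ∈ univ.erase l, -sg j = 1 := by linarith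
  rw [h4, one_mul]

theorem prod_upd (c : Fin (n + 1) → ℝ) (l : Fin (n + 1)) (x : ℝ) :
    ∏ j, Function.update c l x j = x * ∏ j ∈ univ.erase l, c j := by
  rw [← mul_prod_erase univ _ (mem_univ l), Function.update_self]
  congr 1
  exact prod_congr rfl fun j hj => Function.update_of_ne (ne_of_mem_erase hj) _ _

variable {r : Fin (n + 1) → ℕ}

/-- the leading term -/
theorem main_term (i k : ∀ l, Fin (r l + 1)) (mm : ∀ l, Fin (r l + 1) → ℝ) (l : Fin (n + 1)) :
    sg l * ∏ j, Function.update (fun j => if k j = i j then om j else 0) l (mm l (k l)) j =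
      (2 * π) ^ n * ∑ κ, if k = Function.update i l κ then mm l κ else 0 := by
  rw [prod_upd, sum_eq_single (k l)]
  · by_cases h : ∀ j, j ≠ l → k j = i j
    · have h1 : k = Function.update i l (k l) := by
        funext j
        by_cases hj : j = l
        · subst hj
          rw [Function.update_self]
        · rw [Function.update_of_ne hj, h j hj]
      rw [if_pos h1, prod_congr rfl fun j hj => if_pos (h j (ne_of_mem_erase hj)), ← sg_om l]
      ring
    · have h1 : k ≠ Function.update i l (k l) := by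
        intro e
        refine h fun j hj => ?_
        rw [e, Function.update_of_ne hj]
      rw [if_neg h1, mul_zero]
      push Not at h
      obtain ⟨j, hj, hkj⟩ := h
      rw [prod_eq_zero (mem_erase.2 ⟨hj, mem_univ j⟩) (if_neg hkj), mul_zero, mul_zero]
  · intro κ _ hκ
    refine if_neg fun e => hκ ?_
    rw [e, Function.update_self]
  · intro h
    exact absurd (mem_univ _) h

/-- the data of a torus near the point `(a_{0, i_0}, ..., a_{n, i_n})` -/
structure TP (a : ∀ l, Fin (r l + 1) → ℂ) (R : Fin (n + 1) → ℝ) (i : ∀ l, Fin (r l + 1))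
    (X W : Fin (n + 1) → ℝ → ℂ) (ρ : Fin (n + 1) → ℝ) : Prop where
  good : ∀ l, K2.Good (a l) (R l)
  lp : ∀ l, LP (a l) (R l) (i l) (X l) (W l) (ρ l) (om l)
  le : ∀ l, ρ l ≤ 8 / 9 * R l

variable {a : ∀ l, Fin (r l + 1) → ℂ} {R : Fin (n + 1) → ℝ} {i : ∀ l, Fin (r l + 1)}
  {X W : Fin (n + 1) → ℝ → ℂ} {ρ : Fin (n + 1) → ℝ}

/-- the regulator integral of the functions `D_l (x_l - a_{l, k_l})` -/
noncomputable def PP (a : ∀ l, Fin (r l + 1) → ℂ) (D : Fin (n + 1) → ℂ)
    (X : Fin (n + 1) → ℝ → ℂ) (k : ∀ l, Fin (r l + 1)) : ℝ :=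
  pairing (tf fun l s => D l * (X l s - a l (k l)))

theorem TP.est (h : TP a R i X W ρ) {D : Fin (n + 1) → ℂ} (hD : ∀ l, D l ≠ 0)
    (k : ∀ l, Fin (r l + 1)) :
    |PP a D X k - (2 * π) ^ n * ∑ l, ∑ κ, (if k = Function.update i l κ then
      mn (a l) (X l) κ + Real.log ‖D l‖ else 0)|
      ≤ 2 * (n + 1) * (3 * π) ^ n * ∏ l, gam (a l) (i l) (k l) := by
  have h1 := pairing_est (G := fun l s => D l * (X l s - a l (k l))) fun l =>
    (lo (h.lp l) (h.le l) (h.good l) (k l)).smul (hD l)
  have h2 : ∑ l, sg l * ∏ j, Function.update (fun j => if k j = i j then om j else 0) l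
      (mn (a l) (X l) (k l) + Real.log ‖D l‖) j = (2 * π) ^ n * ∑ l, ∑ κ,
        (if k = Function.update i l κ then mn (a l) (X l) κ + Real.log ‖D l‖ else 0) := by
    rw [mul_sum]
    exact sum_congr rfl fun l _ =>
      main_term i k (fun l κ => mn (a l) (X l) κ + Real.log ‖D l‖) l
  have h3 : ∑ l, ∏ j, Function.update (fun j => 3 * π * gam (a j) (i j) (k j)) l
      (2 * gam (a l) (i l) (k l)) j = 2 * (n + 1) * (3 * π) ^ n * ∏ l, gam (a l) (i l) (k l) := by
    have h4 : ∀ l, ∏ j, Function.update (fun j => 3 * π * gam (a j) (i j) (k j)) l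
      (2 * gam (a l) (i l) (k l)) j = 2 * (3 * π) ^ n * ∏ l, gam (a l) (i l) (k l) := by
      intro l
      rw [prod_upd, prod_mul_distrib, prod_const, card_erase_of_mem (mem_univ l), card_univ,
        Fintype.card_fin, Nat.add_sub_cancel,
        ← mul_prod_erase univ (fun l => gam (a l) (i l) (k l)) (mem_univ l)]
      ring
    simp only [h4]
    rw [sum_const, card_univ, Fintype.card_fin, nsmul_eq_mul]
    push_cast
    ring
  rw [h2, h3] at h1
  exact h1

/-- one direction -/
theorem TP.dir (h : TP a R i X W ρ) (c : (∀ l, Fin (r l + 1)) → ℝ) {M : ℝ} (hM : 0 < M)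
    (hc : ∀ k, |c k| ≤ M) (hi : c i = M) (l : Fin (n + 1))
    (hs : ∑ κ, c (Function.update i l κ) = 0) :
    ∑ κ, c (Function.update i l κ) * mn (a l) (X l) κ ≤ M * (2 / 3 - Real.log 9) := by
  have hlp := h.lp l
  have hgd := h.good l
  have hρ := h.le l
  have hupd : c (Function.update i l (i l)) = M := by
    rw [Function.update_eq_self, hi]
  have lap : M * Real.log (8 * R l) ≤ ∑ κ ∈ univ.erase (i l),
      (M - c (Function.update i l κ)) * Real.log ‖a l (i l) - a l κ‖ := by
    refine hgd.lap (i l) (fun κ => M - c (Function.update i l κ)) M hM.le (fun κ => ?_)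
      (fun κ => ?_) (by rw [hupd, sub_self]) ?_
    · have := (abs_le.1 (hc (Function.update i l κ))).2
      linarith
    · have := (abs_le.1 (hc (Function.update i l κ))).1
      linarith
    · rw [sum_sub_distrib, hs, sub_zero, sum_const, card_univ, Fintype.card_fin, nsmul_eq_mul]
      push_cast
      ring
  have e1 : ∑ κ, c (Function.update i l κ) * mn (a l) (X l) κ = M * Real.log (ρ l) -
      ∑ κ ∈ univ.erase (i l), (M - c (Function.update i l κ)) * mn (a l) (X l) κ := by
    have e2 : ∑ κ ∈ univ.erase (i l), (M - c (Function.update i l κ)) * mn (a l) (X l) κ =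
        ∑ κ, (M - c (Function.update i l κ)) * mn (a l) (X l) κ := by
      refine sum_erase _ ?_
      rw [hupd, sub_self, zero_mul]
    rw [e2, ← sum_mn hlp, mul_sum, ← sum_sub_distrib]
    exact sum_congr rfl fun κ _ => by ring
  have e3 : ∑ κ ∈ univ.erase (i l), ((M - c (Function.update i l κ)) *
      Real.log ‖a l (i l) - a l κ‖ - 2 * M * bta (a l) (i l) κ) ≤
      ∑ κ ∈ univ.erase (i l), (M - c (Function.update i l κ)) * mn (a l) (X l) κ := by
    refine sum_le_sum fun κ hκ => ?_
    have hne := (ne_of_mem_erase hκ).symm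
    have h1 := (abs_le.1 (mn_le hlp hρ hgd hne)).1
    have h2 := bta_nonneg hgd hne
    have h3 := abs_le.1 (hc (Function.update i l κ))
    have h4 : 0 ≤ M - c (Function.update i l κ) := by linarith [h3.2]
    have h5 : M - c (Function.update i l κ) ≤ 2 * M := by linarith [h3.1]
    have h6 : (M - c (Function.update i l κ)) * (Real.log ‖a l (i l) - a l κ‖ -
        bta (a l) (i l) κ) ≤ (M - c (Function.update i l κ)) * mn (a l) (X l) κ :=
      mul_le_mul_of_nonneg_left (by linarith) h4
    have h7 : (M - c (Function.update i l κ)) * bta (a l) (i l) κ ≤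
        2 * M * bta (a l) (i l) κ := mul_le_mul_of_nonneg_right h5 h2
    linarith
  rw [sum_sub_distrib, ← mul_sum] at e3
  have h8 := sum_bta (i := i l) hgd
  have h9 : 2 * M * ∑ κ ∈ univ.erase (i l), bta (a l) (i l) κ ≤ 2 * M * (1 / 3) :=
    mul_le_mul_of_nonneg_left h8 (by linarith)
  have h10 : Real.log (ρ l) ≤ Real.log (8 / 9 * R l) := Real.log_le_log hlp.ρpos hρ
  have h11 : Real.log (8 * R l) = Real.log 9 + Real.log (8 / 9 * R l) := by
    rw [← Real.log_mul (by norm_num) (by have := hgd.pos; positivity)]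
    congr 1
    ring
  rw [e1]
  rw [h11] at lap
  have h12 : M * Real.log (ρ l) ≤ M * Real.log (8 / 9 * R l) :=
    mul_le_mul_of_nonneg_left h10 hM.le
  linarith

theorem log_nine : 2 < Real.log 9 := by
  rw [Real.lt_log_iff_exp_lt (by norm_num)]
  have h1 := Real.exp_one_lt_d9
  have h2 : Real.exp 2 = Real.exp 1 * Real.exp 1 := by
    rw [← Real.exp_add]
    norm_num
  rw [h2]
  have h3 := Real.exp_pos 1
  nlinarith

theorem TP.core_neg (h : TP a R i X W ρ) {D : Fin (n + 1) → ℂ} (hD : ∀ l, D l ≠ 0)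
    (c : (∀ l, Fin (r l + 1)) → ℝ) {M : ℝ} (hM : 0 < M)
    (hc : ∀ k, |c k| ≤ M) (hi : c i = M)
    (hs : ∀ k l, ∑ κ, c (Function.update k l κ) = 0) : ∑ k, c k * PP a D X k < 0 := by
  set mt : (∀ l, Fin (r l + 1)) → ℝ := fun k => ∑ l, ∑ κ,
    (if k = Function.update i l κ then mn (a l) (X l) κ + Real.log ‖D l‖ else 0) with hmt
  set g : (∀ l, Fin (r l + 1)) → ℝ := fun k => ∏ l, gam (a l) (i l) (k l) with hg
  have hg0 : ∀ k, 0 ≤ g k := fun k => prod_nonneg fun l _ => gam_nonneg (h.good l) _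
  have hπ := Real.pi_pos
  have e1 : ∑ k, c k * mt k = ∑ l, ∑ κ, c (Function.update i l κ) * mn (a l) (X l) κ := by
    simp only [hmt, mul_sum]
    rw [sum_comm]
    refine sum_congr rfl fun l _ => ?_
    rw [sum_comm]
    have e0 : ∑ κ, c (Function.update i l κ) * mn (a l) (X l) κ =
        ∑ κ, c (Function.update i l κ) * (mn (a l) (X l) κ + Real.log ‖D l‖) := by
      simp only [mul_add]
      rw [sum_add_distrib, ← sum_mul, hs, zero_mul, add_zero]
    rw [e0]
    refine sum_congr rfl fun κ _ => ?_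
    rw [sum_eq_single (Function.update i l κ)]
    · rw [if_pos rfl]
    · intro k _ hk
      rw [if_neg hk, mul_zero]
    · intro hh
      exact absurd (mem_univ _) hh
  have e2 : ∑ k, c k * mt k ≤ (n + 1) * (M * (2 / 3 - Real.log 9)) := by
    rw [e1]
    calc ∑ l, ∑ κ, c (Function.update i l κ) * mn (a l) (X l) κ ≤
          ∑ _l : Fin (n + 1), M * (2 / 3 - Real.log 9) :=
          sum_le_sum fun l _ => h.dir c hM hc hi l (hs i l)
      _ = (n + 1) * (M * (2 / 3 - Real.log 9)) := by
          rw [sum_const, card_univ, Fintype.card_fin, nsmul_eq_mul]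
          push_cast
          ring
  have e3 : ∑ k, g k ≤ (2 / 3) ^ (n + 1) := by
    have h1 : ∑ k, g k = ∏ l, ∑ κ, gam (a l) (i l) κ := by
      rw [Finset.prod_univ_sum]
      rw [Fintype.piFinset_univ]
    rw [h1]
    calc ∏ l, ∑ κ, gam (a l) (i l) κ ≤ ∏ _l : Fin (n + 1), (2 / 3 : ℝ) :=
          prod_le_prod (fun l _ => sum_nonneg fun κ _ => gam_nonneg (h.good l) κ)
            fun l _ => sum_gam (h.good l)
      _ = (2 / 3) ^ (n + 1) := by rw [prod_const, card_univ, Fintype.card_fin]
  have e4 : ∑ k, c k * PP a D X k ≤ (2 * π) ^ n * (∑ k, c k * mt k) +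
      M * (2 * (n + 1) * (3 * π) ^ n) * ∑ k, g k := by
    rw [mul_sum, mul_sum, ← sum_add_distrib]
    refine sum_le_sum fun k _ => ?_
    have h1 := h.est hD k
    have h2 : c k * (PP a D X k - (2 * π) ^ n * mt k) ≤
        M * (2 * (n + 1) * (3 * π) ^ n * g k) := by
      refine (le_abs_self _).trans ?_
      rw [abs_mul]
      exact mul_le_mul (hc k) h1 (abs_nonneg _) hM.le
    linarith
  have e5 : M * (2 * (n + 1) * (3 * π) ^ n) * ∑ k, g k ≤
      M * (2 * (n + 1) * (3 * π) ^ n) * (2 / 3) ^ (n + 1) :=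
    mul_le_mul_of_nonneg_left e3 (by positivity)
  have e6 : M * (2 * (n + 1) * (3 * π) ^ n) * (2 / 3) ^ (n + 1) =
      (2 * π) ^ n * ((n + 1) * M * (4 / 3)) := by
    have h1 : (3 * π) ^ n * (2 / 3) ^ (n + 1) = (2 * π) ^ n * (2 / 3) := by
      rw [pow_succ, ← mul_assoc, ← mul_pow]
      congr 2
      ring
    calc M * (2 * (n + 1) * (3 * π) ^ n) * (2 / 3) ^ (n + 1) =
          M * (2 * (n + 1)) * ((3 * π) ^ n * (2 / 3) ^ (n + 1)) := by ring
      _ = M * (2 * (n + 1)) * ((2 * π) ^ n * (2 / 3)) := by rw [h1]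
      _ = (2 * π) ^ n * ((n + 1) * M * (4 / 3)) := by ring
  have e7 : (2 * π) ^ n * (∑ k, c k * mt k) ≤
      (2 * π) ^ n * ((n + 1) * (M * (2 / 3 - Real.log 9))) :=
    mul_le_mul_of_nonneg_left e2 (by positivity)
  have e8 : ∑ k, c k * PP a D X k ≤ (2 * π) ^ n * ((n + 1) * M * (2 - Real.log 9)) := by
    calc ∑ k, c k * PP a D X k ≤ (2 * π) ^ n * ((n + 1) * (M * (2 / 3 - Real.log 9))) +
          (2 * π) ^ n * ((n + 1) * M * (4 / 3)) := by linarith
      _ = (2 * π) ^ n * ((n + 1) * M * (2 - Real.log 9)) := by ring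
  refine lt_of_le_of_lt e8 ?_
  have h1 := log_nine
  have h2 : (n + 1 : ℝ) * M * (2 - Real.log 9) < 0 :=
    mul_neg_of_pos_of_neg (by positivity) (by linarith)
  exact mul_neg_of_pos_of_neg (by positivity) h2

/-- Independence of the regulators: if all the sums vanish, the coefficients vanish. -/
theorem core_zero {X W : (∀ l, Fin (r l + 1)) → Fin (n + 1) → ℝ → ℂ}
    (h : ∀ i, TP a R i (X i) (W i) ρ) {D : Fin (n + 1) → ℂ} (hD : ∀ l, D l ≠ 0) (c : (∀ l, Fin (r l + 1)) → ℝ)
    (hs : ∀ k l, ∑ κ, c (Function.update k l κ) = 0)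
    (hc : ∀ i, ∑ k, c k * PP a D (X i) k = 0) : c = 0 := by
  obtain ⟨i, -, hmax⟩ := exists_max_image (univ : Finset (∀ l, Fin (r l + 1)))
    (fun k => |c k|) ⟨fun _ => 0, mem_univ _⟩
  have hle : ∀ k, |c k| ≤ |c i| := fun k => hmax k (mem_univ _)
  by_cases h0 : c i = 0
  · funext k
    have h1 := hle k
    rw [h0, abs_zero] at h1
    exact abs_eq_zero.1 (le_antisymm h1 (abs_nonneg _))
  · exfalso
    rcases lt_or_gt_of_ne h0 with hneg | hpos
    · have h1 := (h i).core_neg hD (fun k => -c k) (M := |c i|) (abs_pos.2 h0)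
        (fun k => by rw [abs_neg]; exact hle k) (abs_of_neg hneg).symm
        (fun k l => by rw [sum_neg_distrib, hs, neg_zero])
      have h2 : ∑ k, -c k * PP a D (X i) k = -∑ k, c k * PP a D (X i) k := by
        rw [← sum_neg_distrib]
        exact sum_congr rfl fun l _ => by ring
      rw [h2, hc i, neg_zero] at h1
      exact lt_irrefl _ h1
    · have h1 := (h i).core_neg hD c (M := |c i|) (abs_pos.2 h0) hle (abs_of_pos hpos).symm hs
      rw [hc i] at h1
      exact lt_irrefl _ h1

end Pool.Agent.J4H54.KT
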