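import Pool.Agent.TH826.MK.Torus
set_option autoImplicit false

/-!
Multilinearity of the regulator, the extension of the coefficients, and a lemma of linear algebra.
-/

namespace Pool.Agent.J4H54.KT

open Pool.Agent.TH826.MK (Torus)

open Finset

section multi

variable {A : Type*} [CommRing A] {d : ℕ}

/-- the regulator as a multilinear map -/
noncomputable def pairM (Γ : Torus A d) :
    MultilinearMap ℤ (fun _ : Fin (d + 1) => Additive Aˣ) ℝ where
  toFun u := Γ.pair fun l => (u l).toMul
  map_update_add' := by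
    intro inst m i x y
    have hinst : inst = fun a b => instDecidableEqFin (d + 1) a b := Subsingleton.elim _ _
    subst hinst
    have e : ∀ z : Additive Aˣ, (fun l => (Function.update m i z l).toMul) =
        Function.update (fun l => (m l).toMul) i z.toMul := by
      intro z
      funext l
      by_cases h : l = i
      · subst h; simp
      · simp [Function.update_of_ne h]
    rw [e, e, e, toMul_add, Torus.pair_update_mul]
  map_update_smul' := by
    intro inst m i c x
    have hinst : inst = fun a b => instDecidableEqFin (d + 1) a b := Subsingleton.elim _ _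
    subst hinst
    have e : ∀ z : Additive Aˣ, (fun l => (Function.update m i z l).toMul) =
        Function.update (fun l => (m l).toMul) i z.toMul := by
      intro z
      funext l
      by_cases h : l = i
      · subst h; simp
      · simp [Function.update_of_ne h]
    let φ : Additive Aˣ →+ ℝ := AddMonoidHom.mk'
      (fun z => Γ.pair (Function.update (fun l => (m l).toMul) i z.toMul))
      (fun z w => by rw [toMul_add, Torus.pair_update_mul])
    rw [e, e]
    exact map_zsmul φ c x

theorem pairM_apply (Γ : Torus A d) (u : Fin (d + 1) → Aˣ) :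
    pairM Γ (fun l => Additive.ofMul (u l)) = Γ.pair u := rfl

/-- the coefficients of `u_{castSucc j} / u_{succ j}` -/
def vv {r : ℕ} (j : Fin r) (κ : Fin (r + 1)) : ℤ :=
  (if κ = j.castSucc then 1 else 0) - if κ = j.succ then 1 else 0

theorem sum_vv {r : ℕ} (j : Fin r) : ∑ κ, vv j κ = 0 := by
  unfold vv
  rw [sum_sub_distrib]
  simp

theorem sum_vv_smul {r : ℕ} {V : Type*} [AddCommGroup V] (j : Fin r) (u : Fin (r + 1) → V) :
    ∑ κ, vv j κ • u κ = u j.castSucc - u j.succ := by
  unfold vv
  simp [sub_smul, sum_sub_distrib, ite_smul]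

theorem pair_expand (Γ : Torus A d) {r : Fin (d + 1) → ℕ} (u : ∀ l, Fin (r l + 1) → Aˣ)
    (t : ∀ l, Fin (r l)) :
    Γ.pair (fun l => u l (t l).castSucc / u l (t l).succ) =
      ∑ k : ∀ l, Fin (r l + 1), ((∏ l, vv (t l) (k l) : ℤ) : ℝ) * Γ.pair fun l => u l (k l) := by
  have h1 : (fun l => Additive.ofMul (u l (t l).castSucc / u l (t l).succ)) =
      fun l => ∑ κ, vv (t l) κ • Additive.ofMul (u l κ) := by
    funext l
    rw [sum_vv_smul, ofMul_div]
  rw [← pairM_apply, h1, MultilinearMap.map_sum]
  refine sum_congr rfl fun k _ => ?_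
  rw [MultilinearMap.map_smul_univ, pairM_apply, zsmul_eq_mul]

end multi

section ext

variable {n : ℕ} {r : Fin (n + 1) → ℕ}

/-- the extended coefficients -/
noncomputable def ext (c : (∀ l, Fin (r l)) → ℝ) (k : ∀ l, Fin (r l + 1)) : ℝ :=
  ∑ t, c t * ((∏ l, vv (t l) (k l) : ℤ) : ℝ)

theorem sum_ext (c : (∀ l, Fin (r l)) → ℝ) (k : ∀ l, Fin (r l + 1)) (l : Fin (n + 1)) :
    ∑ κ, ext c (Function.update k l κ) = 0 := by
  unfold ext
  rw [sum_comm]
  refine sum_eq_zero fun t _ => ?_
  rw [← mul_sum, ← Int.cast_sum]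
  have h : ∑ κ, ∏ j, vv (t j) (Function.update k l κ j) = 0 := by
    have h1 : ∀ κ, ∏ j, vv (t j) (Function.update k l κ j) =
        vv (t l) κ * ∏ j ∈ univ.erase l, vv (t j) (k j) := by
      intro κ
      rw [← mul_prod_erase univ _ (mem_univ l), Function.update_self]
      congr 1
      refine prod_congr rfl fun j hj => ?_
      rw [Function.update_of_ne (ne_of_mem_erase hj)]
    simp only [h1]
    rw [← sum_mul, sum_vv, zero_mul]
  rw [h, Int.cast_zero, mul_zero]

theorem sum_vv_Iic {r : ℕ} (t j : Fin r) : ∑ κ ∈ Iic j.castSucc, vv t κ = if t = j then 1 else 0 := by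
  unfold vv
  rw [sum_sub_distrib, sum_ite_eq', sum_ite_eq']
  simp only [mem_Iic]
  have h1 : (t.castSucc ≤ j.castSucc) ↔ t ≤ j := Iff.rfl
  have h2 : (t.succ ≤ j.castSucc) ↔ t < j := Iff.rfl
  rw [if_congr h1 rfl rfl, if_congr h2 rfl rfl]
  rcases lt_trichotomy t j with h | h | h
  · rw [if_pos h.le, if_pos h, if_neg h.ne]
    norm_num
  · subst h
    rw [if_pos le_rfl, if_neg (lt_irrefl _), if_pos rfl]
    norm_num
  · rw [if_neg (not_le.2 h), if_neg (not_lt.2 h.le), if_neg h.ne']
    norm_num

theorem ext_injective {c : (∀ l, Fin (r l)) → ℝ} (h : ext c = 0) : c = 0 := by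
  funext s
  have h1 : ∑ k ∈ Fintype.piFinset fun l => Iic (s l).castSucc, ext c k = 0 :=
    sum_eq_zero fun k _ => congrFun h k
  unfold ext at h1
  rw [sum_comm] at h1
  have h2 : ∀ t : ∀ l, Fin (r l), ∑ k ∈ Fintype.piFinset fun l => Iic (s l).castSucc,
      c t * ((∏ l, vv (t l) (k l) : ℤ) : ℝ) = if t = s then c t else 0 := by
    intro t
    rw [← mul_sum, ← Int.cast_sum, ← prod_univ_sum (fun l => Iic (s l).castSucc)
      (fun l κ => vv (t l) κ)]
    simp only [sum_vv_Iic]
    by_cases ht : t = s
    · subst ht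
      simp
    · obtain ⟨l, hl⟩ := Function.ne_iff.1 ht
      rw [prod_eq_zero (mem_univ l) (if_neg hl), if_neg ht, Int.cast_zero, mul_zero]
  simp only [h2] at h1
  rw [sum_ite_eq' univ s] at h1
  simpa using h1

end ext

/-- An injective matrix has a square submatrix with nonzero determinant. -/
theorem exists_det_ne_zero {S T : Type*} [Fintype S] [Fintype T] [DecidableEq T]
    (M : S → T → ℝ) (hM : ∀ c : T → ℝ, (∀ s, ∑ t, M s t * c t = 0) → c = 0) :
    ∃ f : T → S, (Matrix.of fun t t' => M (f t) t').det ≠ 0 := by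
  classical
  obtain ⟨b, hb1, hb2, hb3⟩ := exists_linearIndependent ℝ (Set.range M)
  have htop : Submodule.span ℝ (Set.range M) = ⊤ := by
    by_contra hne
    obtain ⟨φ, hφ0, hφ⟩ := Submodule.exists_le_ker_of_lt_top _ (lt_top_iff_ne_top.2 hne)
    refine hφ0 ?_
    have hc : (fun t => φ (Pi.single t 1)) = 0 := by
      refine hM _ fun s => ?_
      have h1 : φ (M s) = 0 := hφ (Submodule.subset_span ⟨s, rfl⟩)
      have h2 : M s = ∑ t, M s t • (Pi.single t (1 : ℝ) : T → ℝ) := by
        funext t'
        simp [Finset.sum_apply, Pi.single_apply]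
      rw [h2, map_sum] at h1
      simpa using h1
    refine LinearMap.pi_ext' fun t => LinearMap.ext_ring ?_
    exact congrFun hc t
  rw [htop] at hb2
  set B : Module.Basis b ℝ (T → ℝ) := Module.Basis.mk hb3 (by
    rw [Subtype.range_coe]
    exact hb2.ge) with hB
  have hfin : Finite b := (Set.finite_range M).subset hb1
  have : Fintype b := Fintype.ofFinite b
  have hcard : Fintype.card T = Fintype.card b := by
    rw [← Module.finrank_eq_card_basis B, Module.finrank_fintype_fun_eq_card]
  obtain ⟨e⟩ := Fintype.card_eq.1 hcard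
  choose g hg using fun x : b => hb1 x.2
  refine ⟨fun t => g (e t), ?_⟩
  have h1 : (Matrix.of fun t t' => M (g (e t)) t') = Matrix.of fun t t' => ((e t : T → ℝ)) t' := by
    ext t t'
    rw [Matrix.of_apply, Matrix.of_apply, hg]
  rw [h1]
  have h2 : LinearIndependent ℝ fun t : T => ((e t : b) : T → ℝ) := hb3.comp _ e.injective
  have h3 : IsUnit (Matrix.of fun t t' => ((e t : T → ℝ)) t') :=
    Matrix.linearIndependent_rows_iff_isUnit.1 h2
  exact ((Matrix.isUnit_iff_isUnit_det _).1 h3).ne_zero

end Pool.Agent.J4H54.KT
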