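import Pool.Agent.J4H54.KT.Core
import Pool.Agent.J4H54.KT.Ext
import Pool.Agent.J4H54.K2.Ind
import Pool.Agent.TH826.MH.Tori
import Pool.Agent.TH826.MH.Smooth
set_option autoImplicit false

/-!
The hypersurfaces `λ ∏_k ∏_i (x_k - a_{k,i}) = 1`: smoothness, tori, regulators.
-/

namespace Pool.Agent.J4H54.KT

open Pool.Agent.TH826.MK (KQ symb Torus pairing circ norm_circ contDiff_circ hasDerivAt_circ
  circ_add_one)

open Pool.Agent.TH826.UH (NZ nz_circ)

open Pool.Agent.TH826.MH (CRing eqn fpol ent ux mkT mkT_ux qq eqn_eq pderiv_eqn eval_aeval)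

open Pool.Agent.J4H54.K2 (LP nrm sub_nrm prod_nrm fpol_monic eval_fpol inv_loop)

open Finset

open scoped Real

variable {K : Type*} [Field K] {n : ℕ} {r : Fin (n + 1) → ℕ} {σ : K →+* ℂ} {lam : K}
  {a : ∀ k, Fin (r k + 1) → K} {D R : Fin (n + 1) → ℝ}

section smooth

theorem qq_map {m : ℕ} (a : Fin (m + 1) → K) : (qq a).map σ = qq fun i => σ (a i) := by
  unfold qq
  rw [Polynomial.map_prod]
  refine Finset.prod_congr rfl fun i _ => ?_
  rw [Polynomial.map_sub, Polynomial.map_X, Polynomial.map_C]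

theorem eval_qq {m : ℕ} (β : Fin (m + 1) → ℂ) (x : ℂ) : (qq β).eval x = ∏ i, (x - β i) := by
  unfold qq
  rw [Polynomial.eval_prod]
  simp

/-- The critical values are large. -/
theorem crit_ge {m : ℕ} {a : Fin (m + 1) → K} {D R : ℝ} (hD : 0 < D) (hg : K2.Good (nrm σ D a) R)
    {x : ℂ} (hx : (Polynomial.derivative (qq a)).eval₂ σ x = 0) :
    3 / 2 * R ≤ ‖∏ k, (x / D - nrm σ D a k)‖ := by
  by_contra hcon
  rw [not_le] at hcon
  have h1 := K2.deriv_ne hD hg (one_ne_zero) hcon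
  apply h1
  have e : (fun t : ℂ => (1 : ℂ) * ∏ k, (t - σ (a k)) - 1) = fun t =>
      (qq fun i => σ (a i)).eval t - 1 := by
    funext t
    rw [eval_qq, one_mul]
  rw [e, (((qq fun i => σ (a i)).hasDerivAt x).sub_const 1).deriv, ← qq_map,
    Polynomial.derivative_map, Polynomial.eval_map, hx]

theorem smooth (hD : ∀ k, 0 < D k) (hg : ∀ k, K2.Good (nrm σ (D k) (a k)) (R k))
    (hN : 1 ≤ ‖σ lam‖ * (∏ k, D k ^ (r k + 1)) * ∏ k, R k) (x : Fin (n + 1) → ℂ)
    (hx : MvPolynomial.eval₂ σ x (eqn lam a) = 0) :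
    ∃ k, MvPolynomial.eval₂ σ x (MvPolynomial.pderiv k (eqn lam a)) ≠ 0 := by
  have h1 : σ lam * ∏ k, (qq (a k)).eval₂ σ (x k) = 1 := by
    rw [eqn_eq lam a 0, MvPolynomial.eval₂_sub, MvPolynomial.eval₂_mul,
      MvPolynomial.eval₂_mul, MvPolynomial.eval₂_C, MvPolynomial.eval₂_one, eval_aeval,
      MvPolynomial.eval₂_prod] at hx
    rw [← Finset.mul_prod_erase _ _ (Finset.mem_univ 0)]
    simp only [eval_aeval] at hx
    linear_combination hx
  have h0 : σ lam ≠ 0 ∧ ∏ k, (qq (a k)).eval₂ σ (x k) ≠ 0 := by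
    rw [← mul_ne_zero_iff, h1]
    exact one_ne_zero
  by_contra hcon
  push Not at hcon
  have hcrit : ∀ k, (Polynomial.derivative (qq (a k))).eval₂ σ (x k) = 0 := by
    intro k
    have h2 := hcon k
    rw [pderiv_eqn, MvPolynomial.eval₂_mul, MvPolynomial.eval₂_mul, MvPolynomial.eval₂_C,
      eval_aeval, MvPolynomial.eval₂_prod] at h2
    simp only [eval_aeval] at h2
    have h4 : ∏ l ∈ Finset.univ.erase k, (qq (a l)).eval₂ σ (x l) ≠ 0 :=
      Finset.prod_ne_zero_iff.2 fun l _ => (Finset.prod_ne_zero_iff.1 h0.2) l (Finset.mem_univ l)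
    rcases mul_eq_zero.1 h2 with h5 | h5
    · exact absurd h5 h0.1
    · rcases mul_eq_zero.1 h5 with h6 | h6
      · exact h6
      · exact absurd h6 h4
  have hge := fun k => crit_ge (hD k) (hg k) (hcrit k)
  have hval : ∀ k, ‖(qq (a k)).eval₂ σ (x k)‖ = D k ^ (r k + 1) *
      ‖∏ i, (x k / D k - nrm σ (D k) (a k) i)‖ := by
    intro k
    rw [← Polynomial.eval_map, qq_map, eval_qq, prod_nrm (hD k), norm_mul, norm_pow,
      Complex.norm_real, Real.norm_of_nonneg (hD k).le]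
  have h2 := congrArg norm h1
  rw [norm_mul, norm_prod, norm_one] at h2
  simp only [hval] at h2
  rw [prod_mul_distrib] at h2
  have h3 : ∏ k, (3 / 2 * R k) ≤ ∏ k, ‖∏ i, (x k / D k - nrm σ (D k) (a k) i)‖ :=
    prod_le_prod (fun k _ => by have := (hg k).pos; positivity) fun k _ => hge k
  have h4 : ∏ k, (3 / 2 * R k) = (3 / 2) ^ (n + 1) * ∏ k, R k := by
    rw [prod_mul_distrib, prod_const, card_univ, Fintype.card_fin]
  have h5 : (1 : ℝ) < (3 / 2) ^ (n + 1) := one_lt_pow₀ (by norm_num) (by omega)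
  have hR : 0 < ∏ k, R k := prod_pos fun k _ => (hg k).pos
  have hDp : 0 < ∏ k, D k ^ (r k + 1) := prod_pos fun k _ => pow_pos (hD k) _
  have hl : 0 < ‖σ lam‖ := norm_pos_iff.2 h0.1
  have h6 : ‖σ lam‖ * (∏ k, D k ^ (r k + 1)) * ((3 / 2) ^ (n + 1) * ∏ k, R k) ≤ 1 := by
    rw [← h4]
    calc ‖σ lam‖ * (∏ k, D k ^ (r k + 1)) * ∏ k, (3 / 2 * R k) ≤
          ‖σ lam‖ * (∏ k, D k ^ (r k + 1)) * ∏ k, ‖∏ i, (x k / D k - nrm σ (D k) (a k) i)‖ :=
          mul_le_mul_of_nonneg_left h3 (by positivity)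
      _ = 1 := by rw [← h2]; ring
  have h7 : ‖σ lam‖ * (∏ k, D k ^ (r k + 1)) * ((3 / 2) ^ (n + 1) * ∏ k, R k) =
      (3 / 2) ^ (n + 1) * (‖σ lam‖ * (∏ k, D k ^ (r k + 1)) * ∏ k, R k) := by ring
  rw [h7] at h6
  nlinarith

end smooth

section tori

theorem circ_prod {m : ℕ} (ρ : Fin m → ℝ) (θ : Fin m → ℝ) :
    ∏ j, circ (ρ j) (θ j) = circ (∏ j, ρ j) (∑ j, θ j) := by
  unfold circ
  rw [prod_mul_distrib, ← Complex.exp_sum]
  push_cast
  rw [mul_sum]

/-- the radii -/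
noncomputable def rd (L : ℝ) (R : Fin (n + 1) → ℝ) : Fin (n + 1) → ℝ :=
  Fin.cons (L * ∏ j : Fin n, 8 / 9 * R j.succ)⁻¹ fun j => 8 / 9 * R j.succ

/-- the values -/
noncomputable def WW (N : ℂ) (R : Fin (n + 1) → ℝ) : Fin (n + 1) → ℝ → ℂ :=
  Fin.cons (fun s => (N * circ (∏ j : Fin n, 8 / 9 * R j.succ) s)⁻¹)
    fun j => circ (8 / 9 * R j.succ)

theorem prod_WW {N : ℂ} (hN : N ≠ 0) (hR : ∀ l, 0 < R l) (θ : Fin n → ℝ) :
    N * ∏ l, WW N R l (co θ l) = 1 := by
  rw [Fin.prod_univ_succ]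
  have h1 : ∏ j : Fin n, WW N R j.succ (co θ j.succ) =
      circ (∏ j : Fin n, 8 / 9 * R j.succ) (∑ j, θ j) := by
    rw [← circ_prod]
    rfl
  rw [h1]
  have h2 : WW N R 0 (co θ 0) = (N * circ (∏ j : Fin n, 8 / 9 * R j.succ) (∑ j, θ j))⁻¹ := rfl
  rw [h2]
  have hpos : 0 < ∏ j : Fin n, 8 / 9 * R j.succ := prod_pos fun j _ => by
    have := hR j.succ
    positivity
  have h3 := (nz_circ hpos).ne_zero (∑ j, θ j)
  set z := circ (∏ j : Fin n, 8 / 9 * R j.succ) (∑ j, θ j) with hz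
  have h4 : N * ((N * z)⁻¹ * z) = N * z * (N * z)⁻¹ := by ring
  rw [h4]
  exact mul_inv_cancel₀ (mul_ne_zero hN h3)

theorem exists_lp {b : ∀ l, Fin (r l + 1) → ℂ} (hg : ∀ l, K2.Good (b l) (R l)) {N : ℂ} (hN : N ≠ 0)
    (h1 : 1 ≤ ‖N‖ * ∏ l, (8 / 9 * R l)) : ∃ X : ∀ l, Fin (r l + 1) → ℝ → ℂ,
    ∀ i, TP b R i (fun l => X l (i l)) (WW N R) (rd ‖N‖ R) := by
  have hR : ∀ l, 0 < R l := fun l => (hg l).pos
  have hNpos : 0 < ‖N‖ := norm_pos_iff.2 hN
  have hpos : 0 < ∏ j : Fin n, 8 / 9 * R j.succ := prod_pos fun j _ => by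
    have := hR j.succ
    positivity
  have hle : ∀ l, rd ‖N‖ R l ≤ 8 / 9 * R l := by
    intro l
    refine Fin.cases ?_ (fun j => ?_) l
    · show (‖N‖ * ∏ j : Fin n, 8 / 9 * R j.succ)⁻¹ ≤ 8 / 9 * R 0
      have h0 := hR 0
      rw [inv_le_comm₀ (by positivity) (by positivity), ← one_div, div_le_iff₀ (by positivity)]
      rw [Fin.prod_univ_succ] at h1
      linarith
    · exact le_rfl
  have key : ∀ l, ∀ k : Fin (r l + 1), ∃ X : ℝ → ℂ,
      LP (b l) (R l) k X (WW N R l) (rd ‖N‖ R l) (om l) := by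
    intro l
    have hl := hle l
    revert hl
    refine Fin.cases ?_ (fun j => ?_) l
    · intro hl k
      obtain ⟨v1, v2, v3, v4⟩ := inv_loop hN hpos
      refine K2.Good.loop (hg 0) (W := WW N R 0) (ρ := rd ‖N‖ R 0) (ω := om 0) v1 v2 v3 ?_ ?_ ?_
        (abs_om 0) k
      · intro s
        have h2 := v4 s
        have h3 : (om (0 : Fin (n + 1)) : ℝ) = -(2 * π) := by
          show -(1 : ℝ) * (2 * π) = -(2 * π)
          ring
        rw [h3]
        exact h2
      · show 0 < (‖N‖ * ∏ j : Fin n, 8 / 9 * R j.succ)⁻¹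
        positivity
      · have := hR 0
        linarith
    · intro hl k
      have hRj := hR j.succ
      have hp : 0 < 8 / 9 * R j.succ := by positivity
      refine K2.Good.loop (hg j.succ) (W := WW N R j.succ) (ρ := rd ‖N‖ R j.succ)
        (ω := om j.succ) (contDiff_circ _) (circ_add_one _) (norm_circ hp.le) ?_ hp ?_
        (abs_om _) k
      · intro s
        have h1 := hasDerivAt_circ (8 / 9 * R j.succ) s
        refine h1.congr_deriv ?_
        have h3 : (om j.succ : ℝ) = 2 * π := by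
          show -(-1 : ℝ) * (2 * π) = 2 * π
          ring
        rw [h3]
        show _ = ((2 * π : ℝ) : ℂ) * Complex.I * circ (8 / 9 * R j.succ) s
        push_cast
        ring
      · show 8 / 9 * R j.succ ≤ R j.succ
        linarith
  choose X hX using key
  exact ⟨X, fun i => ⟨hg, fun l => hX l (i l), hle⟩⟩

end tori

theorem contDiff_co : ContDiff ℝ 2 fun θ : Fin n → ℝ => co θ := by
  refine contDiff_pi.2 fun l => ?_
  refine Fin.cases ?_ (fun j => ?_) l
  · show ContDiff ℝ 2 fun θ : Fin n → ℝ => ∑ j, θ j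
    exact ContDiff.sum fun j _ => contDiff_apply ℝ ℝ j
  · exact contDiff_apply ℝ ℝ j

theorem exists_tori (hD : ∀ k, 0 < D k) (hg : ∀ k, K2.Good (nrm σ (D k) (a k)) (R k))
    (hN : 1 ≤ ‖σ lam‖ * (∏ k, D k ^ (r k + 1)) * ∏ k, (8 / 9 * R k)) :
    ∃ Γ : (∀ k, Fin (r k)) → Torus (CRing lam a) n,
      (∀ t θ (x : K), (Γ t).e θ (fpol lam a (MvPolynomial.C x)) = σ x) ∧
      (Matrix.of fun t i : (∀ k, Fin (r k)) => (Γ t).reg (symb (ent lam a i))).det ≠ 0 := by
  classical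
  set D' : Fin (n + 1) → ℂ := fun l => ((D l : ℝ) : ℂ) with hD'
  have hD0 : ∀ l, D' l ≠ 0 := fun l => by
    simp only [hD']
    exact_mod_cast (hD l).ne'
  have hDp : 0 < ∏ k, D k ^ (r k + 1) := prod_pos fun k _ => pow_pos (hD k) _
  set N : ℂ := σ lam * ∏ k, D' k ^ (r k + 1) with hNdef
  have hNn : ‖N‖ = ‖σ lam‖ * ∏ k, D k ^ (r k + 1) := by
    rw [hNdef, norm_mul, norm_prod]
    congr 1
    refine prod_congr rfl fun k _ => ?_
    simp only [hD']
    rw [norm_pow, Complex.norm_real, Real.norm_of_nonneg (hD k).le]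
  rw [← hNn] at hN
  have hN0 : N ≠ 0 := by
    intro h
    rw [h, norm_zero, zero_mul] at hN
    linarith
  obtain ⟨X, hX⟩ := exists_lp hg hN0 hN
  have hR : ∀ l, 0 < R l := fun l => (hg l).pos
  have hsm : ∀ l k, ContDiff ℝ 2 (X l k) := fun l k => by
    have h := ((hX (Function.update (fun _ => 0) l k)).lp l).smooth
    simpa using h
  have hper : ∀ l k s, X l k (s + 1) = X l k s := fun l k => by
    have h := ((hX (Function.update (fun _ => 0) l k)).lp l).per
    simpa using h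
  have hprod : ∀ l k s, ∏ i, (X l k s - nrm σ (D l) (a l) i) = WW N R l s := fun l k => by
    have h := ((hX (Function.update (fun _ => 0) l k)).lp l).prod
    simpa using h
  have hne : ∀ l k i s, X l k s - nrm σ (D l) (a l) i ≠ 0 := fun l k i => by
    have h := ((hX (Function.update (fun _ => 0) l k)).lp l).ne i
    simpa using h
  -- the tori
  set x : (∀ l, Fin (r l + 1)) → (Fin n → ℝ) → (Fin (n + 1) → ℂ) := fun i θ l =>
    D' l * X l (i l) (co θ l) with hx
  have hxc : ∀ i, ContDiff ℝ 2 (x i) := fun i => contDiff_pi.2 fun l =>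
    contDiff_const.mul ((hsm l (i l)).comp (contDiff_pi.1 contDiff_co l))
  have hxp : ∀ i θ j, x i (θ + Pi.single j 1) = x i θ := by
    intro i θ j
    funext l
    simp only [hx]
    congr 1
    refine Fin.cases ?_ (fun m => ?_) l
    · show X 0 (i 0) (∑ m, (θ + Pi.single j 1 : Fin n → ℝ) m) = X 0 (i 0) (∑ m, θ m)
      have h1 : ∑ m, (θ + Pi.single j 1 : Fin n → ℝ) m = ∑ m, θ m + 1 := by
        simp [sum_add_distrib]
      rw [h1, hper]
    · show X m.succ (i m.succ) ((θ + Pi.single j 1 : Fin n → ℝ) m) = X m.succ (i m.succ) (θ m)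
      by_cases hm : m = j
      · subst hm
        rw [Pi.add_apply, Pi.single_eq_same, hper]
      · rw [Pi.add_apply, Pi.single_eq_of_ne hm, add_zero]
  have hsub : ∀ i θ l k, x i θ l - σ (a l k) =
      D' l * (X l (i l) (co θ l) - nrm σ (D l) (a l) k) := by
    intro i θ l k
    rw [sub_nrm (hD l)]
    simp only [hx]
    rw [mul_div_cancel_left₀ _ (hD0 l)]
  have hxe : ∀ i θ, σ lam * ∏ l, ∏ k, (x i θ l - σ (a l k)) = 1 := by
    intro i θ
    have h1 : ∀ l, ∏ k, (x i θ l - σ (a l k)) = D' l ^ (r l + 1) * WW N R l (co θ l) := by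
      intro l
      simp only [hsub]
      rw [prod_mul_distrib, prod_const, card_univ, Fintype.card_fin, hprod]
    simp only [h1]
    rw [prod_mul_distrib, ← mul_assoc]
    exact prod_WW hN0 hR θ
  -- the regulators
  have hreg : ∀ i t, (mkT (x i) (hxc i) (hxp i) (hxe i)).reg (symb (ent lam a t)) =
      ∑ k : ∀ l, Fin (r l + 1), ((∏ l, vv (t l) (k l) : ℤ) : ℝ) *
        PP (fun l => nrm σ (D l) (a l)) D' (fun l => X l (i l)) k := by
    intro i t
    rw [Torus.reg_symb]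
    have h1 := pair_expand (mkT (x i) (hxc i) (hxp i) (hxe i)) (fun l k => ux lam a l k) t
    refine Eq.trans h1 (sum_congr rfl fun k _ => ?_)
    congr 1
    unfold Torus.pair PP
    congr 1
    funext l
    rw [mkT_ux]
    funext θ
    exact hsub i θ l (k l)
  obtain ⟨f, hf⟩ := exists_det_ne_zero
    (fun i t => (mkT (x i) (hxc i) (hxp i) (hxe i)).reg (symb (ent lam a t))) (fun c hc => by
      refine ext_injective ?_
      refine core_zero (a := fun l => nrm σ (D l) (a l)) (R := R) (ρ := rd ‖N‖ R)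
        (X := fun i l => X l (i l)) (W := fun _ => WW N R) hX hD0 (ext c) (sum_ext c) fun i => ?_
      have h1 := hc i
      simp only [hreg] at h1
      rw [← h1]
      unfold ext
      simp only [sum_mul]
      rw [sum_comm]
      refine sum_congr rfl fun t _ => sum_congr rfl fun k _ => ?_
      ring)
  refine ⟨fun t => mkT (x (f t)) (hxc _) (hxp _) (hxe _), fun t θ y => ?_, hf⟩
  refine (Pool.Agent.TH826.MH.evX_fpol (hxe (f t) θ) _).trans ?_
  simp

end Pool.Agent.J4H54.KT
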