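import Pool.Agent.J4H54.KT.Det
import Pool.Agent.TH826.UH.Pair
set_option autoImplicit false

/-!
The estimate of the regulator integral of the functions `G_l (x_l)`.
-/

namespace Pool.Agent.J4H54.KT

open MeasureTheory Set

open Pool.Agent.TH826.MK (restrict_Icc tl tl_apply lw grow grow_zero grow_succ integrand pairing
  Good)

open Pool.Agent.TH826.UH (NZ)

variable {n : ℕ}

/-- a loop in `ℂ^×` with the winding number `w / 2π`, the mean `m` of the logarithm, and bounds -/
structure Lo (G : ℝ → ℂ) (w m b c : ℝ) : Prop where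
  nz : NZ G
  per : ∀ s, G (s + 1) = G s
  wind : ∫ s in (0 : ℝ)..1, ld G s = w * Complex.I
  mean : ∫ s in (0 : ℝ)..1, Real.log ‖G s‖ = m
  pb : ∀ s, |Real.log ‖G s‖ - m| ≤ b
  qb : ∀ s, ‖ld G s - w * Complex.I‖ ≤ c

variable {G : ℝ → ℂ} {w m b c : ℝ}

theorem cont_ld (h : NZ G) : Continuous (ld G) := h.cont_ld

theorem per_ld (h : ∀ s, G (s + 1) = G s) (x : ℝ) : ld G (x + 1) = ld G x := by
  unfold ld
  have h1 : (fun s => G (s + 1)) = G := funext h
  have h2 := deriv_comp_add_const G 1 x
  rw [h1] at h2
  rw [← h2, h]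

theorem Lo.fn_q (h : Lo G w m b c) : Fn fun t x => qt G t x - w := by
  refine ⟨?_, fun t x => ?_⟩
  · have h1 : Continuous fun p : ℝ × ℝ => ld G p.2 := (cont_ld h.nz).comp continuous_snd
    unfold qt
    exact (((Complex.continuous_ofReal.comp (Complex.continuous_im.comp h1)).sub
      (continuous_const.mul ((Complex.continuous_ofReal.comp continuous_fst).mul
        (Complex.continuous_ofReal.comp (Complex.continuous_re.comp h1))))).sub continuous_const)
  · unfold qt
    rw [per_ld h.per]

theorem Lo.fn_p (h : Lo G w m b c) : Fn fun t x => pt G t x - m := by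
  refine ⟨?_, fun t x => ?_⟩
  · have h1 : Continuous fun p : ℝ × ℝ => Real.log ‖G p.2‖ := h.nz.cont_log.comp continuous_snd
    unfold pt
    exact (Complex.continuous_ofReal.comp h1).sub continuous_const
  · unfold pt
    rw [h.per]

theorem Lo.mz_q (h : Lo G w m b c) : Mz fun t x => qt G t x - w := by
  intro t
  have hc := cont_ld h.nz
  have hi := hc.intervalIntegrable (μ := volume) 0 1
  have hre : ∫ s in (0 : ℝ)..1, (ld G s).re = 0 := by
    have h1 := Complex.reCLM.intervalIntegral_comp_comm hi
    rw [h.wind] at h1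
    simpa using h1
  have him : ∫ s in (0 : ℝ)..1, (ld G s).im = w := by
    have h1 := Complex.imCLM.intervalIntegral_comp_comm hi
    rw [h.wind] at h1
    simpa using h1
  have c1 : Continuous fun s => (ld G s).re := Complex.continuous_re.comp hc
  have c2 : Continuous fun s => (ld G s).im := Complex.continuous_im.comp hc
  have e : ∀ x, qt G t x - w = ((((ld G x).im - w : ℝ)) : ℂ) -
      Complex.I * t * (((ld G x).re : ℝ) : ℂ) := by
    intro x
    unfold qt
    push_cast
    ring
  simp only [e]
  rw [intervalIntegral.integral_sub, intervalIntegral.integral_const_mul,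
    intervalIntegral.integral_ofReal, intervalIntegral.integral_ofReal, hre,
    intervalIntegral.integral_sub (c2.intervalIntegrable _ _)
      (continuous_const.intervalIntegrable _ _), him]
  · simp
  · exact (Complex.continuous_ofReal.comp (c2.sub continuous_const)).intervalIntegrable _ _
  · exact (continuous_const.mul (Complex.continuous_ofReal.comp c1)).intervalIntegrable _ _

theorem Lo.mz_p (h : Lo G w m b c) : Mz fun t x => pt G t x - m := by
  intro t
  have e : ∀ x, pt G t x - m = ((Real.log ‖G x‖ - m : ℝ) : ℂ) := by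
    intro x
    unfold pt
    push_cast
    rfl
  simp only [e]
  rw [intervalIntegral.integral_ofReal, intervalIntegral.integral_sub
    (h.nz.cont_log.intervalIntegrable _ _) (continuous_const.intervalIntegrable _ _), h.mean]
  simp

theorem Lo.bd_q (h : Lo G w m b c) {t : ℝ} (ht : t ∈ Icc (0 : ℝ) 1) (x : ℝ) :
    ‖qt G t x - w‖ ≤ c := by
  refine le_trans ?_ (h.qb x)
  set z := ld G x - w * Complex.I with hz
  have e : qt G t x - w = ((z.im : ℝ) : ℂ) - Complex.I * (t * ((z.re : ℝ) : ℂ)) := by
    have h1 : z.im = (ld G x).im - w := by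
      rw [hz]
      simp
    have h2 : z.re = (ld G x).re := by
      rw [hz]
      simp
    rw [h1, h2]
    unfold qt
    push_cast
    ring
  have h3 : ‖qt G t x - w‖ ^ 2 = z.im ^ 2 + (t * z.re) ^ 2 := by
    rw [e, ← Complex.normSq_eq_norm_sq, Complex.normSq_apply]
    simp
    ring
  have h4 : ‖z‖ ^ 2 = z.re ^ 2 + z.im ^ 2 := by
    rw [← Complex.normSq_eq_norm_sq, Complex.normSq_apply]
    ring
  refine abs_le_of_sq_le_sq' ?_ (norm_nonneg z) |>.2
  rw [h3, h4]
  have h5 : t ^ 2 ≤ 1 := by nlinarith [ht.1, ht.2]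
  nlinarith [sq_nonneg z.re]

theorem Lo.bd_p (h : Lo G w m b c) (t x : ℝ) : ‖pt G t x - m‖ ≤ b := by
  have e : pt G t x - m = ((Real.log ‖G x‖ - m : ℝ) : ℂ) := by
    unfold pt
    push_cast
    rfl
  rw [e, Complex.norm_real, Real.norm_eq_abs]
  exact h.pb x

theorem ld_smul {E : ℂ} (hE : E ≠ 0) (G : ℝ → ℂ) (s : ℝ) : ld (fun s => E * G s) s = ld G s := by
  unfold ld
  rw [deriv_const_mul_field, mul_div_mul_left _ _ hE]

theorem Lo.smul (h : Lo G w m b c) {E : ℂ} (hE : E ≠ 0) :
    Lo (fun s => E * G s) w (m + Real.log ‖E‖) b c := by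
  have hlog : ∀ s, Real.log ‖E * G s‖ = Real.log ‖G s‖ + Real.log ‖E‖ := by
    intro s
    rw [norm_mul, Real.log_mul (norm_ne_zero_iff.2 hE) (norm_ne_zero_iff.2 (h.nz.ne_zero s)),
      add_comm]
  refine ⟨⟨contDiff_const.mul h.nz.smooth, fun s => mul_ne_zero hE (h.nz.ne_zero s)⟩,
    fun s => by rw [h.per], ?_, ?_, fun s => ?_, fun s => ?_⟩
  · simp only [ld_smul hE]
    exact h.wind
  · simp only [hlog]
    rw [intervalIntegral.integral_add (h.nz.cont_log.intervalIntegrable _ _)
      (continuous_const.intervalIntegrable _ _), h.mean]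
    simp
  · rw [hlog, add_sub_add_right_eq_sub]
    exact h.pb s
  · rw [ld_smul hE]
    exact h.qb s

section many

variable {G : Fin (n + 1) → ℝ → ℂ} {w m b c : Fin (n + 1) → ℝ}

/-- the deviations from the means -/
noncomputable def dev (G : Fin (n + 1) → ℝ → ℂ) (w m : Fin (n + 1) → ℝ) (l j : Fin (n + 1))
    (t x : ℝ) : ℂ :=
  if j = l then pt (G j) t x - m j else qt (G j) t x - w j

theorem J_eq (h : ∀ l, Lo (G l) (w l) (m l) (b l) (c l)) (l : Fin (n + 1)) :
    J (Function.update (fun j => qt (G j)) l (pt (G l))) =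
      ∏ j, ((Function.update w l (m l) j : ℝ) : ℂ) + J (dev G w m l) := by
  have h1 : Function.update (fun j => qt (G j)) l (pt (G l)) = fun j t x =>
      ((Function.update w l (m l) j : ℝ) : ℂ) + dev G w m l j t x := by
    funext j t x
    unfold dev
    by_cases hj : j = l
    · subst hj
      rw [Function.update_self, Function.update_self, if_pos rfl]
      ring
    · rw [Function.update_of_ne hj, Function.update_of_ne hj, if_neg hj]
      ring
  rw [h1]
  refine J_add (fun j => ?_) (fun j => ?_)
  · by_cases hj : j = l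
    · subst hj
      have e : dev G w m j j = fun t x => pt (G j) t x - m j := by
        funext t x
        unfold dev
        rw [if_pos rfl]
      rw [e]
      exact (h j).fn_p
    · have e : dev G w m l j = fun t x => qt (G j) t x - w j := by
        funext t x
        unfold dev
        rw [if_neg hj]
      rw [e]
      exact (h j).fn_q
  · by_cases hj : j = l
    · subst hj
      have e : dev G w m j j = fun t x => pt (G j) t x - m j := by
        funext t x
        unfold dev
        rw [if_pos rfl]
      rw [e]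
      exact (h j).mz_p
    · have e : dev G w m l j = fun t x => qt (G j) t x - w j := by
        funext t x
        unfold dev
        rw [if_neg hj]
      rw [e]
      exact (h j).mz_q

theorem norm_J_dev (h : ∀ l, Lo (G l) (w l) (m l) (b l) (c l)) (l : Fin (n + 1)) :
    ‖J (dev G w m l)‖ ≤ ∏ j, Function.update c l (b l) j := by
  refine norm_J_le fun j t ht x => ?_
  unfold dev
  by_cases hj : j = l
  · subst hj
    rw [if_pos rfl, Function.update_self]
    exact (h j).bd_p t x
  · rw [if_neg hj, Function.update_of_ne hj]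
    exact (h j).bd_q ht x

theorem fn_upd (h : ∀ l, Lo (G l) (w l) (m l) (b l) (c l)) (l j : Fin (n + 1)) :
    Fn (Function.update (fun j => qt (G j)) l (pt (G l)) j) := by
  by_cases hj : j = l
  · subst hj
    rw [Function.update_self]
    have h1 := (h j).fn_p
    refine ⟨?_, fun t x => ?_⟩
    · have h2 := h1.cont.add (continuous_const (y := ((m j : ℝ) : ℂ)))
      exact h2.congr fun p => sub_add_cancel _ _
    · have h2 := h1.per t x
      simpa using h2
  · rw [Function.update_of_ne hj]
    have h1 := (h j).fn_q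
    refine ⟨?_, fun t x => ?_⟩
    · have h2 := h1.cont.add (continuous_const (y := ((w j : ℝ) : ℂ)))
      exact h2.congr fun p => sub_add_cancel _ _
    · have h2 := h1.per t x
      simpa using h2

theorem pairing_tf (h : ∀ l, Lo (G l) (w l) (m l) (b l) (c l)) : pairing (tf G) =
    ∑ l, sg l * (J (Function.update (fun j => qt (G j)) l (pt (G l)))).re := by
  unfold pairing
  simp only [integrand_tf fun l => (h l).nz.smooth]
  have e1 : ∀ y : Fin (n + 1) → ℝ, (∑ l, (sg l : ℂ) * ∏ j, (Function.update
      (fun j => qt (G j)) l (pt (G l))) j (y 0) (co (tl n y) j)).re =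
      Complex.reCLM (∑ l, (sg l : ℂ) * ∏ j, (Function.update (fun j => qt (G j)) l (pt (G l))) j
        (y 0) (co (tl n y) j)) := fun y => rfl
  simp only [e1]
  have hi : ∀ l, IntegrableOn (fun y : Fin (n + 1) → ℝ => (sg l : ℂ) * ∏ j, (Function.update
      (fun j => qt (G j)) l (pt (G l))) j (y 0) (co (tl n y) j)) (Icc 0 1) := fun l =>
    (continuous_const.mul (continuous_J fun j => fn_upd h l j)).continuousOn.integrableOn_compact
      isCompact_Icc
  rw [ContinuousLinearMap.integral_comp_comm, integral_finsetSum _ fun l _ => hi l, map_sum]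
  · refine Finset.sum_congr rfl fun l _ => ?_
    rw [integral_const_mul]
    show ((sg l : ℂ) * J _).re = _
    rw [Complex.re_ofReal_mul]
  · exact integrable_finsetSum _ fun l _ => hi l

theorem pairing_est (h : ∀ l, Lo (G l) (w l) (m l) (b l) (c l)) :
    |pairing (tf G) - ∑ l, sg l * ∏ j, Function.update w l (m l) j| ≤
      ∑ l, ∏ j, Function.update c l (b l) j := by
  rw [pairing_tf h, ← Finset.sum_sub_distrib]
  refine (Finset.abs_sum_le_sum_abs _ _).trans (Finset.sum_le_sum fun l _ => ?_)
  rw [J_eq h, Complex.add_re, ← Complex.ofReal_prod, Complex.ofReal_re, ← mul_sub, abs_mul]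
  have h1 : |sg l| = 1 := by
    refine Fin.cases ?_ (fun l => ?_) l
    · show |(1 : ℝ)| = 1
      norm_num
    · show |(-1 : ℝ)| = 1
      norm_num
  rw [h1, one_mul, add_sub_cancel_left]
  exact (Complex.abs_re_le_norm _).trans (norm_J_dev h l)

end many

end Pool.Agent.J4H54.KT
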