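import Pool.Agent.J4H54.K2.Real
set_option autoImplicit false

/-!
Complex points with mutual distances at least `1`: the same lower bounds with another constant.
-/

namespace Pool.Agent.J4H54.KT

open Pool.Agent.TH826.UH (outer)

open Finset

variable {m : ℕ} {a : Fin (m + 1) → ℂ}

/-- at most `q²` points in a disc of radius `q/3` -/
theorem card_disc (h : ∀ i k, i ≠ k → 1 ≤ ‖a i - a k‖) (c : ℂ) (q : ℕ) :
    (univ.filter fun i => ‖a i - c‖ < (q : ℝ) / 3).card ≤ q * q := by
  classical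
  set u : Fin (m + 1) → ℝ := fun i => 3 / 2 * ((a i).re - c.re) + q / 2 with hu
  set v : Fin (m + 1) → ℝ := fun i => 3 / 2 * ((a i).im - c.im) + q / 2 with hv
  set f : Fin (m + 1) → ℕ × ℕ := fun i => ((⌊u i⌋).toNat, (⌊v i⌋).toNat) with hf
  have hb : ∀ i ∈ univ.filter (fun i => ‖a i - c‖ < (q : ℝ) / 3),
      (0 ≤ u i ∧ u i < q) ∧ (0 ≤ v i ∧ v i < q) := by
    intro i hi
    have h1 := (mem_filter.1 hi).2
    have h2 := (Complex.abs_re_le_norm (a i - c)).trans_lt h1
    have h3 := (Complex.abs_im_le_norm (a i - c)).trans_lt h1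
    rw [Complex.sub_re] at h2
    rw [Complex.sub_im] at h3
    have h4 := abs_lt.1 h2
    have h5 := abs_lt.1 h3
    simp only [hu, hv]
    refine ⟨⟨?_, ?_⟩, ?_, ?_⟩ <;> linarith [h4.1, h4.2, h5.1, h5.2]
  have hfl : ∀ {t : ℝ}, 0 ≤ t → t < q → (⌊t⌋).toNat ∈ range q := by
    intro t h0 h1
    rw [mem_range]
    have h2 : 0 ≤ ⌊t⌋ := Int.floor_nonneg.2 h0
    have h3 : ⌊t⌋ < q := by
      rw [Int.floor_lt]
      push_cast
      exact h1
    omega
  have h1 : ∀ i ∈ univ.filter (fun i => ‖a i - c‖ < (q : ℝ) / 3), f i ∈ range q ×ˢ range q := by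
    intro i hi
    obtain ⟨⟨h2, h3⟩, h4, h5⟩ := hb i hi
    exact mem_product.2 ⟨hfl h2 h3, hfl h4 h5⟩
  refine (card_le_card_of_injOn f h1 ?_).trans (by rw [card_product, card_range])
  intro i hi k hk hik
  obtain ⟨⟨i2, i3⟩, i4, i5⟩ := hb i hi
  obtain ⟨⟨k2, k3⟩, k4, k5⟩ := hb k hk
  have e1 : (⌊u i⌋).toNat = (⌊u k⌋).toNat := congrArg Prod.fst hik
  have e2 : (⌊v i⌋).toNat = (⌊v k⌋).toNat := congrArg Prod.snd hik
  have f1 : 0 ≤ ⌊u i⌋ := Int.floor_nonneg.2 i2
  have f2 : 0 ≤ ⌊u k⌋ := Int.floor_nonneg.2 k2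
  have f3 : 0 ≤ ⌊v i⌋ := Int.floor_nonneg.2 i4
  have f4 : 0 ≤ ⌊v k⌋ := Int.floor_nonneg.2 k4
  have g1 : ⌊u i⌋ = ⌊u k⌋ := by omega
  have g2 : ⌊v i⌋ = ⌊v k⌋ := by omega
  have a1 := Int.abs_sub_lt_one_of_floor_eq_floor g1
  have a2 := Int.abs_sub_lt_one_of_floor_eq_floor g2
  by_contra hne
  have h8 := h i k hne
  have b1 : u i - u k = 3 / 2 * ((a i).re - (a k).re) := by
    simp only [hu]
    ring
  have b2 : v i - v k = 3 / 2 * ((a i).im - (a k).im) := by
    simp only [hv]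
    ring
  rw [b1] at a1
  rw [b2] at a2
  have c1 := abs_lt.1 a1
  have c2 := abs_lt.1 a2
  have h9 : ‖a i - a k‖ ^ 2 = ((a i).re - (a k).re) ^ 2 + ((a i).im - (a k).im) ^ 2 := by
    rw [← Complex.normSq_eq_norm_sq, Complex.normSq_apply, Complex.sub_re, Complex.sub_im]
    ring
  have h10 : (1 : ℝ) ≤ ‖a i - a k‖ ^ 2 := one_le_pow₀ h8
  have d1 : ((a i).re - (a k).re) ^ 2 < 4 / 9 := by
    have : |(a i).re - (a k).re| < 2 / 3 := by
      rw [abs_lt]
      constructor <;> linarith [c1.1, c1.2]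
    calc ((a i).re - (a k).re) ^ 2 = |(a i).re - (a k).re| ^ 2 := (sq_abs _).symm
      _ < (2 / 3) ^ 2 := pow_lt_pow_left₀ this (abs_nonneg _) (by norm_num)
      _ = 4 / 9 := by norm_num
  have d2 : ((a i).im - (a k).im) ^ 2 < 4 / 9 := by
    have : |(a i).im - (a k).im| < 2 / 3 := by
      rw [abs_lt]
      constructor <;> linarith [c2.1, c2.2]
    calc ((a i).im - (a k).im) ^ 2 = |(a i).im - (a k).im| ^ 2 := (sq_abs _).symm
      _ < (2 / 3) ^ 2 := pow_lt_pow_left₀ this (abs_nonneg _) (by norm_num)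
      _ = 4 / 9 := by norm_num
  linarith

/-- the same without the centre -/
theorem card_disc' (h : ∀ i k, i ≠ k → 1 ≤ ‖a i - a k‖) (i : Fin (m + 1)) {q : ℕ} (hq : 0 < q) :
    ((univ.erase i).filter fun k => ‖a i - a k‖ < (q : ℝ) / 3).card + 1 ≤ q * q := by
  classical
  have h1 := card_disc h (a i) q
  have h2 : insert i ((univ.erase i).filter fun k => ‖a i - a k‖ < (q : ℝ) / 3) ⊆
      univ.filter fun k => ‖a k - a i‖ < (q : ℝ) / 3 := by
    intro k hk
    rw [mem_filter]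
    refine ⟨mem_univ _, ?_⟩
    rcases mem_insert.1 hk with h3 | h3
    · subst h3
      rw [sub_self, norm_zero]
      positivity
    · rw [norm_sub_rev]
      exact (mem_filter.1 h3).2
  have h3 := (card_le_card h2).trans h1
  rw [card_insert_of_notMem] at h3
  · exact h3
  · intro h4
    exact (mem_erase.1 (mem_filter.1 h4).1).1 rfl

/-- the radius in the complex case -/
noncomputable def radC (m : ℕ) : ℝ := 9 / 8 * (2 ^ (m - 168) / 65536)

theorem prod_ite_const {ι : Type*} [DecidableEq ι] (s : Finset ι) (p : ι → Prop) [DecidablePred p]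
    (x : ℝ) : ∏ i ∈ s, (if p i then x else 1) = x ^ (s.filter p).card := by
  rw [prod_ite, prod_const, prod_const_one, mul_one]

theorem out_ge (h : ∀ i k, i ≠ k → 1 ≤ ‖a i - a k‖) {x : ℂ} (hx : x ∈ outer a (1 / 4)) :
    3 / 2 * radC m ≤ ∏ i, ‖x - a i‖ := by
  classical
  set d : Fin (m + 1) → ℝ := fun i => ‖a i - x‖ with hd
  have hdx : ∀ i, ‖x - a i‖ = d i := fun i => norm_sub_rev _ _
  have h0 : ∀ i, 1 / 4 ≤ d i := fun i => by
    rw [← hdx]
    exact hx i
  have hS1 : (univ.filter fun i => d i < 1 / 2).card ≤ 1 := by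
    refine card_le_one.2 fun i hi k hk => ?_
    by_contra hne
    have h1 := h i k hne
    have h2 := (mem_filter.1 hi).2
    have h3 := (mem_filter.1 hk).2
    have h4 : ‖a i - a k‖ ≤ ‖a i - x‖ + ‖a k - x‖ := by
      have e : a i - a k = (a i - x) - (a k - x) := by ring
      rw [e]
      exact norm_sub_le _ _
    simp only [hd] at h2 h3
    linarith
  have hS2 : (univ.filter fun i => d i < 1).card ≤ 9 := by
    have h1 := card_disc h x 3
    norm_num at h1
    exact h1
  have hS3 : m + 1 ≤ (univ.filter fun i => 2 ≤ d i).card + 36 := by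
    have h1 := card_disc h x 6
    have h2 := card_filter_add_card_filter_not (s := (univ : Finset (Fin (m + 1))))
      (fun i => 2 ≤ d i)
    rw [card_univ, Fintype.card_fin] at h2
    have h3 : (univ.filter fun i => ¬ 2 ≤ d i) = univ.filter fun i => ‖a i - x‖ < (6 : ℕ) / 3 := by
      refine filter_congr fun i _ => ?_
      rw [not_le]
      norm_num [hd]
    rw [h3] at h2
    omega
  have h1 : ∏ i, ((if d i < 1 / 2 then (1 / 2 : ℝ) else 1) * (if d i < 1 then 1 / 2 else 1) *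
      (if 2 ≤ d i then 2 else 1)) ≤ ∏ i, ‖x - a i‖ := by
    refine prod_le_prod (fun i _ => by positivity) fun i _ => ?_
    rw [hdx]
    have h2 := h0 i
    split_ifs <;> linarith
  rw [prod_mul_distrib, prod_mul_distrib, prod_ite_const, prod_ite_const, prod_ite_const] at h1
  refine le_trans ?_ h1
  have g1 : (1 / 2 : ℝ) ^ 1 ≤ (1 / 2) ^ (univ.filter fun i => d i < 1 / 2).card :=
    pow_le_pow_of_le_one (by norm_num) (by norm_num) hS1
  have g2 : (1 / 2 : ℝ) ^ 9 ≤ (1 / 2) ^ (univ.filter fun i => d i < 1).card :=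
    pow_le_pow_of_le_one (by norm_num) (by norm_num) hS2
  have g3 : (2 : ℝ) ^ (m - 168) ≤ 2 ^ (univ.filter fun i => 2 ≤ d i).card :=
    pow_le_pow_right₀ (by norm_num) (by omega)
  have g4 : (1 / 2 : ℝ) ^ 1 * (1 / 2) ^ 9 * 2 ^ (m - 168) ≤
      (1 / 2) ^ (univ.filter fun i => d i < 1 / 2).card *
      (1 / 2) ^ (univ.filter fun i => d i < 1).card *
      2 ^ (univ.filter fun i => 2 ≤ d i).card := by gcongr
  refine le_trans ?_ g4
  unfold radC
  have : (0 : ℝ) < 2 ^ (m - 168) := by positivity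
  norm_num
  linarith

theorem recip_le (h : ∀ i k, i ≠ k → 1 ≤ ‖a i - a k‖) (i : Fin (m + 1)) {z : ℂ}
    (hz : ‖z‖ ≤ 1 / 4) : radC m * ∑ k ∈ univ.erase i, (‖a i - a k‖ - 1 / 4)⁻¹ ≤
      3 / 8 * ∏ k ∈ univ.erase i, ‖a i + z - a k‖ := by
  classical
  set d : Fin (m + 1) → ℝ := fun k => ‖a i - a k‖ with hd
  have h0 : ∀ k ∈ univ.erase i, 1 ≤ d k := fun k hk => h i k (ne_of_mem_erase hk).symm
  have hN : ((univ.erase i).filter fun k => d k < 4 / 3).card ≤ 15 := by
    have h1 := card_disc' h i (q := 4) (by norm_num)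
    norm_num at h1
    simp only [hd]
    omega
  set F := (univ.erase i).filter fun k => 13 / 3 ≤ d k with hF
  have hN2 : ((univ.erase i).filter fun k => ¬ 13 / 3 ≤ d k).card ≤ 168 := by
    have h1 := card_disc' h i (q := 13) (by norm_num)
    have h3 : ((univ.erase i).filter fun k => ¬ 13 / 3 ≤ d k) =
        (univ.erase i).filter fun k => ‖a i - a k‖ < (13 : ℕ) / 3 := by
      refine filter_congr fun k _ => ?_
      rw [not_le]
      norm_num [hd]
    rw [h3]
    omega
  have hFc : m ≤ F.card + 168 := by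
    have h2 := card_filter_add_card_filter_not (s := univ.erase i) (fun k => 13 / 3 ≤ d k)
    rw [card_erase_of_mem (mem_univ i), card_univ, Fintype.card_fin, ← hF] at h2
    omega
  have hprod : (3 / 4 : ℝ) ^ 15 * 4 ^ F.card ≤ ∏ k ∈ univ.erase i, ‖a i + z - a k‖ := by
    have h1 : ∏ k ∈ univ.erase i, ((if d k < 4 / 3 then (3 / 4 : ℝ) else 1) *
        (if 13 / 3 ≤ d k then 4 else 1)) ≤ ∏ k ∈ univ.erase i, ‖a i + z - a k‖ := by
      refine prod_le_prod (fun k _ => by positivity) fun k hk => ?_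
      have h2 := h0 k hk
      have h3 : d k - 1 / 4 ≤ ‖a i + z - a k‖ := by
        have h4 : ‖a i - a k‖ ≤ ‖a i + z - a k‖ + ‖z‖ := by
          have e : a i - a k = (a i + z - a k) - z := by ring
          rw [e]
          exact norm_sub_le _ _
        simp only [hd]
        linarith
      refine le_trans ?_ h3
      split_ifs <;> linarith
    rw [prod_mul_distrib, prod_ite_const, prod_ite_const] at h1
    refine le_trans ?_ h1
    exact mul_le_mul_of_nonneg_right (pow_le_pow_of_le_one (by norm_num) (by norm_num) hN)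
      (by positivity)
  have hsum : ∑ k ∈ univ.erase i, (d k - 1 / 4)⁻¹ ≤ F.card * (1 / 4) + 168 * (4 / 3) := by
    have h1 : ∑ k ∈ univ.erase i, (d k - 1 / 4)⁻¹ ≤
        ∑ k ∈ univ.erase i, (if 13 / 3 ≤ d k then (1 / 4 : ℝ) else 4 / 3) := by
      refine sum_le_sum fun k hk => ?_
      have h2 := h0 k hk
      split_ifs with h3
      · rw [inv_le_comm₀ (by linarith) (by norm_num)]
        linarith
      · rw [inv_le_comm₀ (by linarith) (by norm_num)]
        linarith
    rw [sum_ite, sum_const, sum_const, nsmul_eq_mul, nsmul_eq_mul] at h1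
    have h2 : (((univ.erase i).filter fun k => ¬ 13 / 3 ≤ d k).card : ℝ) ≤ 168 := by
      exact_mod_cast hN2
    linarith
  have hR : 0 < radC m := by
    unfold radC
    positivity
  have h5 : (F.card : ℝ) + 1 ≤ 2 ^ F.card := by
    exact_mod_cast Nat.lt_two_pow_self (n := F.card)
  have h6 : (2 : ℝ) ^ (m - 168) ≤ 2 ^ F.card := pow_le_pow_right₀ (by norm_num) (by omega)
  have h7 : (4 : ℝ) ^ F.card = 2 ^ F.card * 2 ^ F.card := by
    rw [← mul_pow]
    norm_num
  have h8 : (F.card : ℝ) * (1 / 4) + 168 * (4 / 3) ≤ 224 * 2 ^ F.card := by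
    have : (0 : ℝ) ≤ F.card := Nat.cast_nonneg _
    linarith
  calc radC m * ∑ k ∈ univ.erase i, (d k - 1 / 4)⁻¹ ≤ radC m * (224 * 2 ^ F.card) :=
        mul_le_mul_of_nonneg_left (hsum.trans h8) hR.le
    _ ≤ (9 / 8 * (2 ^ F.card / 65536)) * (224 * 2 ^ F.card) := by
        refine mul_le_mul_of_nonneg_right ?_ (by positivity)
        unfold radC
        linarith
    _ ≤ 3 / 8 * ((3 / 4 : ℝ) ^ 15 * 4 ^ F.card) := by
        rw [h7]
        have : (0 : ℝ) < 2 ^ F.card * 2 ^ F.card := by positivity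
        norm_num
        nlinarith
    _ ≤ _ := mul_le_mul_of_nonneg_left hprod (by norm_num)

theorem lap_ge (h : ∀ i k, i ≠ k → 1 ≤ ‖a i - a k‖) (i : Fin (m + 1)) (e : Fin (m + 1) → ℝ)
    (M : ℝ) (hM : 0 ≤ M) (h0 : ∀ k, 0 ≤ e k) (h2 : ∀ k, e k ≤ 2 * M) (hi : e i = 0)
    (hs : ∑ k, e k = (m + 1) * M) :
    M * Real.log (8 * radC m) ≤ ∑ k ∈ univ.erase i, e k * Real.log ‖a i - a k‖ := by
  classical
  have hl0 : ∀ k ∈ univ.erase i, 0 ≤ Real.log ‖a i - a k‖ := fun k hk =>
    Real.log_nonneg (h i k (ne_of_mem_erase hk).symm)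
  have hR : 0 < radC m := by
    unfold radC
    positivity
  have hR1 : 8 * radC m ≤ 2 ^ (m - 168) := by
    unfold radC
    have : (0 : ℝ) < 2 ^ (m - 168) := by positivity
    linarith
  have hlog : Real.log (8 * radC m) ≤ ((m - 168 : ℕ) : ℝ) * Real.log 2 := by
    rw [← Real.log_pow]
    exact Real.log_le_log (by positivity) hR1
  have hlog2 := Real.log_nonneg (one_le_two (α := ℝ))
  rcases Nat.lt_or_ge m 169 with hm | hm
  · have h3 : m - 168 = 0 := by omega
    rw [h3, Nat.cast_zero, zero_mul] at hlog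
    exact (mul_nonpos_of_nonneg_of_nonpos hM hlog).trans
      (sum_nonneg fun k hk => mul_nonneg (h0 k) (hl0 k hk))
  · have hcard : ((univ.erase i).filter fun k => ¬ 2 ≤ ‖a i - a k‖).card ≤ 35 := by
      have h1 := card_disc' h i (q := 6) (by norm_num)
      have h3 : ((univ.erase i).filter fun k => ¬ 2 ≤ ‖a i - a k‖) =
          (univ.erase i).filter fun k => ‖a i - a k‖ < (6 : ℕ) / 3 := by
        refine filter_congr fun k _ => ?_
        rw [not_le]
        norm_num
      rw [h3]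
      omega
    have h4 : ∑ k ∈ (univ.erase i).filter (fun k => 2 ≤ ‖a i - a k‖), e k * Real.log 2 ≤
        ∑ k ∈ univ.erase i, e k * Real.log ‖a i - a k‖ := by
      refine (sum_le_sum fun k hk => ?_).trans
        (sum_le_sum_of_subset_of_nonneg (filter_subset _ _) fun k hk _ =>
          mul_nonneg (h0 k) (hl0 k hk))
      exact mul_le_mul_of_nonneg_left (Real.log_le_log (by norm_num) (mem_filter.1 hk).2) (h0 k)
    have h5 : ∑ k ∈ (univ.erase i).filter (fun k => ¬ 2 ≤ ‖a i - a k‖), e k ≤ 35 * (2 * M) := by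
      refine (sum_le_card_nsmul _ _ _ fun k _ => h2 k).trans ?_
      rw [nsmul_eq_mul]
      refine mul_le_mul_of_nonneg_right ?_ (by linarith)
      exact_mod_cast hcard
    have h6 := sum_filter_add_sum_filter_not (univ.erase i) (fun k => 2 ≤ ‖a i - a k‖) e
    have h7 : ∑ k ∈ univ.erase i, e k = (m + 1) * M := by
      rw [← hs]
      exact sum_erase _ hi
    rw [← sum_mul] at h4
    refine le_trans ?_ h4
    have h8 : ((m - 168 : ℕ) : ℝ) = (m : ℝ) - 168 := by
      rw [Nat.cast_sub (by omega)]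
      norm_num
    rw [h8] at hlog
    have h9 : (m : ℝ) * M - 69 * M ≤
        ∑ k ∈ (univ.erase i).filter (fun k => 2 ≤ ‖a i - a k‖), e k := by linarith
    calc M * Real.log (8 * radC m) ≤ M * (((m : ℝ) - 168) * Real.log 2) :=
          mul_le_mul_of_nonneg_left hlog hM
      _ ≤ ((m : ℝ) * M - 69 * M) * Real.log 2 := by nlinarith [mul_nonneg hM hlog2]
      _ ≤ _ := mul_le_mul_of_nonneg_right h9 hlog2

/-- the bounds for complex points -/
theorem goodC (h : ∀ i k, i ≠ k → 1 ≤ ‖a i - a k‖) : K2.Good a (radC m) := by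
  refine ⟨?_, h, fun x hx => out_ge h hx, fun i z hz => recip_le h i hz,
    fun i e M hM h0 h2 hi hs => lap_ge h i e M hM h0 h2 hi hs⟩
  unfold radC
  positivity

end Pool.Agent.J4H54.KT
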