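import Pool.Agent.J4H54.KT.Core
set_option autoImplicit false

/-!
The core estimate for fibrations: the function of index zero is arbitrary.
-/

namespace Pool.Agent.J4H54.KT

open Pool.Agent.TH826.UH (NZ)

open Pool.Agent.TH826.MK (pairing)

open Pool.Agent.J4H54.K2 (LP tk)

open MeasureTheory Finset

open scoped Real

/-- one direction -/
theorem dir1 {m : ℕ} {a : Fin (m + 1) → ℂ} {R : ℝ} {i : Fin (m + 1)} {X W : ℝ → ℂ} {ρ ω : ℝ}
    (hlp : LP a R i X W ρ ω) (hgd : K2.Good a R) (hρ : ρ ≤ 8 / 9 * R) (c : Fin (m + 1) → ℝ)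
    {M : ℝ} (hM : 0 < M) (hc : ∀ κ, |c κ| ≤ M) (hi : c i = M) (hs : ∑ κ, c κ = 0) :
    ∑ κ, c κ * mn a X κ ≤ M * (2 / 3 - Real.log 9) := by
  have lap : M * Real.log (8 * R) ≤ ∑ κ ∈ univ.erase i,
      (M - c κ) * Real.log ‖a i - a κ‖ := by
    refine hgd.lap i (fun κ => M - c κ) M hM.le (fun κ => ?_)
      (fun κ => ?_) (by rw [hi, sub_self]) ?_
    · have := (abs_le.1 (hc κ)).2
      linarith
    · have := (abs_le.1 (hc κ)).1
      linarith
    · rw [sum_sub_distrib, hs, sub_zero, sum_const, card_univ, Fintype.card_fin, nsmul_eq_mul]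
      push_cast
      ring
  have e1 : ∑ κ, c κ * mn a X κ = M * Real.log ρ -
      ∑ κ ∈ univ.erase i, (M - c κ) * mn a X κ := by
    have e2 : ∑ κ ∈ univ.erase i, (M - c κ) * mn a X κ = ∑ κ, (M - c κ) * mn a X κ := by
      refine sum_erase _ ?_
      rw [hi, sub_self, zero_mul]
    rw [e2, ← sum_mn hlp, mul_sum, ← sum_sub_distrib]
    exact sum_congr rfl fun κ _ => by ring
  have e3 : ∑ κ ∈ univ.erase i, ((M - c κ) *
      Real.log ‖a i - a κ‖ - 2 * M * bta a i κ) ≤
      ∑ κ ∈ univ.erase i, (M - c κ) * mn a X κ := by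
    refine sum_le_sum fun κ hκ => ?_
    have hne := (ne_of_mem_erase hκ).symm
    have h1 := (abs_le.1 (mn_le hlp hρ hgd hne)).1
    have h2 := bta_nonneg hgd hne
    have h3 := abs_le.1 (hc κ)
    have h4 : 0 ≤ M - c κ := by linarith [h3.2]
    have h5 : M - c κ ≤ 2 * M := by linarith [h3.1]
    have h6 : (M - c κ) * (Real.log ‖a i - a κ‖ - bta a i κ) ≤ (M - c κ) * mn a X κ :=
      mul_le_mul_of_nonneg_left (by linarith) h4
    have h7 : (M - c κ) * bta a i κ ≤ 2 * M * bta a i κ := mul_le_mul_of_nonneg_right h5 h2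
    linarith
  rw [sum_sub_distrib, ← mul_sum] at e3
  have h8 := sum_bta (i := i) hgd
  have h9 : 2 * M * ∑ κ ∈ univ.erase i, bta a i κ ≤ 2 * M * (1 / 3) :=
    mul_le_mul_of_nonneg_left h8 (by linarith)
  have h10 : Real.log ρ ≤ Real.log (8 / 9 * R) := Real.log_le_log hlp.ρpos hρ
  have h11 : Real.log (8 * R) = Real.log 9 + Real.log (8 / 9 * R) := by
    rw [← Real.log_mul (by norm_num) (by have := hgd.pos; positivity)]
    congr 1
    ring
  rw [e1]
  rw [h11] at lap
  have h12 : M * Real.log ρ ≤ M * Real.log (8 / 9 * R) :=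
    mul_le_mul_of_nonneg_left h10 hM.le
  linarith

variable {n : ℕ} {r : Fin n → ℕ}

/-- the data near the point `(a_{1, i_1}, ..., a_{n, i_n})` -/
structure TQ (a : ∀ l, Fin (r l + 1) → ℂ) (R : Fin n → ℝ) (i : ∀ l, Fin (r l + 1))
    (X W : Fin n → ℝ → ℂ) (ρ : Fin n → ℝ) : Prop where
  good : ∀ l, K2.Good (a l) (R l)
  lp : ∀ l, LP (a l) (R l) (i l) (X l) (W l) (ρ l) (2 * π)
  le : ∀ l, ρ l ≤ 8 / 9 * R l

/-- the functions `Z`, `D_l (x_l - a_{l, k_l})` -/
noncomputable def GG (Z : ℝ → ℂ) (a : ∀ l, Fin (r l + 1) → ℂ) (D : Fin n → ℂ)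
    (X : Fin n → ℝ → ℂ) (k : ∀ l, Fin (r l + 1)) : Fin (n + 1) → ℝ → ℂ :=
  Fin.cons Z fun l s => D l * (X l s - a l (k l))

theorem prod_upd1 (c : Fin n → ℝ) (l : Fin n) (x : ℝ) :
    ∏ j, Function.update c l x j = x * ∏ j ∈ univ.erase l, c j := by
  rw [← mul_prod_erase univ _ (mem_univ l), Function.update_self]
  congr 1
  exact prod_congr rfl fun j hj => Function.update_of_ne (ne_of_mem_erase hj) _ _

theorem prod_upd0 (w0 x : ℝ) (w : Fin n → ℝ) :
    ∏ j, Function.update (Fin.cons w0 w : Fin (n + 1) → ℝ) 0 x j = x * ∏ j, w j := by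
  rw [Fin.prod_univ_succ, Function.update_self]
  congr 1

theorem prod_updS (w0 x : ℝ) (w : Fin n → ℝ) (l : Fin n) :
    ∏ j, Function.update (Fin.cons w0 w : Fin (n + 1) → ℝ) l.succ x j =
      w0 * (x * ∏ j ∈ univ.erase l, w j) := by
  rw [Fin.prod_univ_succ, Function.update_of_ne (Fin.succ_ne_zero l).symm, ← prod_upd1]
  congr 1
  refine prod_congr rfl fun j _ => ?_
  by_cases hj : j = l
  · subst hj
    rw [Function.update_self, Function.update_self]
  · rw [Function.update_of_ne hj, Function.update_of_ne fun e => hj (Fin.succ_injective _ e)]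
    rfl

/-- the leading term -/
theorem mainF (i k : ∀ l, Fin (r l + 1)) (mm : ∀ l, Fin (r l + 1) → ℝ) (m0 : ℝ) :
    ∑ l, sg l * ∏ j, Function.update (Fin.cons (2 * π) fun j => if k j = i j then 2 * π else 0 :
      Fin (n + 1) → ℝ) l ((Fin.cons m0 fun l => mm l (k l) : Fin (n + 1) → ℝ) l) j =
    (2 * π) ^ n * ((if k = i then m0 else 0) -
      ∑ l, ∑ κ, if k = Function.update i l κ then mm l κ else 0) := by
  rw [Fin.sum_univ_succ, prod_upd0]
  have hs0 : sg (0 : Fin (n + 1)) = 1 := rfl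
  have hs1 : ∀ l : Fin n, sg l.succ = -1 := fun l => rfl
  simp only [prod_updS, Fin.cons_zero, Fin.cons_succ, hs0, hs1, one_mul]
  rw [mul_sub, mul_sum, sub_eq_add_neg, ← sum_neg_distrib]
  congr 1
  · by_cases h : k = i
    · subst h
      simp
      ring
    · rw [if_neg h, mul_zero]
      obtain ⟨j, hj⟩ := Function.ne_iff.1 h
      rw [prod_eq_zero (mem_univ j) (if_neg hj), mul_zero]
  · refine sum_congr rfl fun l _ => ?_
    rw [sum_eq_single (k l)]
    · by_cases h : ∀ j, j ≠ l → k j = i j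
      · have h1 : k = Function.update i l (k l) := by
          funext j
          by_cases hj : j = l
          · subst hj
            rw [Function.update_self]
          · rw [Function.update_of_ne hj, h j hj]
        rw [if_pos h1, prod_congr rfl fun j hj => if_pos (h j (ne_of_mem_erase hj))]
        have h2 : (2 * π) ^ n = 2 * π * ∏ _j ∈ univ.erase l, 2 * π := by
          rw [mul_prod_erase univ (fun _ : Fin n => 2 * π) (mem_univ l), prod_const, card_univ,
            Fintype.card_fin]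
        rw [h2]
        ring
      · have h1 : k ≠ Function.update i l (k l) := by
          intro e
          refine h fun j hj => ?_
          rw [e, Function.update_of_ne hj]
        rw [if_neg h1, mul_zero]
        push Not at h
        obtain ⟨j, hj, hkj⟩ := h
        rw [prod_eq_zero (mem_erase.2 ⟨hj, mem_univ j⟩) (if_neg hkj), mul_zero, mul_zero,
          mul_zero, neg_zero]
    · intro κ _ hκ
      refine if_neg fun e => hκ ?_
      rw [e, Function.update_self]
    · intro h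
      exact absurd (mem_univ _) h

variable {a : ∀ l, Fin (r l + 1) → ℂ} {R : Fin n → ℝ} {i : ∀ l, Fin (r l + 1)}
  {X W : Fin n → ℝ → ℂ} {ρ : Fin n → ℝ} {Z : ℝ → ℂ} {m0 b0 : ℝ}

theorem TQ.est (h : TQ a R i X W ρ) (hZ : Lo Z (2 * π) m0 b0 π) {D : Fin n → ℂ}
    (hD : ∀ l, D l ≠ 0) (k : ∀ l, Fin (r l + 1)) :
    |pairing (tf (GG Z a D X k)) - (2 * π) ^ n * ((if k = i then m0 else 0) -
      ∑ l, ∑ κ, if k = Function.update i l κ then mn (a l) (X l) κ + Real.log ‖D l‖ else 0)|
      ≤ (b0 + n * (2 / 3)) * (3 * π) ^ n * ∏ l, gam (a l) (i l) (k l) := by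
  have hlo : ∀ l, Lo (GG Z a D X k l)
      ((Fin.cons (2 * π) fun j => if k j = i j then 2 * π else 0 : Fin (n + 1) → ℝ) l)
      ((Fin.cons m0 fun l => mn (a l) (X l) (k l) + Real.log ‖D l‖ : Fin (n + 1) → ℝ) l)
      ((Fin.cons b0 fun l => 2 * gam (a l) (i l) (k l) : Fin (n + 1) → ℝ) l)
      ((Fin.cons π fun l => 3 * π * gam (a l) (i l) (k l) : Fin (n + 1) → ℝ) l) := by
    intro l
    refine Fin.cases ?_ (fun l => ?_) l
    · exact hZ
    · exact (lo (h.lp l) (h.le l) (h.good l) (k l)).smul (hD l)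
  have h1 := pairing_est hlo
  rw [mainF i k (fun l κ => mn (a l) (X l) κ + Real.log ‖D l‖) m0] at h1
  refine h1.trans (le_of_eq ?_)
  rw [Fin.sum_univ_succ, prod_upd0]
  simp only [prod_updS, Fin.cons_zero, Fin.cons_succ]
  have h4 : ∀ l, π * (2 * gam (a l) (i l) (k l) *
      ∏ j ∈ univ.erase l, 3 * π * gam (a j) (i j) (k j)) =
      2 / 3 * ((3 * π) ^ n * ∏ l, gam (a l) (i l) (k l)) := by
    intro l
    have h5 : (3 * π) ^ n * ∏ l, gam (a l) (i l) (k l) =
        ∏ l, 3 * π * gam (a l) (i l) (k l) := by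
      rw [prod_mul_distrib, prod_const, card_univ, Fintype.card_fin]
    rw [h5, ← mul_prod_erase univ (fun l => 3 * π * gam (a l) (i l) (k l)) (mem_univ l)]
    ring
  simp only [h4]
  rw [sum_const, card_univ, Fintype.card_fin, nsmul_eq_mul, prod_mul_distrib, prod_const,
    card_univ, Fintype.card_fin]
  ring

theorem TQ.core (h : TQ a R i X W ρ) (hZ : Lo Z (2 * π) m0 b0 π) (hb0 : 0 ≤ b0) {D : Fin n → ℂ}
    (hD : ∀ l, D l ≠ 0) (c : (∀ l, Fin (r l + 1)) → ℝ) {M : ℝ} (hM : 0 < M)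
    (hc : ∀ k, |c k| ≤ M) (hi : c i = M)
    (hs : ∀ k l, ∑ κ, c (Function.update k l κ) = 0) :
    (2 * π) ^ n * (M * (m0 - b0 + n * (2 / 3))) ≤
      ∑ k, c k * pairing (tf (GG Z a D X k)) := by
  set mt : (∀ l, Fin (r l + 1)) → ℝ := fun k => (if k = i then m0 else 0) - ∑ l, ∑ κ,
    (if k = Function.update i l κ then mn (a l) (X l) κ + Real.log ‖D l‖ else 0) with hmt
  set g : (∀ l, Fin (r l + 1)) → ℝ := fun k => ∏ l, gam (a l) (i l) (k l) with hg
  have hg0 : ∀ k, 0 ≤ g k := fun k => prod_nonneg fun l _ => gam_nonneg (h.good l) _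
  have hπ := Real.pi_pos
  have e1 : ∑ k, c k * mt k = M * m0 -
      ∑ l, ∑ κ, c (Function.update i l κ) * mn (a l) (X l) κ := by
    simp only [hmt, mul_sub, sum_sub_distrib]
    congr 1
    · rw [sum_eq_single i]
      · rw [if_pos rfl, hi]
      · intro k _ hk
        rw [if_neg hk, mul_zero]
      · intro hh
        exact absurd (mem_univ _) hh
    · simp only [mul_sum]
      rw [sum_comm]
      refine sum_congr rfl fun l _ => ?_
      rw [sum_comm]
      have e0 : ∑ κ, c (Function.update i l κ) * mn (a l) (X l) κ =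
          ∑ κ, c (Function.update i l κ) * (mn (a l) (X l) κ + Real.log ‖D l‖) := by
        simp only [mul_add]
        rw [sum_add_distrib, ← sum_mul, hs, zero_mul, add_zero]
      rw [e0]
      refine sum_congr rfl fun κ _ => ?_
      rw [sum_eq_single (Function.update i l κ)]
      · rw [if_pos rfl]
      · intro k _ hk
        rw [if_neg hk, mul_zero]
      · intro hh
        exact absurd (mem_univ _) hh
  have hdir : ∀ l, ∑ κ, c (Function.update i l κ) * mn (a l) (X l) κ ≤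
      M * (2 / 3 - Real.log 9) := fun l =>
    dir1 (h.lp l) (h.good l) (h.le l) (fun κ => c (Function.update i l κ)) hM
      (fun κ => hc _) (by show c (Function.update i l (i l)) = M
                          rw [Function.update_eq_self, hi]) (hs i l)
  have e2 : M * m0 + n * (M * (Real.log 9 - 2 / 3)) ≤ ∑ k, c k * mt k := by
    rw [e1]
    have h1 : ∑ l, ∑ κ, c (Function.update i l κ) * mn (a l) (X l) κ ≤
        ∑ _l : Fin n, M * (2 / 3 - Real.log 9) := sum_le_sum fun l _ => hdir l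
    rw [sum_const, card_univ, Fintype.card_fin, nsmul_eq_mul] at h1
    have h2 : (n : ℝ) * (M * (2 / 3 - Real.log 9)) = -(n * (M * (Real.log 9 - 2 / 3))) := by ring
    linarith
  have e3 : ∑ k, g k ≤ (2 / 3) ^ n := by
    have h1 : ∑ k, g k = ∏ l, ∑ κ, gam (a l) (i l) κ := by
      rw [Finset.prod_univ_sum]
      rw [Fintype.piFinset_univ]
    rw [h1]
    calc ∏ l, ∑ κ, gam (a l) (i l) κ ≤ ∏ _l : Fin n, (2 / 3 : ℝ) :=
          prod_le_prod (fun l _ => sum_nonneg fun κ _ => gam_nonneg (h.good l) κ)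
            fun l _ => sum_gam (h.good l)
      _ = (2 / 3) ^ n := by rw [prod_const, card_univ, Fintype.card_fin]
  have hn0 : (0 : ℝ) ≤ n := Nat.cast_nonneg n
  have e4 : (2 * π) ^ n * (∑ k, c k * mt k) - M * ((b0 + n * (2 / 3)) * (3 * π) ^ n) * ∑ k, g k ≤
      ∑ k, c k * pairing (tf (GG Z a D X k)) := by
    rw [mul_sum, mul_sum, ← sum_sub_distrib]
    refine sum_le_sum fun k _ => ?_
    have h1 := h.est hZ hD k
    have h2 : -(c k * (pairing (tf (GG Z a D X k)) - (2 * π) ^ n * mt k)) ≤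
        M * ((b0 + n * (2 / 3)) * (3 * π) ^ n * g k) := by
      refine (neg_le_abs _).trans ?_
      rw [abs_mul]
      exact mul_le_mul (hc k) h1 (abs_nonneg _) hM.le
    linarith
  have e5 : M * ((b0 + n * (2 / 3)) * (3 * π) ^ n) * ∑ k, g k ≤
      M * ((b0 + n * (2 / 3)) * (3 * π) ^ n) * (2 / 3) ^ n :=
    mul_le_mul_of_nonneg_left e3 (by positivity)
  have e6 : M * ((b0 + n * (2 / 3)) * (3 * π) ^ n) * (2 / 3) ^ n =
      (2 * π) ^ n * (M * (b0 + n * (2 / 3))) := by
    have h1 : (3 * π) ^ n * (2 / 3) ^ n = (2 * π) ^ n := by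
      rw [← mul_pow]
      congr 1
      ring
    calc M * ((b0 + n * (2 / 3)) * (3 * π) ^ n) * (2 / 3) ^ n =
          M * (b0 + n * (2 / 3)) * ((3 * π) ^ n * (2 / 3) ^ n) := by ring
      _ = (2 * π) ^ n * (M * (b0 + n * (2 / 3))) := by rw [h1]; ring
  have e7 : (2 * π) ^ n * (M * m0 + n * (M * (Real.log 9 - 2 / 3))) ≤
      (2 * π) ^ n * ∑ k, c k * mt k := mul_le_mul_of_nonneg_left e2 (by positivity)
  have h9 := log_nine
  have e8 : (2 * π) ^ n * (M * (m0 - b0 + n * (2 / 3))) ≤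
      (2 * π) ^ n * (M * m0 + n * (M * (Real.log 9 - 2 / 3))) -
        (2 * π) ^ n * (M * (b0 + n * (2 / 3))) := by
    rw [← mul_sub]
    refine mul_le_mul_of_nonneg_left ?_ (by positivity)
    have h10 : (n : ℝ) * (M * (2 - 2 / 3)) ≤ n * (M * (Real.log 9 - 2 / 3)) :=
      mul_le_mul_of_nonneg_left (mul_le_mul_of_nonneg_left (by linarith) hM.le) hn0
    linarith
  linarith

end Pool.Agent.J4H54.KT
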