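import Pool.Agent.J4H54.KT.Int
set_option autoImplicit false

/-!
The regulator integral of the functions `G_l (x_l)` on the torus `x_0 = x_1 + ... + x_n`.
-/

namespace Pool.Agent.J4H54.KT

open MeasureTheory Set

open Pool.Agent.TH826.MK (restrict_Icc tl tl_apply lw grow grow_zero grow_succ integrand pairing
  lw_vf_ne lw_vf_self)

variable {n : ℕ}

section det

/-- the matrix -/
def bord (v : Fin (n + 1) → ℂ) (a b : Fin n → ℂ) : Matrix (Fin (n + 1)) (Fin (n + 1)) ℂ :=
  Matrix.of (Fin.cons v fun m => Fin.cons (a m) (Pi.single m (b m)))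

theorem bord_zero (v : Fin (n + 1) → ℂ) (a b : Fin n → ℂ) : bord v a b 0 = v := rfl

theorem bord_succ (v : Fin (n + 1) → ℂ) (a b : Fin n → ℂ) (m : Fin n) :
    bord v a b m.succ = Fin.cons (a m) (Pi.single m (b m)) := rfl

theorem det_bord_one (a b : Fin n → ℂ) : (bord (Pi.single 0 1) a b).det = ∏ m, b m := by
  rw [Matrix.det_of_isLowerTriangular, Fin.prod_univ_succ]
  · rw [bord_zero, Pi.single_eq_same, one_mul]
    refine Finset.prod_congr rfl fun m _ => ?_
    rw [bord_succ, Fin.cons_succ, Pi.single_eq_same]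
  · intro i j hij
    have hij' : i < j := hij
    revert hij'
    refine Fin.cases ?_ (fun i => ?_) i
    · intro h
      rw [bord_zero, Pi.single_eq_of_ne h.ne']
    · refine Fin.cases ?_ (fun j => ?_) j
      · intro h; exact absurd h (Fin.not_lt_zero _)
      · intro h
        rw [bord_succ, Fin.cons_succ, Pi.single_eq_of_ne]
        intro e
        rw [e] at h
        exact absurd h (lt_irrefl _)

theorem updateRow_bord (v w : Fin (n + 1) → ℂ) (a b : Fin n → ℂ) :
    (bord v a b).updateRow 0 w = bord w a b := by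
  ext l j
  refine Fin.cases ?_ (fun l => ?_) l
  · rw [Matrix.updateRow_self]
    rfl
  · rw [Matrix.updateRow_ne (Fin.succ_ne_zero l)]
    rfl

theorem det_bord_sum (v : Fin (n + 1) → ℂ) (a b : Fin n → ℂ) :
    (bord v a b).det = ∑ j, v j * (bord (Pi.single j 1) a b).det := by
  rw [Matrix.det_eq_sum_mul_adjugate_row (bord v a b) 0]
  refine Finset.sum_congr rfl fun j _ => ?_
  rw [Matrix.adjugate_apply, updateRow_bord]
  rfl

theorem det_bord_succ (a b : Fin n → ℂ) (m : Fin n) :
    (bord (Pi.single m.succ 1) a b).det = -(a m * ∏ l ∈ Finset.univ.erase m, b l) := by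
  classical
  set b' : Fin n → ℂ := Function.update b m 1 with hb'
  have h1 : (bord (Pi.single m.succ 1) a b).det = (bord (Pi.single m.succ 1) a b').det := by
    rw [← Matrix.det_updateRow_add_smul_self (bord (Pi.single m.succ 1) a b)
      (Fin.succ_ne_zero m) (1 - b m)]
    congr 1
    ext l j
    by_cases hl : l = m.succ
    · subst hl
      rw [Matrix.updateRow_self, Pi.add_apply, Pi.smul_apply, bord_zero, bord_succ, bord_succ]
      refine Fin.cases ?_ (fun j => ?_) j
      · rw [Fin.cons_zero, Fin.cons_zero, Pi.single_eq_of_ne (Fin.succ_ne_zero m).symm]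
        simp
      · rw [Fin.cons_succ, Fin.cons_succ]
        by_cases hj : j = m
        · subst hj
          rw [Pi.single_eq_same, Pi.single_eq_same, Pi.single_eq_same, hb',
            Function.update_self, smul_eq_mul]
          ring
        · rw [Pi.single_eq_of_ne hj, Pi.single_eq_of_ne hj, Pi.single_eq_of_ne
            fun e => hj (Fin.succ_injective _ e)]
          simp
    · rw [Matrix.updateRow_ne hl]
      revert hl
      refine Fin.cases ?_ (fun l => ?_) l
      · intro _
        rfl
      · intro hl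
        rw [bord_succ, bord_succ, hb', Function.update_of_ne fun e => hl (congrArg _ e)]
  have h2 : (bord (Fin.cons (a m) (Pi.single m 1)) a b').det = 0 := by
    refine Matrix.det_zero_of_row_eq (Fin.succ_ne_zero m).symm ?_
    rw [bord_zero, bord_succ, hb', Function.update_self]
  rw [det_bord_sum, Fin.sum_univ_succ, Finset.sum_eq_single m] at h2
  · rw [Fin.cons_zero, Fin.cons_succ, Pi.single_eq_same, one_mul, det_bord_one] at h2
    rw [h1]
    have h3 : ∏ l, b' l = ∏ l ∈ Finset.univ.erase m, b l := by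
      rw [← Finset.mul_prod_erase _ _ (Finset.mem_univ m), hb', Function.update_self, one_mul]
      exact Finset.prod_congr rfl fun l hl => Function.update_of_ne (Finset.ne_of_mem_erase hl) _ _
    rw [← h3]
    linear_combination h2
  · intro j _ hj
    rw [Fin.cons_succ, Pi.single_eq_of_ne hj, zero_mul]
  · intro h
    exact absurd (Finset.mem_univ m) h

theorem det_bord (a0 b0 : ℂ) (a b : Fin n → ℂ) :
    (bord (Fin.cons a0 fun _ => b0) a b).det =
      a0 * ∏ m, b m - ∑ m, b0 * (a m * ∏ l ∈ Finset.univ.erase m, b l) := by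
  rw [det_bord_sum, Fin.sum_univ_succ, Fin.cons_zero, det_bord_one, sub_eq_add_neg,
    ← Finset.sum_neg_distrib]
  congr 1
  refine Finset.sum_congr rfl fun m _ => ?_
  rw [Fin.cons_succ, det_bord_succ]
  ring

end det

/-- the signs -/
def sg : Fin (n + 1) → ℝ := Fin.cons 1 fun _ => -1

/-- the alternating sum of the products -/
theorem det_bord' (p q : Fin (n + 1) → ℂ) :
    (bord (Fin.cons (p 0) fun _ => q 0) (fun m => p m.succ) (fun m => q m.succ)).det =
      ∑ l, (sg l : ℂ) * ∏ j, Function.update q l (p l) j := by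
  classical
  rw [det_bord, Fin.sum_univ_succ, sub_eq_add_neg, ← Finset.sum_neg_distrib]
  congr 1
  · rw [Fin.prod_univ_succ, Function.update_self]
    have h : ((sg (0 : Fin (n + 1)) : ℝ) : ℂ) = 1 := by
      show (((1 : ℝ)) : ℂ) = 1
      norm_num
    rw [h, one_mul]
    congr 1
  · refine Finset.sum_congr rfl fun m _ => ?_
    have h : ((sg m.succ : ℝ) : ℂ) = -1 := by
      show (((-1 : ℝ)) : ℂ) = -1
      norm_num
    rw [h, Fin.prod_univ_succ, Function.update_of_ne (Fin.succ_ne_zero m).symm,
      ← Finset.mul_prod_erase _ _ (Finset.mem_univ m), Function.update_self, neg_one_mul]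
    congr 3
    exact Finset.prod_congr rfl fun l hl => (Function.update_of_ne
      (fun e => Finset.ne_of_mem_erase hl (Fin.succ_injective _ e)) _ _).symm

section lw

variable {G : ℝ → ℂ}

theorem hasFDerivAt_sum (h : ContDiff ℝ 2 G) (θ : Fin n → ℝ) :
    HasFDerivAt (fun θ : Fin n → ℝ => G (∑ j, θ j))
      ((ContinuousLinearMap.toSpanSingleton ℝ (deriv G (∑ j, θ j))).comp
        (∑ j, ContinuousLinearMap.proj j)) θ := by
  have h1 : HasDerivAt G (deriv G (∑ j, θ j)) (∑ j, θ j) :=
    ((h.differentiable (by norm_num)) _).hasDerivAt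
  have h2 : HasFDerivAt (fun θ : Fin n → ℝ => ∑ j, θ j)
      (∑ j, ContinuousLinearMap.proj j : (Fin n → ℝ) →L[ℝ] ℝ) θ :=
    HasFDerivAt.fun_sum fun j _ => hasFDerivAt_apply j θ
  exact h1.hasFDerivAt.comp θ h2

theorem lw_sum (h : ContDiff ℝ 2 G) (j : Fin n) (θ : Fin n → ℝ) :
    lw (fun θ : Fin n → ℝ => G (∑ j, θ j)) j θ = deriv G (∑ j, θ j) / G (∑ j, θ j) := by
  unfold lw
  rw [(hasFDerivAt_sum h θ).fderiv]
  congr 1
  simp

end lw

/-- the logarithmic derivative -/
noncomputable def ld (G : ℝ → ℂ) (x : ℝ) : ℂ := deriv G x / G x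

/-- `Im λ - i t Re λ` for the logarithmic derivative `λ` -/
noncomputable def qt (G : ℝ → ℂ) (t x : ℝ) : ℂ := (ld G x).im - Complex.I * (t * (ld G x).re)

/-- `log |G|` -/
noncomputable def pt (G : ℝ → ℂ) (_ x : ℝ) : ℂ := (Real.log ‖G x‖ : ℝ)

/-- the functions on the torus -/
def tf (G : Fin (n + 1) → ℝ → ℂ) (l : Fin (n + 1)) (θ : Fin n → ℝ) : ℂ := G l (co θ l)

theorem integrand_tf {G : Fin (n + 1) → ℝ → ℂ} (hG : ∀ l, ContDiff ℝ 2 (G l))
    (y : Fin (n + 1) → ℝ) : integrand (tf G) y =
      (∑ l, (sg l : ℂ) * ∏ j, (Function.update (fun j => qt (G j)) l (pt (G l))) j (y 0)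
        (co (tl n y) j)).re := by
  classical
  have h1 : ∀ l, ∏ j, (Function.update (fun j => qt (G j)) l (pt (G l))) j (y 0)
        (co (tl n y) j) = ∏ j, Function.update (fun j => qt (G j) (y 0) (co (tl n y) j)) l
          (pt (G l) (y 0) (co (tl n y) l)) j := by
    intro l
    refine Finset.prod_congr rfl fun j _ => ?_
    by_cases hj : j = l
    · subst hj
      rw [Function.update_self, Function.update_self]
    · rw [Function.update_of_ne hj, Function.update_of_ne hj]
  simp only [h1]
  rw [← det_bord' (fun l => pt (G l) (y 0) (co (tl n y) l))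
    (fun l => qt (G l) (y 0) (co (tl n y) l))]
  unfold integrand
  congr 1
  have h2 : (-Complex.I) ^ n = ∏ j : Fin (n + 1), (Fin.cons 1 fun _ => -Complex.I :
      Fin (n + 1) → ℂ) j := by
    rw [Fin.prod_univ_succ]
    simp
  rw [h2, ← Matrix.det_mul_row]
  congr 1
  ext l j
  rw [Matrix.of_apply, Matrix.of_apply]
  have hI : ∀ z : ℂ, -Complex.I * (((y 0 * z.re : ℝ) : ℂ) + Complex.I * (z.im : ℝ)) =
      (z.im : ℂ) - Complex.I * (((y 0 : ℝ) : ℂ) * ((z.re : ℝ) : ℂ)) := by
    intro z
    push_cast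
    linear_combination (-(z.im : ℂ)) * Complex.I_mul_I
  refine Fin.cases ?_ (fun j => ?_) j
  · rw [Fin.cons_zero, one_mul, grow_zero]
    refine Fin.cases ?_ (fun l => ?_) l
    · rfl
    · rfl
  · rw [Fin.cons_succ, grow_succ, hI]
    refine Fin.cases ?_ (fun l => ?_) l
    · have h3 : lw (tf G 0) j (tl n y) = ld (G 0) (co (tl n y) 0) := lw_sum (hG 0) j _
      rw [h3]
      rfl
    · rw [bord_succ, Fin.cons_succ]
      have h4 : tf G l.succ = fun θ : Fin n → ℝ => G l.succ (θ l) := rfl
      by_cases hj : j = l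
      · subst hj
        rw [h4, lw_vf_self (hG j.succ), Pi.single_eq_same]
        rfl
      · rw [h4, lw_vf_ne (hG l.succ) hj, Pi.single_eq_of_ne hj]
        simp

end Pool.Agent.J4H54.KT
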