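import Pool.Agent.J4H54.KT.FibA
set_option autoImplicit false

/-!
The regulators of the functions on the tori in the elliptic surfaces: positivity and independence.
-/

namespace Pool.Agent.J4H54.KT

open Pool.Agent.TH826.UH (NZ nz_circ)

open Pool.Agent.TH826.MK (pairing integrand continuous_integrand Good Per circ norm_circ
  contDiff_circ hasDerivAt_circ circ_add_one)

open Pool.Agent.TH826.UM (yT norm_yT good_yT per_yT)

open Pool.Agent.TH690.SF (he contDiffAt_he)

open Pool.Agent.J4H54.K2 (LP)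

open MeasureTheory

open scoped Real

variable {n : ℕ}

/-- the values of `y + 1/y` -/
noncomputable def ye (φ : Fin 1 → ℝ) : ℂ := circ 1 (φ 0) + (circ 1 (φ 0))⁻¹

/-- the values of `z` -/
noncomputable def Ep (N : ℂ) (ρ : ℝ) (φ : Fin 1 → ℝ) (s : ℝ) : ℂ := zz 1 (TT N (ye φ) ρ s)

/-- the values of `z` on the torus -/
noncomputable def Et (n : ℕ) (N : ℂ) (ρ : ℝ) (θ : Fin (n + 1) → ℝ) : ℂ :=
  Ep N ρ (fun j => θ (Fin.natAdd n j)) (∑ k : Fin n, θ (Fin.castAdd 1 k))

theorem ec {N : ℂ} {ρ : ℝ} (hρ : 0 < ρ) (hN : 12 ≤ ‖N‖ * ρ) (φ : Fin 1 → ℝ) :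
    ZC 1 N (ye φ) ρ 2 := by
  refine ⟨norm_one, hρ, by norm_num, ?_, by linarith⟩
  unfold ye
  refine (norm_add_le _ _).trans (le_of_eq ?_)
  rw [norm_inv, norm_circ zero_le_one]
  norm_num

theorem circ_one_ne (s : ℝ) : circ 1 s ≠ 0 := by
  rw [← norm_ne_zero_iff, norm_circ zero_le_one]
  exact one_ne_zero

theorem good_Et {N : ℂ} {ρ : ℝ} (hρ : 0 < ρ) (hN : 12 ≤ ‖N‖ * ρ) : Good (Et n N ρ) := by
  have hz := fun φ : Fin 1 → ℝ => ec hρ hN φ
  have hs : ContDiff ℝ 2 fun θ : Fin (n + 1) → ℝ => ∑ k : Fin n, θ (Fin.castAdd 1 k) :=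
    ContDiff.sum fun k _ => contDiff_apply ℝ ℝ _
  have hy : ContDiff ℝ 2 fun θ : Fin (n + 1) → ℝ => circ 1 (θ (Fin.natAdd n 0)) :=
    (contDiff_circ 1).comp (contDiff_apply ℝ ℝ _)
  have hT : ContDiff ℝ 2 fun θ : Fin (n + 1) → ℝ =>
      TT N (ye fun j => θ (Fin.natAdd n j)) ρ (∑ k : Fin n, θ (Fin.castAdd 1 k)) := by
    unfold TT ye
    exact (contDiff_const.mul ((contDiff_circ ρ).comp hs)).sub
      (hy.add (hy.inv fun θ => circ_one_ne _))
  have he1 : ContDiff ℝ 2 fun θ : Fin (n + 1) → ℝ =>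
      ee 1 N (ye fun j => θ (Fin.natAdd n j)) ρ (∑ k : Fin n, θ (Fin.castAdd 1 k)) := by
    unfold ee
    exact (contDiff_const.mul (hT.mul hT)).inv fun θ => mul_ne_zero one_ne_zero
      (mul_ne_zero ((hz _).T_ne _) ((hz _).T_ne _))
  refine ⟨?_, fun θ => (hz _).nz.ne_zero _⟩
  refine ContDiff.mul hT ?_
  rw [contDiff_iff_contDiffAt]
  intro θ
  exact ((contDiffAt_he ((hz _).norm_e' _)).restrict_scalars ℝ).comp θ he1.contDiffAt

theorem per_Et (N : ℂ) (ρ : ℝ) : Per (Et n N ρ) := by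
  intro θ i
  have h1 : ∀ j, circ 1 ((θ + Pi.single i 1 : Fin (n + 1) → ℝ) (Fin.natAdd n j)) =
      circ 1 (θ (Fin.natAdd n j)) := fun j => per_yT (q := 1) θ i j
  have h2 : circ ρ (∑ k : Fin n, (θ + Pi.single i 1 : Fin (n + 1) → ℝ) (Fin.castAdd 1 k)) =
      circ ρ (∑ k : Fin n, θ (Fin.castAdd 1 k)) := by
    refine Fin.addCases (fun m => ?_) (fun j => ?_) i
    · have h3 : ∑ k : Fin n, (θ + Pi.single (Fin.castAdd 1 m) 1 : Fin (n + 1) → ℝ)
          (Fin.castAdd 1 k) = ∑ k : Fin n, θ (Fin.castAdd 1 k) + 1 := by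
        simp only [Pi.add_apply, Finset.sum_add_distrib]
        congr 1
        rw [Finset.sum_eq_single m]
        · rw [Pi.single_eq_same]
        · intro b _ hb
          rw [Pi.single_eq_of_ne (fun h => hb (Fin.castAdd_injective _ _ h))]
        · intro h
          exact absurd (Finset.mem_univ m) h
      rw [h3, circ_add_one]
    · have h3 : ∀ k : Fin n, (θ + Pi.single (Fin.natAdd n j) 1 : Fin (n + 1) → ℝ)
          (Fin.castAdd 1 k) = θ (Fin.castAdd 1 k) := by
        intro k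
        have hne : Fin.castAdd 1 k ≠ Fin.natAdd n j := by
          intro h
          have h2 := congrArg Fin.val h
          rw [Fin.val_natAdd, Fin.val_castAdd] at h2
          have := k.isLt
          omega
        rw [Pi.add_apply, Pi.single_eq_of_ne hne, add_zero]
      simp only [h3]
  unfold Et Ep TT ye
  simp only [h1, h2]

variable {r : Fin n → ℕ} {b : ∀ l, Fin (r l + 1) → ℂ} {R : Fin n → ℝ} {i : ∀ l, Fin (r l + 1)}
  {X W : Fin n → ℝ → ℂ} {ρ' : Fin n → ℝ} {N : ℂ} {ρ : ℝ} {D : Fin n → ℂ}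

/-- the regulator integral of `z`, `D_l (x_l - b_{l, k_l})`, `y` -/
noncomputable def PE (N : ℂ) (ρ : ℝ) (b : ∀ l, Fin (r l + 1) → ℂ) (D : Fin n → ℂ)
    (X : Fin n → ℝ → ℂ) (k : ∀ l, Fin (r l + 1)) : ℝ :=
  pairing (FF (Et n N ρ) fun l s => D l * (X l s - b l (k l)))

theorem good_FE (h : TQ b R i X W ρ') (hD : ∀ l, D l ≠ 0) (hρ : 0 < ρ)
    (hN : 12 ≤ ‖N‖ * ρ) (k : ∀ l, Fin (r l + 1)) (l : Fin (n + 1 + 1)) :
    Good (FF (Et n N ρ) (fun l s => D l * (X l s - b l (k l))) l) := by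
  refine Fin.cases ?_ (fun l => ?_) l
  · exact good_Et hρ hN
  · unfold FF
    rw [Fin.cons_succ]
    refine Fin.addCases (fun l => ?_) (fun j => ?_) l
    · rw [Fin.append_left]
      refine ⟨contDiff_const.mul (((h.lp l).smooth.comp (contDiff_apply ℝ ℝ _)).sub
        contDiff_const), fun θ => mul_ne_zero (hD l) ((h.lp l).ne _ _)⟩
    · rw [Fin.append_right]
      exact good_yT j

theorem pos_pairE (h : TQ b R i X W ρ') (hD : ∀ l, D l ≠ 0) (hn : 0 < n) (hρ : 0 < ρ)
    (hN : 12 ≤ ‖N‖ * ρ) (c : (∀ l, Fin (r l + 1)) → ℝ) {M : ℝ} (hM : 0 < M)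
    (hc : ∀ k, |c k| ≤ M) (hi : c i = M)
    (hs : ∀ k l, ∑ κ, c (Function.update k l κ) = 0) : 0 < ∑ k, c k * PE N ρ b D X k := by
  set E : (Fin (n + 1 + 1) → ℝ) → ℝ := fun y =>
    ∑ k, c k * integrand (FF (Et n N ρ) fun l s => D l * (X l s - b l (k l))) y with hE
  have hcI : ∀ k : (∀ l, Fin (r l + 1)),
      Continuous (integrand (FF (Et n N ρ) fun l s => D l * (X l s - b l (k l)))) :=
    fun k => continuous_integrand (good_FE h hD hρ hN k)
  have e1 : ∑ k, c k * PE N ρ b D X k = ∫ y in Set.Icc (0 : Fin (n + 1 + 1) → ℝ) 1, E y := by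
    simp only [hE]
    rw [integral_finsetSum]
    · refine Finset.sum_congr rfl fun k _ => ?_
      rw [integral_const_mul]
      rfl
    · intro k _
      exact (continuous_const.mul (hcI k)).continuousOn.integrableOn_compact isCompact_Icc
  rw [e1]
  refine fub_pos n 1 E ?_ fun φ => ?_
  · exact continuous_finsetSum _ fun k _ => continuous_const.mul (hcI k)
  · have hz := ec hρ hN φ
    have e2 : ∀ k : (∀ l, Fin (r l + 1)), ∫ z in Set.Icc (0 : Fin (n + 1) → ℝ) 1,
        integrand (FF (Et n N ρ) fun l s => D l * (X l s - b l (k l))) (ap z φ) =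
        (2 * π) ^ 1 * pairing (tf (GG (Ep N ρ φ) b D X k)) := by
      intro k
      have e3 : ∀ z : Fin (n + 1) → ℝ,
          integrand (FF (Et n N ρ) fun l s => D l * (X l s - b l (k l))) (ap z φ) =
          (2 * π) ^ 1 * integrand (tf (GG (Ep N ρ φ) b D X k)) z := fun z =>
        integrand_FF (good_Et hρ hN).smooth
          (fun l => contDiff_const.mul ((h.lp l).smooth.sub contDiff_const))
          (fun φ => (ec hρ hN φ).nz.smooth) (fun θ => rfl) z φ
      simp only [e3]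
      rw [integral_const_mul]
      rfl
    simp only [hE]
    rw [integral_finsetSum]
    · simp only [integral_const_mul, e2]
      have h1 := h.core hz.lo (by norm_num) hD c hM hc hi hs
      have h2 : ∑ k, c k * ((2 * π) ^ 1 * pairing (tf (GG (Ep N ρ φ) b D X k))) =
          (2 * π) ^ 1 * ∑ k, c k * pairing (tf (GG (Ep N ρ φ) b D X k)) := by
        rw [Finset.mul_sum]
        exact Finset.sum_congr rfl fun k _ => by ring
      rw [h2]
      have hπ := Real.pi_pos
      refine mul_pos (by positivity) (lt_of_lt_of_le ?_ h1)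
      have h3 := hz.mz_ge
      have h4 : (1 : ℝ) ≤ n := by exact_mod_cast hn
      have h5 : 0 < mz 1 N (ye φ) ρ - 19 / 13 + n * (2 / 3) := by linarith
      positivity
    · intro k _
      exact (continuous_const.mul ((hcI k).comp
        (continuous_ap φ))).continuousOn.integrableOn_compact isCompact_Icc

/-- Independence of the regulators -/
theorem core_zeroE {X : (∀ l, Fin (r l + 1)) → Fin n → ℝ → ℂ}
    (h : ∀ i, TQ b R i (X i) W ρ') (hD : ∀ l, D l ≠ 0) (hn : 0 < n) (hρ : 0 < ρ)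
    (hN : 12 ≤ ‖N‖ * ρ) (c : (∀ l, Fin (r l + 1)) → ℝ)
    (hs : ∀ k l, ∑ κ, c (Function.update k l κ) = 0)
    (hc : ∀ i, ∑ k, c k * PE N ρ b D (X i) k = 0) : c = 0 := by
  obtain ⟨i, -, hmax⟩ := Finset.exists_max_image (Finset.univ : Finset (∀ l, Fin (r l + 1)))
    (fun k => |c k|) ⟨fun _ => 0, Finset.mem_univ _⟩
  have hle : ∀ k, |c k| ≤ |c i| := fun k => hmax k (Finset.mem_univ _)
  by_cases h0 : c i = 0
  · funext k
    have h1 := hle k
    rw [h0, abs_zero] at h1
    exact abs_eq_zero.1 (le_antisymm h1 (abs_nonneg _))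
  · exfalso
    rcases lt_or_gt_of_ne h0 with hneg | hpos
    · have h1 := pos_pairE (h i) hD hn hρ hN (fun k => -c k) (M := |c i|) (abs_pos.2 h0)
        (fun k => by rw [abs_neg]; exact hle k) (abs_of_neg hneg).symm
        (fun k l => by rw [Finset.sum_neg_distrib, hs, neg_zero])
      have h2 : ∑ k, -c k * PE N ρ b D (X i) k = -∑ k, c k * PE N ρ b D (X i) k := by
        rw [← Finset.sum_neg_distrib]
        exact Finset.sum_congr rfl fun l _ => by ring
      rw [h2, hc i, neg_zero] at h1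
      exact lt_irrefl _ h1
    · have h1 := pos_pairE (h i) hD hn hρ hN c (M := |c i|) (abs_pos.2 h0) hle
        (abs_of_pos hpos).symm hs
      rw [hc i] at h1
      exact lt_irrefl _ h1

end Pool.Agent.J4H54.KT
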