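import Pool.Agent.J4H54.KT.FibC
import Pool.Agent.J4H54.KT.Cplx
set_option autoImplicit false

/-!
The main theorems for real and complex configurations.
-/

namespace Pool.Agent.J4H54.KT

open Pool.Agent.TH826.MK (KQ symb Unramified Torus)

open Pool.Agent.TH826.MH

open Pool.Agent.TH690.PF (mPhi SmoothPts IndepReg)

open Pool.Agent.J4H54.K2 (nrm conf_nrm rad)

open Finset

variable {K : Type*} [Field K] {σ : K →+* ℂ}

theorem goodX {m : ℕ} {a : Fin (m + 1) → K} {D γ : ℝ} (hD : 0 < D)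
    (hsep : ∀ i j, i ≠ j → D ≤ ‖σ (a i) - σ (a j)‖)
    (hγ : γ = 2 ^ (m - 168) / 65536 ∨ ((∀ i, (σ (a i)).im = 0) ∧ γ = 2 ^ (m - 3) / 9)) :
    K2.Good (nrm σ D a) (9 / 8 * γ) := by
  rcases hγ with h | ⟨h1, h2⟩
  · rw [h]
    refine goodC fun i k hik => ?_
    unfold nrm
    rw [← sub_div, norm_div, Complex.norm_real, Real.norm_of_nonneg hD.le, one_le_div hD]
    exact hsep i k hik
  · have e : 9 / 8 * γ = rad m := by
      rw [h2]
      unfold rad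
      ring
    rw [e]
    exact (conf_nrm hD h1 hsep).good

theorem prod_gam {n : ℕ} (r : Fin n → ℕ) (D γ : Fin n → ℝ) (L : ℝ) :
    L * (∏ k, D k ^ (r k + 1)) * ∏ k, (8 / 9 * (9 / 8 * γ k)) =
      L * ∏ k, (D k ^ (r k + 1) * γ k) := by
  have h1 : ∀ k, 8 / 9 * (9 / 8 * γ k) = γ k := fun k => by ring
  simp only [h1]
  rw [prod_mul_distrib, mul_assoc]

theorem mainC {n : ℕ} {r : Fin (n + 1) → ℕ} (lam : K) (a : ∀ k, Fin (r k + 1) → K)
    (D γ : Fin (n + 1) → ℝ) (hD : ∀ k, 0 < D k)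
    (hsep : ∀ k i j, i ≠ j → D k ≤ ‖σ (a k i) - σ (a k j)‖)
    (hγ : ∀ k, γ k = 2 ^ (r k - 168) / 65536 ∨
      ((∀ i, (σ (a k i)).im = 0) ∧ γ k = 2 ^ (r k - 3) / 9))
    (h : 1 ≤ ‖σ lam‖ * ∏ k, (D k ^ (r k + 1) * γ k)) :
    (∀ x : Fin (n + 1) → ℂ, MvPolynomial.eval₂ σ x (eqn lam a) = 0 →
      ∃ k, MvPolynomial.eval₂ σ x (MvPolynomial.pderiv k (eqn lam a)) ≠ 0) ∧
    ∃ Γ : (∀ k, Fin (r k)) → Torus (CRing lam a) n,
      (∀ t θ (x : K), (Γ t).e θ (fpol lam a (MvPolynomial.C x)) = σ x) ∧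
      (Matrix.of fun t i : (∀ k, Fin (r k)) => (Γ t).reg (symb (ent lam a i))).det ≠ 0 := by
  have hg : ∀ k, K2.Good (nrm σ (D k) (a k)) (9 / 8 * γ k) := fun k =>
    goodX (hD k) (hsep k) (hγ k)
  have h1 : 1 ≤ ‖σ lam‖ * (∏ k, D k ^ (r k + 1)) * ∏ k, (8 / 9 * (9 / 8 * γ k)) := by
    rw [prod_gam]
    exact h
  refine ⟨fun x hx => smooth hD hg ?_ x hx, exists_tori hD hg h1⟩
  refine h1.trans ?_
  refine mul_le_mul_of_nonneg_left ?_ ?_
  · refine prod_le_prod (fun k _ => ?_) fun k _ => ?_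
    · have := (hg k).pos
      positivity
    · have := (hg k).pos
      linarith
  · have : 0 ≤ ∏ k, D k ^ (r k + 1) := prod_nonneg fun k _ => pow_nonneg (hD k).le _
    positivity

theorem main_fibC {n q : ℕ} (w : Fin q → ℕ)
    {m : Fin (n + 1) → ℕ} (lam : K) (a : (k : Fin (n + 1)) → Fin (m k + 1) → K)
    (D γ : Fin (n + 1) → ℝ) (hD : ∀ k, 0 < D k)
    (hsep : ∀ k i j, i ≠ j → D k ≤ ‖σ (a k i) - σ (a k j)‖)
    (hγ : ∀ k, γ k = 2 ^ (m k - 168) / 65536 ∨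
      ((∀ i, (σ (a k i)).im = 0) ∧ γ k = 2 ^ (m k - 3) / 9))
    (h : 3 * (2 + ∑ i, ((w i : ℝ) + 1)) ≤ ‖σ lam‖ * ∏ k, (D k ^ (m k + 1) * γ k)) :
    SmoothPts w σ (mPhi lam a) ∧ IndepReg w σ lam a := by
  have hg : ∀ k, K2.Good (nrm σ (D k) (a k)) (9 / 8 * γ k) := fun k =>
    goodX (hD k) (hsep k) (hγ k)
  have hw : (q : ℝ) ≤ ∑ i, ((w i : ℝ) + 1) := by
    rw [Finset.sum_add_distrib, Finset.sum_const, Finset.card_univ, Fintype.card_fin,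
      nsmul_eq_mul, mul_one]
    have : 0 ≤ ∑ i, (w i : ℝ) := Finset.sum_nonneg fun i _ => Nat.cast_nonneg _
    linarith
  have hq : (0 : ℝ) ≤ q := Nat.cast_nonneg q
  have h1 : 3 * (2 + ∑ i, ((w i : ℝ) + 1)) ≤
      ‖σ lam‖ * (∏ k, D k ^ (m k + 1)) * ∏ k, (8 / 9 * (9 / 8 * γ k)) := by
    rw [prod_gam]
    exact h
  refine ⟨smoothPtsF (Nat.succ_pos n) w hD hg ?_, indepRegF (Nat.succ_pos n) w hD hg ?_⟩
  · have h2 : ‖σ lam‖ * (∏ k, D k ^ (m k + 1)) * ∏ k, (8 / 9 * (9 / 8 * γ k)) ≤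
        ‖σ lam‖ * (∏ k, D k ^ (m k + 1)) * ∏ k, (3 / 2 * (9 / 8 * γ k)) := by
      refine mul_le_mul_of_nonneg_left ?_ ?_
      · refine prod_le_prod (fun k _ => ?_) fun k _ => ?_
        · have := (hg k).pos
          positivity
        · have := (hg k).pos
          linarith
      · have : 0 ≤ ∏ k, D k ^ (m k + 1) := prod_nonneg fun k _ => pow_nonneg (hD k).le _
        positivity
    push_cast
    linarith
  · linarith

end Pool.Agent.J4H54.KT
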