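import Pool.Agent.J4H54.KT.EllA
import Pool.Agent.J4H54.KT.MainC
import Pool.Agent.TH826.EF.Tori
import Pool.Agent.TH826.GA.Final
set_option autoImplicit false

/-!
Tori and smoothness for the elliptic surfaces `y + 1/y + z + 1/z = λ ∏_i (x - a_i)`.
-/

namespace Pool.Agent.J4H54.KT

open MeasureTheory Set

open Pool.Agent.TH826.MK (Torus symb Good Per pairing integrand grow circ contDiff_circ lw_const
  lw_mul lw pairing_update_mul zeta hs sq tl)

open Pool.Agent.TH826.GA (Unimod cm lc)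

open Pool.Agent.TH826.DC (dPhi eval_dPhi PhC)

open Pool.Agent.TH826.EF

open Pool.Agent.TH826.UM (yT good_yT per_yT)

open Pool.Agent.TH690.PF (mPhi fl)

open Pool.Agent.J4H54.K2 (LP nrm sub_nrm)

open scoped Real

section triple

/-- three functions -/
def t3 (A B C : (Fin 2 → ℝ) → ℂ) : Fin 3 → (Fin 2 → ℝ) → ℂ :=
  Fin.cons A (Fin.cons B fun _ : Fin 1 => C)

variable {A B C : (Fin 2 → ℝ) → ℂ}

theorem integrand_swap (A B C : (Fin 2 → ℝ) → ℂ) (y : Fin 3 → ℝ) :
    integrand (t3 A C B) y = -integrand (t3 A B C) y := by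
  unfold integrand
  have h1 : (Matrix.of fun l => grow (t3 A C B l) y) =
      (Matrix.of fun l => grow (t3 A B C l) y).submatrix (Equiv.swap 1 2) id := by
    ext l j
    rw [Matrix.submatrix_apply, Matrix.of_apply, Matrix.of_apply]
    fin_cases l
    · rfl
    · rfl
    · rfl
  rw [h1, Matrix.det_permute, Equiv.Perm.sign_swap (by decide)]
  simp

theorem pairing_swap (A B C : (Fin 2 → ℝ) → ℂ) :
    pairing (t3 A C B) = -pairing (t3 A B C) := by
  unfold pairing
  rw [← integral_neg]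
  exact integral_congr_ae (Filter.Eventually.of_forall fun y => integrand_swap A B C y)

theorem grow_neg (hB : Good B) (y : Fin 3 → ℝ) : grow (fun θ => -1 * B θ) y = grow B y := by
  have h1 : ∀ i θ, lw (fun θ => -1 * B θ) i θ = lw B i θ := by
    intro i θ
    have h2 := lw_mul (g := fun _ => (-1 : ℂ)) (h := B)
      ⟨contDiff_const, fun _ => by norm_num⟩ hB i θ
    rw [lw_const, zero_add] at h2
    exact h2
  funext l
  refine Fin.cases ?_ (fun l => ?_) l
  · rw [Pool.Agent.TH826.MK.grow_zero, Pool.Agent.TH826.MK.grow_zero, norm_mul, norm_neg,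
      norm_one, one_mul]
  · rw [Pool.Agent.TH826.MK.grow_succ, Pool.Agent.TH826.MK.grow_succ, h1]

theorem pairing_neg (hC : Good C) :
    pairing (t3 A B fun θ => -1 * C θ) = pairing (t3 A B C) := by
  unfold pairing
  refine integral_congr_ae (Filter.Eventually.of_forall fun y => ?_)
  unfold integrand
  have h1 : (Matrix.of fun l => grow (t3 A B (fun θ => -1 * C θ) l) y) =
      (Matrix.of fun l => grow (t3 A B C l) y) := by
    ext l j
    rw [Matrix.of_apply, Matrix.of_apply]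
    fin_cases l
    · rfl
    · rfl
    · exact congrFun (grow_neg hC y) j
  show ((-Complex.I) ^ 2 * (Matrix.of fun l => grow (t3 A B (fun θ => -1 * C θ) l) y).det).re = _
  rw [h1]

theorem pairing_quot (hA : Good A) (hB : Good B) {U E0 E1 : (Fin 2 → ℝ) → ℂ} (hU : Good U)
    (h0 : Good E0) (h : ∀ θ, U θ * E0 θ = E1 θ) :
    pairing (t3 A B U) = pairing (t3 A B E1) - pairing (t3 A B E0) := by
  have hg : ∀ l, Good (t3 A B U l) := by
    intro l
    fin_cases l
    · exact hA
    · exact hB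
    · exact hU
  have hu : ∀ V : (Fin 2 → ℝ) → ℂ, Function.update (t3 A B U) 2 V = t3 A B V := by
    intro V
    funext l
    fin_cases l
    · rfl
    · rfl
    · rfl
  have h1 := pairing_update_mul hg 2 hU h0
  have h2 : (fun θ => U θ * E0 θ) = E1 := funext h
  rw [h2, hu, hu, hu] at h1
  linarith

end triple

theorem zeta_eq_zz (w : ℂ) : zeta w = zz 1 w := by
  unfold zeta zz Pool.Agent.TH826.MK.hs Pool.Agent.TH826.MK.sq Pool.Agent.TH690.SF.he
    Pool.Agent.TH690.SF.se
  rw [one_mul, pow_two, div_eq_mul_inv 4 (w * w)]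

variable {K : Type*} [Field K] {m : ℕ}

/-- The linear parts `1 * x` of the forms `x - a_e`. -/
def one1 (K : Type*) [Field K] (m : ℕ) : Fin (m + 1) → Fin (0 + 1) → K := fun _ _ => 1

variable {σ : K →+* ℂ} {lam : K} {a : Fin (m + 1) → K}

theorem cm_det (T : Fin (0 + 1) → Fin (m + 1)) : (cm (one1 K m) T).det = 1 :=
  (Matrix.det_fin_one (cm (one1 K m) T)).trans rfl

theorem gam_one (S : Fin (0 + 2) → Fin (m + 1)) (i : Fin (0 + 2)) :
    Pool.Agent.TH826.GA.gam (one1 K m) S i = (-1) ^ (i : ℕ) := by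
  unfold Pool.Agent.TH826.GA.gam
  rw [cm_det, mul_one]

theorem unimod (ha : ∀ i, IsIntegral ℤ (a i)) : Unimod (one1 K m) a where
  int_c _ _ := isIntegral_one
  int_a := ha
  det_ne T _ := by
    rw [cm_det]
    exact one_ne_zero
  det_inv T _ := by
    rw [cm_det, inv_one]
    exact isIntegral_one

theorem lc_one (x : Fin (0 + 1) → ℂ) (e : Fin (m + 1)) :
    lc σ (one1 K m) a x e = x 0 - σ (a e) := by
  unfold lc one1
  simp

theorem dPhi_eq : dPhi lam (one1 K m) a = mPhi lam fun _ : Fin 1 => a := by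
  unfold dPhi mPhi
  rw [Fintype.prod_sigma]
  congr 1
  rw [Fin.prod_univ_one]
  refine Finset.prod_congr rfl fun e _ => ?_
  unfold Pool.Agent.TH826.GA.lf fl one1
  simp

/-- The pair of the indices `0` and `i + 1`. -/
def zs (i : Fin m) : Fin (0 + 2) → Fin (m + 1) := Fin.cons 0 fun _ => i.succ

/-- the coefficients -/
noncomputable def cc (c : Fin m → ℝ)
    (k : ∀ _ : Fin 1, Fin (m + 1)) : ℝ :=
  ∑ i, c i * ((if k 0 = 0 then 1 else 0) - if k 0 = i.succ then 1 else 0)

theorem sum_cc (c : Fin m → ℝ)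
    (k : ∀ _ : Fin 1, Fin (m + 1)) (l : Fin 1) :
    ∑ κ, cc c (Function.update k l κ) = 0 := by
  have hl : l = 0 := Subsingleton.elim _ _
  subst hl
  unfold cc
  rw [Finset.sum_comm]
  refine Finset.sum_eq_zero fun i _ => ?_
  rw [← Finset.mul_sum, Finset.sum_sub_distrib]
  simp

theorem cc_injective {c : Fin m → ℝ} (h : cc c = 0) : c = 0 := by
  funext j
  have h1 : cc c (fun _ => j.succ) = 0 := congrFun h _
  unfold cc at h1
  have h2 : ∀ i, c i * ((if j.succ = 0 then (1 : ℝ) else 0) - if j.succ = i.succ then 1 else 0) =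
      if j = i then -c i else 0 := by
    intro i
    rw [if_neg (Fin.succ_ne_zero j)]
    by_cases hij : j = i
    · subst hij
      rw [if_pos rfl, if_pos rfl]
      ring
    · rw [if_neg hij, if_neg fun e => hij (Fin.succ_injective _ e)]
      ring
  simp only [h2] at h1
  rw [Finset.sum_ite_eq Finset.univ j] at h1
  simp only [Finset.mem_univ, if_true] at h1
  show c j = 0
  linarith

theorem sum_cc_mul (c : Fin m → ℝ)
    (P : (∀ _ : Fin 1, Fin (m + 1)) → ℝ) :
    ∑ k, cc c k * P k = ∑ i, (P (fun _ => 0) - P fun _ => i.succ) * c i := by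
  unfold cc
  simp only [Finset.sum_mul]
  rw [Finset.sum_comm]
  refine Finset.sum_congr rfl fun i _ => ?_
  have h1 : ∀ e : Fin (m + 1), ∑ k : (∀ _ : Fin 1, Fin (m + 1)),
      (if k 0 = e then (1 : ℝ) else 0) * P k = P fun _ => e := by
    intro e
    rw [Finset.sum_eq_single fun _ => e]
    · rw [if_pos rfl, one_mul]
    · intro k _ hk
      rw [if_neg, zero_mul]
      intro h
      refine hk ?_
      funext l
      rw [Subsingleton.elim l 0, h]
    · intro h
      exact absurd (Finset.mem_univ _) h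
  have h2 : ∀ k : (∀ _ : Fin 1, Fin (m + 1)), c i * ((if k 0 = 0 then (1 : ℝ) else 0) -
      if k 0 = i.succ then 1 else 0) * P k = c i * ((if k 0 = 0 then (1 : ℝ) else 0) * P k) -
      c i * ((if k 0 = i.succ then (1 : ℝ) else 0) * P k) := fun k => by ring
  simp only [h2]
  rw [Finset.sum_sub_distrib, ← Finset.mul_sum, ← Finset.mul_sum, h1, h1]
  ring

theorem exists_toriE {D R : ℝ} (hD : 0 < D) (hg : K2.Good (nrm σ D a) R)
    (hN : 12 ≤ ‖σ lam‖ * D ^ (m + 1) * (8 / 9 * R)) :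
    ∃ Γ : Fin m → Torus (EOpen lam (one1 K m) a) (0 + 2),
      (∀ t θ (x : K), (Γ t).e θ (ecst lam (one1 K m) a x) = σ x) ∧
      (Matrix.of fun t i : Fin m =>
        (Γ t).reg (symb (eent lam (one1 K m) a (zs i)))).det ≠ 0 := by
  classical
  have hDc : (D : ℂ) ≠ 0 := by exact_mod_cast hD.ne'
  set N : ℂ := σ lam * (D : ℂ) ^ (m + 1) with hNdef
  have hNn : ‖N‖ = ‖σ lam‖ * D ^ (m + 1) := by
    rw [hNdef, norm_mul, norm_pow, Complex.norm_real, Real.norm_of_nonneg hD.le]
  rw [← hNn] at hN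
  set ρ : ℝ := 8 / 9 * R with hρdef
  have hρ : 0 < ρ := by
    have := hg.pos
    positivity
  set b : ∀ _ : Fin 1, Fin (m + 1) → ℂ := fun _ => nrm σ D a with hb
  obtain ⟨X, hX⟩ := exists_lpF (n := 1) (r := fun _ => m) (b := b) (R := fun _ => R) fun _ => hg
  have hz := fun φ : Fin 1 → ℝ => ec hρ hN φ
  have gZ : Good (Et 1 N ρ) := good_Et hρ hN
  have pZ : Per (Et 1 N ρ) := per_Et N ρ
  have hlp := fun t : ∀ _ : Fin 1, Fin (m + 1) => (hX t).lp 0
  set F : (∀ _ : Fin 1, Fin (m + 1)) → Fin (m + 1) → (Fin 2 → ℝ) → ℂ := fun t e θ =>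
    (D : ℂ) * (X 0 (t 0) (θ 0) - nrm σ D a e) with hF
  set Y : (Fin 2 → ℝ) → ℂ := fun θ => circ 1 (θ 1) with hY
  have gY : Good Y := good_yT (n := 1) (q := 1) 0
  have pY : Per Y := fun θ i => per_yT (n := 1) (q := 1) θ i 0
  have gF : ∀ t e, Good (F t e) := fun t e =>
    ⟨contDiff_const.mul (((hlp t).smooth.comp (contDiff_apply ℝ ℝ _)).sub contDiff_const),
      fun θ => mul_ne_zero hDc ((hlp t).ne e _)⟩
  set x : (∀ _ : Fin 1, Fin (m + 1)) → (Fin 2 → ℝ) → (Fin (0 + 1) → ℂ) := fun t θ _ =>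
    (D : ℂ) * X 0 (t 0) (θ 0) with hx
  have hsub : ∀ t θ e, x t θ 0 - σ (a e) = F t e θ := by
    intro t θ e
    rw [sub_nrm hD]
    simp only [hx, hF]
    rw [mul_div_cancel_left₀ _ hDc]
  have hxc : ∀ t, ContDiff ℝ 2 (x t) := fun t => contDiff_pi.2 fun k =>
    contDiff_const.mul ((hlp t).smooth.comp (contDiff_apply ℝ ℝ _))
  have hXp : ∀ (t : ∀ _ : Fin 1, Fin (m + 1)) (θ : Fin 2 → ℝ) (i : Fin 2),
      X 0 (t 0) ((θ + Pi.single i 1 : Fin 2 → ℝ) 0) = X 0 (t 0) (θ 0) := by
    intro t θ i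
    by_cases h : (0 : Fin 2) = i
    · subst h
      rw [Pi.add_apply, Pi.single_eq_same, (hlp t).per]
    · rw [Pi.add_apply, Pi.single_eq_of_ne h, add_zero]
  have hxp : ∀ t θ i, x t (θ + Pi.single i 1) = x t θ := by
    intro t θ i
    funext k
    simp only [hx]
    rw [hXp]
  have hPhi : ∀ t θ, PhC σ lam (one1 K m) a (x t θ) = N * circ ρ (θ 0) := by
    intro t θ
    unfold PhC
    simp only [lc_one, hsub, hF]
    rw [Finset.prod_mul_distrib, Finset.prod_const, Finset.card_univ, Fintype.card_fin,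
      (hlp t).prod, hNdef, mul_assoc]
  have hT : ∀ t θ, PhC σ lam (one1 K m) a (x t θ) - (Y θ + (Y θ)⁻¹) =
      TT N (ye fun j => θ (Fin.natAdd 1 j)) ρ (∑ k : Fin 1, θ (Fin.castAdd 1 k)) := by
    intro t θ
    rw [hPhi, Fin.sum_univ_one]
    rfl
  have hPt : ∀ t θ, EPt σ lam (one1 K m) a (x t θ) (Y θ) := by
    intro t θ
    refine ⟨gY.ne_zero θ, ?_, ?_⟩
    · rw [hPhi]
      exact (hz fun _ => 0).Nc_ne _
    · rw [hT]
      have h1 := (hz fun j => θ (Fin.natAdd 1 j)).T_ge (∑ k : Fin 1, θ (Fin.castAdd 1 k))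
      linarith
  set Γ' : (∀ _ : Fin 1, Fin (m + 1)) → Torus (EOpen lam (one1 K m) a) 2 := fun t =>
    mkE (x t) Y (hxc t) gY.smooth (hxp t) (fun θ i => pY θ i) (hPt t) with hΓ'
  have huz : ∀ t, (Γ' t).fn (uz lam (one1 K m) a : EOpen lam (one1 K m) a) = Et 1 N ρ := by
    intro t
    refine (mkE_uz (x t) Y (hxc t) gY.smooth (hxp t) (fun θ i => pY θ i) (hPt t)).trans ?_
    funext θ
    rw [hT, zeta_eq_zz]
    rfl
  have huy : ∀ t, (Γ' t).fn (uy lam (one1 K m) a : EOpen lam (one1 K m) a) = Y := fun t =>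
    mkE_uy (x t) Y (hxc t) gY.smooth (hxp t) (fun θ i => pY θ i) (hPt t)
  have heg : ∀ t (S : Fin (0 + 2) → Fin (m + 1)) (i : Fin (0 + 2)),
      (Γ' t).fn (eg lam (one1 K m) a S i : EOpen lam (one1 K m) a) =
      fun θ => (-1) ^ (i : ℕ) * F t (S i) θ := by
    intro t S i
    refine (mkE_eg (x t) Y (hxc t) gY.smooth (hxp t) (fun θ i => pY θ i) (hPt t) S i
      (by rw [gam_one]; exact pow_ne_zero _ (by norm_num))).trans ?_
    funext θ
    rw [gam_one, lc_one, hsub, map_pow, map_neg, map_one]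
  have hPE : ∀ t (e : Fin (m + 1)), PE N ρ b (fun _ => (D : ℂ)) (fun l => X l (t l)) (fun _ => e) =
      pairing (t3 (Et 1 N ρ) (F t e) Y) := by
    intro t e
    unfold PE
    congr 1
    funext l
    fin_cases l
    · rfl
    · rfl
    · rfl
  have hent : ∀ t (i : Fin m),
      (Γ' t).reg (symb (eent lam (one1 K m) a (zs i))) =
      PE N ρ b (fun _ => (D : ℂ)) (fun l => X l (t l)) (fun _ => 0) -
      PE N ρ b (fun _ => (D : ℂ)) (fun l => X l (t l)) (fun _ => i.succ) := by
    intro t i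
    set S := zs i with hS
    have e0 := heg t S 0
    have e1 := heg t S 1
    have hS0 : S 0 = 0 := rfl
    have hS1 : S 1 = i.succ := rfl
    set U : (Fin 2 → ℝ) → ℂ := (Γ' t).fn ((eg lam (one1 K m) a S 1 / eg lam (one1 K m) a S 0 :
      (EOpen lam (one1 K m) a)ˣ) : EOpen lam (one1 K m) a) with hU
    have gU : Good U := (Γ' t).good _
    have h2 : (Γ' t).reg (symb (eent lam (one1 K m) a S)) = pairing (t3 (Et 1 N ρ) Y U) := by
      rw [Torus.reg_symb]
      unfold Torus.pair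
      congr 1
      funext l
      fin_cases l
      · exact huz t
      · exact huy t
      · rfl
    have h3 : ∀ θ, U θ * F t 0 θ = -1 * F t (i.succ) θ := by
      intro θ
      have h4 := congrFun e0 θ
      have h5 := congrFun e1 θ
      rw [hS0] at h4
      rw [hS1] at h5
      have h6 : U θ * (Γ' t).fn (eg lam (one1 K m) a S 0 : EOpen lam (one1 K m) a) θ =
          (Γ' t).fn (eg lam (one1 K m) a S 1 : EOpen lam (one1 K m) a) θ := by
        rw [hU]
        unfold Torus.fn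
        rw [← map_mul, ← Units.val_mul, div_mul_cancel]
      rw [h4, h5] at h6
      have h7 : ((-1 : ℂ)) ^ ((0 : Fin (0 + 2)) : ℕ) = 1 := by norm_num
      have h8 : ((-1 : ℂ)) ^ ((1 : Fin (0 + 2)) : ℕ) = -1 := by norm_num
      rw [h7, h8, one_mul] at h6
      exact h6
    rw [h2, pairing_quot gZ gY gU (gF t 0) h3, pairing_neg (gF t (i.succ)), hPE, hPE,
      pairing_swap (Et 1 N ρ) Y (F t 0), pairing_swap (Et 1 N ρ) Y (F t i.succ)]
    ring
  obtain ⟨f, hf⟩ := exists_det_ne_zero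
    (fun (t : ∀ _ : Fin 1, Fin (m + 1)) (i : Fin m) =>
      (Γ' t).reg (symb (eent lam (one1 K m) a (zs i)))) (fun c hc => by
      refine cc_injective ?_
      refine core_zeroE (n := 1) (r := fun _ => m) (N := N) (ρ := ρ) (b := b)
        (R := fun _ => R) (D := fun _ => (D : ℂ))
        (X := fun i l => X l (i l)) hX (fun _ => hDc) one_pos hρ hN (cc c) (sum_cc c) fun t => ?_
      have h1 := hc t
      simp only [hent] at h1
      rw [sum_cc_mul, ← h1])
  exact ⟨fun t => Γ' (f t), fun t θ y => (hPt (f t) θ).evA_ecst y, hf⟩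

end Pool.Agent.J4H54.KT
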