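import Pool.Agent.J4H54.KT.EllB
set_option autoImplicit false

/-!
Smoothness of the elliptic surfaces and the main theorem.
-/

namespace Pool.Agent.J4H54.KT

open Pool.Agent.TH826.MK (Torus symb)

open Pool.Agent.TH826.DC (dPhi)

open Pool.Agent.TH826.EF

open Pool.Agent.TH826.MH (qq eqn_eq pderiv_eqn eval_aeval)

open Pool.Agent.TH690.PF (mPhi fl)

open Pool.Agent.J4H54.K2 (nrm prod_nrm)

variable {K : Type*} [Field K] {m : ℕ} {σ : K →+* ℂ} {lam : K} {a : Fin (m + 1) → K}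

/-- the values of `Φ` at its critical points are large -/
theorem noncritE {D R : ℝ} (hD : 0 < D) (hg : K2.Good (nrm σ D a) R) (hl : σ lam ≠ 0)
    (x : Fin (0 + 1) → ℂ)
    (hcon : MvPolynomial.eval₂ σ x (MvPolynomial.pderiv 0 (dPhi lam (one1 K m) a)) = 0) :
    ‖σ lam‖ * D ^ (m + 1) * (3 / 2 * R) ≤
      ‖MvPolynomial.eval₂ σ x (dPhi lam (one1 K m) a)‖ := by
  set a' : ∀ _ : Fin (0 + 1), Fin (m + 1) → K := fun _ => a with ha'
  have hP : dPhi lam (one1 K m) a =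
      Pool.Agent.TH826.MH.eqn lam a' + 1 := by
    rw [dPhi_eq]
    unfold mPhi Pool.Agent.TH826.MH.eqn fl
    rw [Fintype.prod_sigma]
    ring
  have h3 := hcon
  rw [hP, map_add, MvPolynomial.pderiv_one, add_zero, pderiv_eqn, MvPolynomial.eval₂_mul,
    MvPolynomial.eval₂_mul, MvPolynomial.eval₂_C, eval_aeval, MvPolynomial.eval₂_prod] at h3
  have h4 : (Finset.univ : Finset (Fin (0 + 1))).erase 0 = ∅ := by decide
  rw [h4, Finset.prod_empty, mul_one] at h3
  have hcrit : (Polynomial.derivative (qq a)).eval₂ σ (x 0) = 0 := by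
    rcases mul_eq_zero.1 h3 with h5 | h5
    · exact absurd h5 hl
    · exact h5
  have hge := crit_ge hD hg hcrit
  have hval : MvPolynomial.eval₂ σ x (dPhi lam (one1 K m) a) =
      σ lam * (qq a).eval₂ σ (x 0) := by
    rw [hP, eqn_eq lam a' 0, sub_add_cancel, MvPolynomial.eval₂_mul,
      MvPolynomial.eval₂_mul, MvPolynomial.eval₂_C, eval_aeval, MvPolynomial.eval₂_prod, h4,
      Finset.prod_empty, mul_one]
  have hval' : ‖(qq a).eval₂ σ (x 0)‖ = D ^ (m + 1) *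
      ‖∏ i, (x 0 / D - nrm σ D a i)‖ := by
    rw [← Polynomial.eval_map, qq_map, eval_qq, prod_nrm hD, norm_mul, norm_pow,
      Complex.norm_real, Real.norm_of_nonneg hD.le]
  rw [hval, norm_mul, hval']
  exact (mul_le_mul_of_nonneg_left hge (by positivity)).trans (le_of_eq (by ring))

/-- smoothness, following `Pool.Agent.TH826.EF.exists_smooth` -/
theorem smoothE {D R : ℝ} (hD : 0 < D) (hg : K2.Good (nrm σ D a) R)
    (hN : 4 < ‖σ lam‖ * D ^ (m + 1) * (3 / 2 * R)) (x : Fin (0 + 1) → ℂ) (y z : ℂ)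
    (heq : y * z ^ 2 + (y ^ 2 + 1 - MvPolynomial.eval₂ σ x (dPhi lam (one1 K m) a) * y) * z +
      y = 0) :
    z ^ 2 + (2 * y - MvPolynomial.eval₂ σ x (dPhi lam (one1 K m) a)) * z + 1 ≠ 0 ∨
    2 * y * z + (y ^ 2 + 1 - MvPolynomial.eval₂ σ x (dPhi lam (one1 K m) a) * y) ≠ 0 ∨
    MvPolynomial.eval₂ σ x (MvPolynomial.pderiv 0 (dPhi lam (one1 K m) a)) * y * z ≠ 0 := by
  by_contra hcon
  push Not at hcon
  obtain ⟨h1, h2, h3⟩ := hcon
  have hy : y ≠ 0 := by
    intro h0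
    rw [h0] at heq h2
    have hz0 : z = 0 := by linear_combination heq
    rw [hz0] at h2
    norm_num at h2
  have hz : z ≠ 0 := by
    intro h0
    rw [h0] at heq
    exact hy (by linear_combination heq)
  set Φ : ℂ := MvPolynomial.eval₂ σ x (dPhi lam (one1 K m) a) with hΦdef
  have hy2 : y ^ 2 = 1 := by
    have h4 : z * (y ^ 2 - 1) = 0 := by linear_combination y * h1 - heq
    rcases mul_eq_zero.1 h4 with h | h
    · exact absurd h hz
    · linear_combination h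
  have hz2 : z ^ 2 = 1 := by
    have h4 : y * (z ^ 2 - 1) = 0 := by linear_combination z * h2 - heq
    rcases mul_eq_zero.1 h4 with h | h
    · exact absurd h hy
    · linear_combination h
  have hPhi : Φ = 2 * y + 2 * z := by
    have h4 : y * z * Φ = 2 * y + 2 * z := by
      linear_combination -heq + y * hz2 + z * hy2
    linear_combination (y * z) * h4 - (z ^ 2 * Φ - 2 * z) * hy2 - (Φ - 2 * y) * hz2
  have hny : ‖y‖ = 1 := by
    have h4 := congrArg norm hy2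
    rw [norm_pow, norm_one] at h4
    nlinarith [norm_nonneg y]
  have hnz : ‖z‖ = 1 := by
    have h4 := congrArg norm hz2
    rw [norm_pow, norm_one] at h4
    nlinarith [norm_nonneg z]
  have hΦn : ‖Φ‖ ≤ 4 := by
    rw [hPhi]
    refine (norm_add_le _ _).trans (le_of_eq ?_)
    rw [norm_mul, norm_mul, hny, hnz, Complex.norm_ofNat]
    norm_num
  have hl : σ lam ≠ 0 := by
    intro h0
    rw [h0, norm_zero, zero_mul, zero_mul] at hN
    linarith
  have h5 := noncritE hD hg hl x (by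
    rw [mul_eq_zero, or_iff_left hz, mul_eq_zero, or_iff_left hy] at h3
    exact h3)
  rw [← hΦdef] at h5
  linarith

theorem main_ell {D γ : ℝ} (hD : 0 < D)
    (hsep : ∀ i j, i ≠ j → D ≤ ‖σ (a i) - σ (a j)‖)
    (hγ : γ = 2 ^ (m - 168) / 65536 ∨ ((∀ i, (σ (a i)).im = 0) ∧ γ = 2 ^ (m - 3) / 9))
    (h : 12 ≤ ‖σ lam‖ * (D ^ (m + 1) * γ)) :
    (∀ (x : Fin (0 + 1) → ℂ) (y z : ℂ),
      y * z ^ 2 + (y ^ 2 + 1 - MvPolynomial.eval₂ σ x (dPhi lam (one1 K m) a) * y) * z +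
        y = 0 →
      z ^ 2 + (2 * y - MvPolynomial.eval₂ σ x (dPhi lam (one1 K m) a)) * z + 1 ≠ 0 ∨
      2 * y * z + (y ^ 2 + 1 - MvPolynomial.eval₂ σ x (dPhi lam (one1 K m) a) * y) ≠ 0 ∨
      MvPolynomial.eval₂ σ x (MvPolynomial.pderiv 0 (dPhi lam (one1 K m) a)) * y * z ≠ 0) ∧
    ∃ Γ : Fin m → Torus (EOpen lam (one1 K m) a) (0 + 2),
      (∀ t θ (x : K), (Γ t).e θ (ecst lam (one1 K m) a x) = σ x) ∧
      (Matrix.of fun t i : Fin m =>
        (Γ t).reg (symb (eent lam (one1 K m) a (zs i)))).det ≠ 0 := by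
  have hg : K2.Good (nrm σ D a) (9 / 8 * γ) := goodX hD hsep hγ
  have h1 : 12 ≤ ‖σ lam‖ * D ^ (m + 1) * (8 / 9 * (9 / 8 * γ)) := by
    refine h.trans (le_of_eq ?_)
    ring
  refine ⟨fun x y z => smoothE hD hg ?_ x y z, exists_toriE hD hg h1⟩
  have h2 : ‖σ lam‖ * D ^ (m + 1) * (8 / 9 * (9 / 8 * γ)) ≤
      ‖σ lam‖ * D ^ (m + 1) * (3 / 2 * (9 / 8 * γ)) := by
    refine mul_le_mul_of_nonneg_left ?_ (by positivity)
    have := hg.pos
    linarith
  linarith

end Pool.Agent.J4H54.KT
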