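import Pool.Agent.J4H54.KT.Est
import Pool.Agent.TH690.SF.Branch
set_option autoImplicit false

/-!
The large root of `Z + 1/(u Z) = T`, for `T` on a circle.
-/

namespace Pool.Agent.J4H54.KT

open Pool.Agent.TH826.UH (NZ nz_circ)

open Pool.Agent.TH826.MK (circ norm_circ contDiff_circ hasDerivAt_circ circ_add_one)

open Pool.Agent.TH690.SF (se he he_eq norm_he_ge norm_he_le norm_se_ge hasDerivAt_he
  contDiffAt_he norm_se_sub_one)

open MeasureTheory

open scoped Real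

/-- the large root of `Z + 1/(u Z) = T` -/
noncomputable def zz (u T : ℂ) : ℂ := T * he ((u * (T * T))⁻¹)

/-- the parameters -/
structure ZC (u N c : ℂ) (ρ q : ℝ) : Prop where
  hu : ‖u‖ = 1
  hρ : 0 < ρ
  hq : 0 ≤ q
  hc : ‖c‖ ≤ q
  hN : 6 + 3 * q ≤ ‖N‖ * ρ

/-- the values of `T` -/
noncomputable def TT (N c : ℂ) (ρ s : ℝ) : ℂ := N * circ ρ s - c

/-- the values of `1/(u T²)` -/
noncomputable def ee (u N c : ℂ) (ρ s : ℝ) : ℂ := (u * (TT N c ρ s * TT N c ρ s))⁻¹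

variable {u N c : ℂ} {ρ q : ℝ}

theorem ZC.N_ne (h : ZC u N c ρ q) : N ≠ 0 := by
  intro h0
  have h1 := h.hN
  have h2 := h.hq
  rw [h0, norm_zero, zero_mul] at h1
  linarith

theorem ZC.norm_Nc (h : ZC u N c ρ q) (s : ℝ) : ‖N * circ ρ s‖ = ‖N‖ * ρ := by
  rw [norm_mul, norm_circ h.hρ.le]

theorem ZC.Nc_ne (h : ZC u N c ρ q) (s : ℝ) : N * circ ρ s ≠ 0 :=
  mul_ne_zero h.N_ne ((nz_circ h.hρ).ne_zero s)

theorem ZC.T_ge (h : ZC u N c ρ q) (s : ℝ) : 6 + 2 * q ≤ ‖TT N c ρ s‖ := by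
  have h1 := norm_sub_norm_le (N * circ ρ s) c
  rw [h.norm_Nc] at h1
  have h2 := h.hN
  have h3 := h.hc
  have h4 := h.hq
  unfold TT
  linarith

theorem ZC.T_ne (h : ZC u N c ρ q) (s : ℝ) : TT N c ρ s ≠ 0 := by
  rw [← norm_pos_iff]
  have := h.T_ge s
  have := h.hq
  linarith

theorem ZC.u_ne (h : ZC u N c ρ q) : u ≠ 0 := by
  rw [← norm_pos_iff, h.hu]
  exact one_pos

theorem ZC.norm_e (h : ZC u N c ρ q) (s : ℝ) : ‖ee u N c ρ s‖ * (6 + 2 * q) ^ 2 ≤ 1 := by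
  have h1 := h.T_ge s
  have h2 := h.hq
  have h3 : 0 < ‖TT N c ρ s‖ := by linarith
  unfold ee
  rw [norm_inv, norm_mul, norm_mul, h.hu, one_mul, inv_mul_le_iff₀ (by positivity), mul_one,
    pow_two]
  exact mul_le_mul h1 h1 (by linarith) h3.le

theorem ZC.norm_e' (h : ZC u N c ρ q) (s : ℝ) : ‖ee u N c ρ s‖ ≤ 1 / 16 := by
  have h1 := h.norm_e s
  have h2 := h.hq
  have h3 := norm_nonneg (ee u N c ρ s)
  nlinarith [mul_nonneg h3 h2, mul_nonneg h3 (mul_nonneg h2 h2)]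

theorem ZC.nzT (h : ZC u N c ρ q) : NZ (TT N c ρ) :=
  ⟨(contDiff_const.mul (contDiff_circ ρ)).sub contDiff_const, h.T_ne⟩

theorem ZC.nze (h : ZC u N c ρ q) : NZ (ee u N c ρ) := by
  have h1 := h.nzT
  have h2 : ∀ s, u * (TT N c ρ s * TT N c ρ s) ≠ 0 := fun s =>
    mul_ne_zero h.u_ne (mul_ne_zero (h1.ne_zero s) (h1.ne_zero s))
  exact ⟨(contDiff_const.mul (h1.smooth.mul h1.smooth)).inv h2, fun s => inv_ne_zero (h2 s)⟩

theorem ZC.he_ne (h : ZC u N c ρ q) (s : ℝ) : he (ee u N c ρ s) ≠ 0 := by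
  rw [← norm_pos_iff]
  have := norm_he_ge (h.norm_e' s)
  linarith

theorem ZC.nz (h : ZC u N c ρ q) : NZ fun s => zz u (TT N c ρ s) := by
  refine NZ.mul h.nzT ⟨?_, h.he_ne⟩
  rw [contDiff_iff_contDiffAt]
  intro s
  exact ((contDiffAt_he (h.norm_e' s)).restrict_scalars ℝ).comp s h.nze.smooth.contDiffAt

theorem hasDeriv_T (N c : ℂ) (ρ s : ℝ) :
    HasDerivAt (TT N c ρ) (2 * π * Complex.I * (TT N c ρ s + c)) s := by
  have h1 := ((hasDerivAt_circ ρ s).const_mul N).sub_const c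
  refine h1.congr_deriv ?_
  unfold TT
  ring

theorem ZC.hasDeriv_e (h : ZC u N c ρ q) (s : ℝ) : HasDerivAt (ee u N c ρ)
    (-(2 * ee u N c ρ s * (2 * π * Complex.I * (TT N c ρ s + c)) / TT N c ρ s)) s := by
  have h1 := hasDeriv_T N c ρ s
  have h0 := h.T_ne s
  have hu := h.u_ne
  have h2 := ((h1.mul h1).const_mul u).inv (mul_ne_zero hu (mul_ne_zero h0 h0))
  refine h2.congr_deriv ?_
  simp only [Pi.mul_apply]
  unfold ee
  field_simp
  ring

theorem ZC.hasDeriv_Z (h : ZC u N c ρ q) (s : ℝ) : HasDerivAt (fun s => zz u (TT N c ρ s))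
    (zz u (TT N c ρ s) * (2 * π * Complex.I * (TT N c ρ s + c) / TT N c ρ s *
      (1 + 2 * ee u N c ρ s / (se (ee u N c ρ s) * he (ee u N c ρ s))))) s := by
  have h1 := hasDeriv_T N c ρ s
  have h2 := (hasDerivAt_he (h.norm_e' s)).comp_of_eq s (h.hasDeriv_e s) rfl
  have h3 := h1.mul h2
  refine h3.congr_deriv ?_
  have h0 := h.T_ne s
  have hh := h.he_ne s
  have hs0 : se (ee u N c ρ s) ≠ 0 := Complex.exp_ne_zero _
  unfold zz
  show _ = TT N c ρ s * he (ee u N c ρ s) * _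
  simp only [Function.comp]
  field_simp

theorem ZC.ld_Z (h : ZC u N c ρ q) (s : ℝ) : ld (fun s => zz u (TT N c ρ s)) s =
    2 * π * Complex.I * (TT N c ρ s + c) / TT N c ρ s *
      (1 + 2 * ee u N c ρ s / (se (ee u N c ρ s) * he (ee u N c ρ s))) := by
  unfold ld
  rw [(h.hasDeriv_Z s).deriv, mul_div_cancel_left₀ _ (h.nz.ne_zero s)]

theorem ZC.qb (h : ZC u N c ρ q) (s : ℝ) :
    ‖ld (fun s => zz u (TT N c ρ s)) s - ((2 * π : ℝ) : ℂ) * Complex.I‖ ≤ π := by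
  set x : ℂ := 2 * ee u N c ρ s / (se (ee u N c ρ s) * he (ee u N c ρ s)) with hx
  set y : ℂ := c / TT N c ρ s with hy
  have h0 := h.T_ne s
  have e1 : ld (fun s => zz u (TT N c ρ s)) s - ((2 * π : ℝ) : ℂ) * Complex.I =
      2 * π * Complex.I * ((1 + y) * (1 + x) - 1) := by
    rw [h.ld_Z, ← hx, hy]
    push_cast
    field_simp
  have hq := h.hq
  set B : ℝ := 6 + 2 * q with hB
  have hB0 : 0 < B := by linarith
  have hT := h.T_ge s
  rw [← hB] at hT
  have hy1 : ‖y‖ ≤ q / B := by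
    rw [hy, norm_div]
    exact div_le_div₀ hq h.hc hB0 hT
  have hx1 : ‖x‖ ≤ 4 / B ^ 2 := by
    have h1 := norm_se_ge (h.norm_e' s)
    have h2 := norm_he_ge (h.norm_e' s)
    have h3 := h.norm_e s
    rw [← hB] at h3
    have h4 : 1 / 2 ≤ ‖se (ee u N c ρ s)‖ * ‖he (ee u N c ρ s)‖ := by nlinarith
    rw [hx, norm_div, norm_mul, norm_mul, Complex.norm_ofNat, div_le_div_iff₀ (by linarith)
      (by positivity)]
    nlinarith [norm_nonneg (ee u N c ρ s)]
  have h5 : ‖(1 + y) * (1 + x) - 1‖ ≤ 1 / 2 := by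
    have e2 : (1 + y) * (1 + x) - 1 = y + x + y * x := by ring
    rw [e2]
    have h6 : ‖y + x + y * x‖ ≤ ‖y‖ + ‖x‖ + ‖y‖ * ‖x‖ := by
      refine (norm_add_le _ _).trans ?_
      rw [norm_mul]
      linarith [norm_add_le y x]
    refine h6.trans ?_
    have h7 : ‖y‖ * ‖x‖ ≤ q / B * (4 / B ^ 2) :=
      mul_le_mul hy1 hx1 (norm_nonneg _) (by positivity)
    have h8 : q / B + 4 / B ^ 2 + q / B * (4 / B ^ 2) ≤ 1 / 2 := by
      have h9 : q / B + 4 / B ^ 2 + q / B * (4 / B ^ 2) =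
          (q * B ^ 2 + 4 * B + 4 * q) / B ^ 3 := by
        field_simp
      rw [h9, div_le_div_iff₀ (by positivity) (by norm_num)]
      have h10 : q = (B - 6) / 2 := by
        rw [hB]
        ring
      rw [h10]
      have h11 : 6 ≤ B := by linarith
      nlinarith [mul_nonneg hB0.le (sub_nonneg.2 h11)]
    linarith
  rw [e1, norm_mul]
  have e3 : ‖2 * (π : ℂ) * Complex.I‖ = 2 * π := by
    rw [norm_mul, norm_mul, Complex.norm_I, Complex.norm_real, Complex.norm_ofNat, mul_one,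
      Real.norm_eq_abs, abs_of_pos Real.pi_pos]
  rw [e3]
  have := Real.pi_pos
  nlinarith

/-- the values of `Z/(N circ)` -/
noncomputable def VV1 (u N c : ℂ) (ρ s : ℝ) : ℂ := zz u (TT N c ρ s) / (N * circ ρ s)

theorem ZC.V_eq (h : ZC u N c ρ q) (s : ℝ) :
    VV1 u N c ρ s = (1 - c / (N * circ ρ s)) * he (ee u N c ρ s) := by
  have h1 := h.Nc_ne s
  have e : TT N c ρ s = (1 - c / (N * circ ρ s)) * (N * circ ρ s) := by
    rw [sub_mul, one_mul, div_mul_cancel₀ _ h1]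
    rfl
  unfold VV1
  rw [div_eq_iff h1]
  show TT N c ρ s * he (ee u N c ρ s) = _
  rw [e]
  ring

theorem ZC.kap (h : ZC u N c ρ q) (s : ℝ) : ‖c / (N * circ ρ s)‖ ≤ 1 / 3 := by
  rw [norm_div, h.norm_Nc]
  have h1 := h.hN
  have h2 := h.hq
  have h3 := h.hc
  rw [div_le_iff₀ (by linarith)]
  linarith

theorem ZC.V_mem (h : ZC u N c ρ q) (s : ℝ) : VV1 u N c ρ s ∈ Complex.slitPlane := by
  have h1 := h.kap s
  have h2 := norm_se_sub_one (h.norm_e' s)
  have e1 : VV1 u N c ρ s = 1 + (VV1 u N c ρ s - 1) := by ring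
  rw [e1]
  refine Complex.mem_slitPlane_of_norm_lt_one ?_
  set κ := c / (N * circ ρ s) with hκ
  have e2 : VV1 u N c ρ s - 1 = (1 - κ) * ((se (ee u N c ρ s) - 1) / 2) - κ := by
    rw [h.V_eq, ← hκ]
    unfold he
    ring
  rw [e2]
  have h3 : ‖1 - κ‖ ≤ 4 / 3 := by
    have := norm_sub_le (1 : ℂ) κ
    rw [norm_one] at this
    linarith
  have h4 : ‖(se (ee u N c ρ s) - 1) / 2‖ ≤ 3 / 16 := by
    rw [norm_div, Complex.norm_ofNat]
    linarith
  have h5 : ‖(1 - κ) * ((se (ee u N c ρ s) - 1) / 2)‖ ≤ 4 / 3 * (3 / 16) := by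
    rw [norm_mul]
    exact mul_le_mul h3 h4 (norm_nonneg _) (by norm_num)
  have h6 := norm_sub_le ((1 - κ) * ((se (ee u N c ρ s) - 1) / 2)) κ
  linarith

theorem ZC.wind (h : ZC u N c ρ q) :
    ∫ s in (0 : ℝ)..1, ld (fun s => zz u (TT N c ρ s)) s = ((2 * π : ℝ) : ℂ) * Complex.I := by
  have hlog : ∀ s, HasDerivAt (fun s => Complex.log (VV1 u N c ρ s))
      (ld (fun s => zz u (TT N c ρ s)) s - ((2 * π : ℝ) : ℂ) * Complex.I) s := by
    intro s
    have h1 : HasDerivAt (fun s => zz u (TT N c ρ s)) _ s := h.hasDeriv_Z s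
    have h2 := (hasDerivAt_circ ρ s).const_mul N
    have h3 := h1.div h2 (h.Nc_ne s)
    have h4 : HasDerivAt (VV1 u N c ρ) (VV1 u N c ρ s *
        (ld (fun s => zz u (TT N c ρ s)) s - ((2 * π : ℝ) : ℂ) * Complex.I)) s := by
      refine h3.congr_deriv ?_
      rw [h.ld_Z]
      have h5 := h.Nc_ne s
      have h6 := (nz_circ h.hρ).ne_zero s
      have h7 := h.N_ne
      unfold VV1
      push_cast
      field_simp
    have h5 := h4.clog_real (h.V_mem s)
    refine h5.congr_deriv ?_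
    rw [mul_div_cancel_left₀]
    exact Complex.slitPlane_ne_zero (h.V_mem s)
  have hc1 : Continuous fun s => ld (fun s => zz u (TT N c ρ s)) s - ((2 * π : ℝ) : ℂ) * Complex.I :=
    h.nz.cont_ld.sub continuous_const
  have h1 := intervalIntegral.integral_eq_sub_of_hasDerivAt (fun s _ => hlog s)
    (hc1.intervalIntegrable 0 1)
  have h2 : VV1 u N c ρ 1 = VV1 u N c ρ 0 := by
    have h3 : circ ρ 1 = circ ρ 0 := by
      have := circ_add_one ρ 0
      rwa [zero_add] at this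
    unfold VV1 TT
    rw [h3]
  rw [h2, sub_self, intervalIntegral.integral_sub ((cont_ld h.nz).intervalIntegrable _ _)
    (continuous_const.intervalIntegrable _ _)] at h1
  rw [sub_eq_zero.1 h1]
  simp

theorem ZC.log_Z (h : ZC u N c ρ q) (s : ℝ) :
    |Real.log ‖zz u (TT N c ρ s)‖ - Real.log (‖N‖ * ρ)| ≤ 19 / 26 := by
  have hc := h.Nc_ne s
  have e1 : zz u (TT N c ρ s) = N * circ ρ s * ((1 - c / (N * circ ρ s)) *
      he (ee u N c ρ s)) := by
    rw [← h.V_eq]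
    unfold VV1
    rw [mul_div_cancel₀ _ hc]
  have h1 := h.kap s
  set κ := c / (N * circ ρ s) with hκ
  have h2 : 2 / 3 ≤ ‖1 - κ‖ := by
    have := norm_sub_norm_le (1 : ℂ) κ
    rw [norm_one] at this
    linarith
  have h3 : ‖1 - κ‖ ≤ 4 / 3 := by
    have := norm_sub_le (1 : ℂ) κ
    rw [norm_one] at this
    linarith
  have h4 := norm_he_ge (h.norm_e' s)
  have h5 := norm_he_le (h.norm_e' s)
  have hpos : ‖N‖ * ρ ≠ 0 := by
    have := h.hN
    have := h.hq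
    linarith
  have n1 : ‖1 - κ‖ ≠ 0 := by linarith
  have n2 : ‖he (ee u N c ρ s)‖ ≠ 0 := by linarith
  have e5 : Real.log ‖zz u (TT N c ρ s)‖ = Real.log (‖N‖ * ρ) +
      (Real.log ‖1 - κ‖ + Real.log ‖he (ee u N c ρ s)‖) := by
    rw [e1, norm_mul, norm_mul (1 - κ), h.norm_Nc, Real.log_mul hpos (mul_ne_zero n1 n2),
      Real.log_mul n1 n2]
  rw [e5, add_sub_cancel_left]
  have l1 := Real.one_sub_inv_le_log_of_pos (x := ‖1 - κ‖) (by linarith)
  have l2 := Real.log_le_sub_one_of_pos (x := ‖1 - κ‖) (by linarith)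
  have l3 := Real.one_sub_inv_le_log_of_pos (x := ‖he (ee u N c ρ s)‖) (by linarith)
  have l4 := Real.log_le_sub_one_of_pos (x := ‖he (ee u N c ρ s)‖) (by linarith)
  have i1 : ‖1 - κ‖⁻¹ ≤ 3 / 2 := by
    rw [inv_le_comm₀ (by linarith) (by norm_num)]
    linarith
  have i2 : ‖he (ee u N c ρ s)‖⁻¹ ≤ 16 / 13 := by
    rw [inv_le_comm₀ (by linarith) (by norm_num)]
    linarith
  rw [abs_le]
  constructor <;> linarith

/-- the mean of `log |Z|` -/
noncomputable def mz (u N c : ℂ) (ρ : ℝ) : ℝ :=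
  ∫ s in (0 : ℝ)..1, Real.log ‖zz u (TT N c ρ s)‖

theorem ZC.mz_le (h : ZC u N c ρ q) : |mz u N c ρ - Real.log (‖N‖ * ρ)| ≤ 19 / 26 := by
  have e : mz u N c ρ - Real.log (‖N‖ * ρ) =
      ∫ s in (0 : ℝ)..1, (Real.log ‖zz u (TT N c ρ s)‖ - Real.log (‖N‖ * ρ)) := by
    rw [intervalIntegral.integral_sub (h.nz.cont_log.intervalIntegrable _ _)
      (continuous_const.intervalIntegrable _ _)]
    unfold mz
    simp
  rw [e, ← Real.norm_eq_abs]
  refine (intervalIntegral.norm_integral_le_of_norm_le_const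
    (C := 19 / 26) fun s _ => ?_).trans (by simp)
  rw [Real.norm_eq_abs]
  exact h.log_Z s

theorem ZC.lo (h : ZC u N c ρ q) : Lo (fun s => zz u (TT N c ρ s)) (2 * π) (mz u N c ρ)
    (19 / 13) π := by
  refine ⟨h.nz, fun s => ?_, h.wind, rfl, fun s => ?_, h.qb⟩
  · show zz u (TT N c ρ (s + 1)) = _
    unfold TT
    rw [circ_add_one]
  · have h1 := abs_le.1 (h.log_Z s)
    have h2 := abs_le.1 h.mz_le
    rw [abs_le]
    constructor <;> linarith [h1.1, h1.2, h2.1, h2.2]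

theorem log_six : 7 / 4 < Real.log 6 := by
  have h1 : Real.log 1296 = 4 * Real.log 6 := by
    rw [show (1296 : ℝ) = 6 ^ 4 by norm_num, Real.log_pow]
    norm_num
  have h2 : 7 < Real.log 1296 := by
    rw [Real.lt_log_iff_exp_lt (by norm_num)]
    have h3 := Real.exp_one_lt_d9
    have h4 : Real.exp 7 = Real.exp 1 ^ 7 := by
      rw [← Real.exp_nat_mul]
      norm_num
    rw [h4]
    calc Real.exp 1 ^ 7 < 2.7182818286 ^ 7 :=
          pow_lt_pow_left₀ h3 (Real.exp_pos 1).le (by norm_num)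
      _ < 1296 := by norm_num
  linarith

theorem ZC.mz_ge (h : ZC u N c ρ q) : 7 / 4 - 19 / 26 < mz u N c ρ := by
  have h1 := (abs_le.1 h.mz_le).1
  have h2 : Real.log 6 ≤ Real.log (‖N‖ * ρ) := Real.log_le_log (by norm_num) (by
    have := h.hN
    have := h.hq
    linarith)
  have h3 := log_six
  linarith

end Pool.Agent.J4H54.KT
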