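import Pool.Agent.J4H54.KT.FibA
import Pool.Agent.J4H54.KT.Hyp
import Pool.Agent.TH826.UM.FBTori
set_option autoImplicit false

/-!
Tori and smoothness for the fibrations
`z + y_1 + ... + y_q + 1/(z ∏ y_i ^ (w_i + 1)) = λ ∏_k ∏_i (x_k - a_{k,i})`.
-/

namespace Pool.Agent.J4H54.KT

open Pool.Agent.TH826.MK (Torus symb Good Per pairing circ contDiff_circ)

open Pool.Agent.TH826.MH (qq eqn_eq pderiv_eqn eval_aeval)

open Pool.Agent.TH826.UM (yT norm_yT good_yT per_yT d0 pairing_expandA)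

open Pool.Agent.TH690.PF (PRing POpen mPhi fl pent ux uy uz pcst PPt mkP mkP_ux mkP_uy mkP_uz
  eval_mPhi SmoothPts IndepReg)

open Pool.Agent.TH690.SF (he he_eq)

open Pool.Agent.J4H54.K2 (LP nrm sub_nrm prod_nrm)

open Finset

open scoped Real

section coeff

variable {n : ℕ} {m : Fin n → ℕ}

theorem sum_d0_zero {m : ℕ} (i : Fin m) : ∑ κ : Fin (m + 1), d0 i κ = 0 := by
  unfold d0
  rw [sum_sub_distrib]
  simp

/-- the extended coefficients -/
noncomputable def ext0 (x : (∀ k, Fin (m k)) → ℝ) (p : ∀ k, Fin (m k + 1)) : ℝ :=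
  ∑ t, x t * ∏ k, d0 (t k) (p k)

theorem sum_ext0 (x : (∀ k, Fin (m k)) → ℝ) (p : ∀ k, Fin (m k + 1)) (l : Fin n) :
    ∑ κ, ext0 x (Function.update p l κ) = 0 := by
  unfold ext0
  rw [sum_comm]
  refine sum_eq_zero fun t _ => ?_
  rw [← mul_sum]
  have h1 : ∀ κ, ∏ j, d0 (t j) (Function.update p l κ j) =
      d0 (t l) κ * ∏ j ∈ univ.erase l, d0 (t j) (p j) := by
    intro κ
    rw [← mul_prod_erase univ _ (mem_univ l), Function.update_self]
    congr 1
    refine prod_congr rfl fun j hj => ?_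
    rw [Function.update_of_ne (ne_of_mem_erase hj)]
  simp only [h1]
  rw [← sum_mul, sum_d0_zero, zero_mul, mul_zero]

theorem ext0_injective {x : (∀ k, Fin (m k)) → ℝ} (h : ext0 x = 0) : x = 0 := by
  funext s
  have h1 : ext0 x (fun k => (s k).succ) = 0 := congrFun h _
  unfold ext0 at h1
  have h2 : ∀ t : ∀ k, Fin (m k), x t * ∏ k, d0 (t k) (s k).succ = if t = s then x t else 0 := by
    intro t
    by_cases ht : t = s
    · subst ht
      rw [if_pos rfl, prod_eq_one, mul_one]
      intro k _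
      unfold d0
      rw [if_pos rfl, if_neg (Fin.succ_ne_zero _), sub_zero]
    · rw [if_neg ht]
      obtain ⟨k, hk⟩ := Function.ne_iff.1 ht
      rw [prod_eq_zero (mem_univ k), mul_zero]
      unfold d0
      rw [if_neg fun e => hk (Fin.succ_injective _ e).symm, if_neg (Fin.succ_ne_zero _), sub_zero]
  simp only [h2] at h1
  rw [sum_ite_eq' univ s] at h1
  simpa using h1

end coeff

variable {K : Type*} [Field K] {n q : ℕ} {m : Fin n → ℕ} {σ : K →+* ℂ} {lam : K}
  {a : (k : Fin n) → Fin (m k + 1) → K} {D R : Fin n → ℝ}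

theorem indepRegF (hn : 0 < n) (w : Fin q → ℕ) (hD : ∀ k, 0 < D k)
    (hg : ∀ k, K2.Good (nrm σ (D k) (a k)) (R k))
    (hN : 6 + 3 * (q : ℝ) ≤ ‖σ lam‖ * (∏ k, D k ^ (m k + 1)) * ∏ k, (8 / 9 * R k)) :
    IndepReg w σ lam a := by
  classical
  set D' : Fin n → ℂ := fun l => ((D l : ℝ) : ℂ) with hD'
  have hD0 : ∀ l, D' l ≠ 0 := fun l => by
    simp only [hD']
    exact_mod_cast (hD l).ne'
  set N : ℂ := σ lam * ∏ k, D' k ^ (m k + 1) with hNdef
  have hNn : ‖N‖ = ‖σ lam‖ * ∏ k, D k ^ (m k + 1) := by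
    rw [hNdef, norm_mul, norm_prod]
    congr 1
    refine prod_congr rfl fun k _ => ?_
    simp only [hD']
    rw [norm_pow, Complex.norm_real, Real.norm_of_nonneg (hD k).le]
  rw [← hNn] at hN
  set ρ : ℝ := ∏ k, (8 / 9 * R k) with hρdef
  have hρ : 0 < ρ := prod_pos fun k _ => by
    have := (hg k).pos
    positivity
  obtain ⟨X, hX⟩ := exists_lpF hg
  have hz := fun φ : Fin q → ℝ => zc (w := w) hρ hN φ
  have gZ : Good (Zt n w N ρ) := good_Zt hρ hN
  have pZ : Per (Zt n w N ρ) := per_Zt w N ρ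
  have hsm : ∀ l k, ContDiff ℝ 2 (X l k) := fun l k => by
    have h := ((hX (Function.update (fun _ => 0) l k)).lp l).smooth
    simpa using h
  have hper : ∀ l k s, X l k (s + 1) = X l k s := fun l k => by
    have h := ((hX (Function.update (fun _ => 0) l k)).lp l).per
    simpa using h
  have hprod : ∀ l k s, ∏ i, (X l k s - nrm σ (D l) (a l) i) = circ (8 / 9 * R l) s := fun l k => by
    have h := ((hX (Function.update (fun _ => 0) l k)).lp l).prod
    simpa using h
  have hne : ∀ l k i s, X l k s - nrm σ (D l) (a l) i ≠ 0 := fun l k i => by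
    have h := ((hX (Function.update (fun _ => 0) l k)).lp l).ne i
    simpa using h
  -- the coordinates
  set x : (∀ k, Fin (m k + 1)) → (Fin (n + q) → ℝ) → (Fin n → ℂ) := fun t θ k =>
    D' k * X k (t k) (θ (Fin.castAdd q k)) with hx
  set F : (∀ k, Fin (m k + 1)) → ∀ k, Fin (m k + 1) → (Fin (n + q) → ℝ) → ℂ := fun t k i θ =>
    D' k * (X k (t k) (θ (Fin.castAdd q k)) - nrm σ (D k) (a k) i) with hF
  have hsub : ∀ t θ k i, x t θ k - σ (a k i) = F t k i θ := by
    intro t θ k i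
    rw [sub_nrm (hD k)]
    simp only [hx, hF]
    rw [mul_div_cancel_left₀ _ (hD0 k)]
  have gF : ∀ t k i, Good (F t k i) := fun t k i =>
    ⟨contDiff_const.mul (((hsm k (t k)).comp (contDiff_apply ℝ ℝ _)).sub contDiff_const),
      fun θ => mul_ne_zero (hD0 k) (hne k (t k) i _)⟩
  have hXp : ∀ (t : ∀ k, Fin (m k + 1)) (θ : Fin (n + q) → ℝ) (k : Fin n) (i : Fin (n + q)),
      X k (t k) ((θ + Pi.single i 1 : Fin (n + q) → ℝ)
      (Fin.castAdd q k)) = X k (t k) (θ (Fin.castAdd q k)) := by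
    intro t θ k i
    by_cases h : Fin.castAdd q k = i
    · subst h
      rw [Pi.add_apply, Pi.single_eq_same, hper]
    · rw [Pi.add_apply, Pi.single_eq_of_ne h, add_zero]
  have pF : ∀ t k i, Per (F t k i) := fun t k i θ j => by
    simp only [hF]
    rw [hXp]
  have hxc : ∀ t, ContDiff ℝ 2 (x t) := fun t => contDiff_pi.2 fun k =>
    contDiff_const.mul ((hsm k (t k)).comp (contDiff_apply ℝ ℝ _))
  have hxp : ∀ t θ i, x t (θ + Pi.single i 1) = x t θ := by
    intro t θ i
    funext k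
    simp only [hx]
    rw [hXp]
  have hPhi : ∀ t θ, MvPolynomial.eval₂ σ (x t θ) (mPhi lam a) =
      N * circ ρ (∑ k : Fin n, θ (Fin.castAdd q k)) := by
    intro t θ
    rw [eval_mPhi, Fintype.prod_sigma]
    have h1 : ∀ k, ∏ i, (x t θ k - σ (a k i)) =
        D' k ^ (m k + 1) * circ (8 / 9 * R k) (θ (Fin.castAdd q k)) := by
      intro k
      simp only [hsub, hF]
      rw [prod_mul_distrib, prod_const, card_univ, Fintype.card_fin, hprod]
    simp only [h1]
    rw [prod_mul_distrib, circ_prod, hNdef, mul_assoc]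
  have hyc : ContDiff ℝ 2 fun θ : Fin (n + q) → ℝ => yT n θ := contDiff_pi.2 fun i =>
    (good_yT (n := n) i).smooth
  have hyp : ∀ (θ : Fin (n + q) → ℝ) i, yT n (θ + Pi.single i 1) = yT n θ := fun θ i =>
    funext fun j => per_yT θ i j
  have hPt : ∀ t θ, PPt w σ (mPhi lam a) (x t θ) (yT n θ) (Zt n w N ρ θ) := by
    intro t θ
    set φ : Fin q → ℝ := fun j => θ (Fin.natAdd n j) with hφ
    set s : ℝ := ∑ k : Fin n, θ (Fin.castAdd q k) with hs
    have hzφ := hz φ
    refine ⟨?_, by rw [hPhi]; exact hzφ.Nc_ne s⟩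
    have h1 : ∑ i, yT n θ i - MvPolynomial.eval₂ σ (x t θ) (mPhi lam a) =
        -TT N (yc φ) ρ s := by
      rw [hPhi]
      unfold TT yc yT
      ring
    rw [h1]
    have h2 := he_eq (hzφ.norm_e' s)
    have hT := hzφ.T_ne s
    have hu := hzφ.u_ne
    have h3 : yu w φ * (TT N (yc φ) ρ s * TT N (yc φ) ρ s) * ee (yu w φ) N (yc φ) ρ s = 1 := by
      unfold ee
      exact mul_inv_cancel₀ (mul_ne_zero hu (mul_ne_zero hT hT))
    have h4 : Zt n w N ρ θ = TT N (yc φ) ρ s * he (ee (yu w φ) N (yc φ) ρ s) := rfl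
    have h5 : ∏ i, yT n θ i ^ (w i + 1) = yu w φ := rfl
    rw [h4, h5]
    linear_combination (yu w φ * (TT N (yc φ) ρ s * TT N (yc φ) ρ s)) * h2 - h3
  set Γ' : (∀ k, Fin (m k + 1)) → Torus (POpen w (mPhi lam a)) (n + q) := fun t =>
    mkP (x t) (fun θ => yT n θ) (Zt n w N ρ) (hxc t) hyc gZ.smooth (hxp t) hyp
      (fun θ i => pZ θ i) (hPt t) with hΓ'
  have hux : ∀ t (k : Fin n) i, (Γ' t).fn (ux w lam a ⟨k, i⟩ : POpen w (mPhi lam a)) =
      F t k i := by
    intro t k i
    refine (mkP_ux (x t) (fun θ => yT n θ) (Zt n w N ρ) (hxc t) hyc gZ.smooth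
      (hxp t) hyp (fun θ i => pZ θ i) (hPt t) ⟨k, i⟩).trans ?_
    funext θ
    exact hsub t θ k i
  have huz : ∀ t, (Γ' t).fn (uz w (mPhi lam a) : POpen w (mPhi lam a)) = Zt n w N ρ := fun t =>
    mkP_uz (x t) (fun θ => yT n θ) (Zt n w N ρ) (hxc t) hyc gZ.smooth
      (hxp t) hyp (fun θ i => pZ θ i) (hPt t)
  have huy : ∀ t j, (Γ' t).fn (uy w (mPhi lam a) j : POpen w (mPhi lam a)) =
      fun θ => yT n θ j := fun t j =>
    mkP_uy (x t) (fun θ => yT n θ) (Zt n w N ρ) (hxc t) hyc gZ.smooth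
      (hxp t) hyp (fun θ i => pZ θ i) (hPt t) j
  have hent : ∀ t (i : ∀ k, Fin (m k)), (Γ' t).reg (symb (pent w lam a i)) =
      ∑ p, (∏ k, d0 (i k) (p k)) *
        PF w N ρ (fun l => nrm σ (D l) (a l)) D' (fun l => X l (t l)) p := by
    intro t i
    have h1 := pairing_expandA gZ pZ
      (g := fun j θ => yT n θ j) (fun j => good_yT j) (fun j θ i => per_yT θ i j)
      (F := F t) (gF t) (pF t) i
    have h2 : (Γ' t).reg (symb (pent w lam a i)) = pairing (Fin.cons (Zt n w N ρ)
        (Fin.append (fun k (θ : Fin (n + q) → ℝ) => F t k (i k).succ θ / F t k 0 θ)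
          fun j θ => yT n θ j)) := by
      rw [Torus.reg_symb]
      unfold Torus.pair
      congr 1
      funext l
      refine Fin.cases ?_ (fun l => ?_) l
      · exact huz t
      · rw [Fin.cons_succ]
        refine Fin.addCases (fun k => ?_) (fun j => ?_) l
        · rw [Fin.append_left]
          have h3 : pent w lam a i (Fin.castAdd q k).succ =
              ux w lam a ⟨k, (i k).succ⟩ / ux w lam a ⟨k, 0⟩ := by
            unfold pent
            rw [Fin.cons_succ, Fin.append_left]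
          funext θ
          have h4 := ((Γ' t).good (ux w lam a ⟨k, 0⟩)).ne_zero θ
          have h5 : (Γ' t).fn ((ux w lam a ⟨k, (i k).succ⟩ / ux w lam a ⟨k, 0⟩ :
              (POpen w (mPhi lam a))ˣ) : POpen w (mPhi lam a)) θ =
              (Γ' t).fn (ux w lam a ⟨k, (i k).succ⟩ : POpen w (mPhi lam a)) θ /
              (Γ' t).fn (ux w lam a ⟨k, 0⟩ : POpen w (mPhi lam a)) θ := by
            rw [eq_div_iff h4]
            unfold Torus.fn
            rw [← map_mul, ← Units.val_mul, div_mul_cancel]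
          rw [h3, h5, hux, hux]
        · rw [Fin.append_right]
          have h3 : pent w lam a i (Fin.natAdd n j).succ = uy w (mPhi lam a) j := by
            unfold pent
            rw [Fin.cons_succ, Fin.append_right]
          rw [h3]
          exact huy t j
    rw [h2, h1]
    rfl
  obtain ⟨f, hf⟩ := exists_det_ne_zero
    (fun t i => (Γ' t).reg (symb (pent w lam a i))) (fun c hc => by
      refine ext0_injective ?_
      refine core_zeroF (w := w) (N := N) (ρ := ρ) (b := fun l => nrm σ (D l) (a l)) (R := R)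
        (X := fun i l => X l (i l)) hX hD0 hn hρ hN (ext0 c) (sum_ext0 c) fun i => ?_
      have h1 := hc i
      simp only [hent] at h1
      rw [← h1]
      unfold ext0
      simp only [sum_mul]
      rw [sum_comm]
      refine sum_congr rfl fun t _ => sum_congr rfl fun k _ => ?_
      ring)
  exact ⟨fun t => Γ' (f t), fun t θ y => (hPt (f t) θ).evA_pcst y, hf⟩

end Pool.Agent.J4H54.KT
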