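import Pool.Agent.J4H54.KT.Hyp
set_option autoImplicit false

/-!
The main theorem for real configurations.
-/

namespace Pool.Agent.J4H54.KT

open Pool.Agent.TH826.MK (KQ symb Unramified Torus)

open Pool.Agent.TH826.MH

open Pool.Agent.J4H54.K2 (nrm conf_nrm rad)

open Finset

theorem rad_prod {n : ℕ} (r : Fin (n + 1) → ℕ) (D : Fin (n + 1) → ℝ) (L : ℝ) :
    L * (∏ k, D k ^ (r k + 1)) * ∏ k, (8 / 9 * rad (r k)) =
      L * (∏ k, (D k ^ (r k + 1) * 2 ^ (r k - 3))) / 9 ^ (n + 1) := by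
  have h1 : ∀ k, 8 / 9 * rad (r k) = 2 ^ (r k - 3) / 9 := by
    intro k
    unfold rad
    ring
  simp only [h1]
  rw [prod_div_distrib, prod_mul_distrib, prod_const, card_univ, Fintype.card_fin]
  ring

theorem main {n : ℕ} {r : Fin (n + 1) → ℕ} {K : Type*} [Field K] [NumberField K]
    (σ : K →+* ℂ) (lam : K) (a : ∀ k, Fin (r k + 1) → K) (D : Fin (n + 1) → ℝ)
    (hD : ∀ k, 0 < D k) (hre : ∀ k i, (σ (a k i)).im = 0)
    (hsep : ∀ k i j, i ≠ j → D k ≤ ‖σ (a k i) - σ (a k j)‖)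
    (h : 9 ^ (n + 1) ≤ ‖σ lam‖ * ∏ k, (D k ^ (r k + 1) * 2 ^ (r k - 3))) :
    (∀ x : Fin (n + 1) → ℂ, MvPolynomial.eval₂ σ x (eqn lam a) = 0 →
      ∃ k, MvPolynomial.eval₂ σ x (MvPolynomial.pderiv k (eqn lam a)) ≠ 0) ∧
    ∃ Γ : (∀ k, Fin (r k)) → Torus (CRing lam a) n,
      (∀ t θ (x : K), (Γ t).e θ (fpol lam a (MvPolynomial.C x)) = σ x) ∧
      (Matrix.of fun t i : (∀ k, Fin (r k)) => (Γ t).reg (symb (ent lam a i))).det ≠ 0 := by
  have hg : ∀ k, K2.Good (nrm σ (D k) (a k)) (rad (r k)) := fun k =>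
    (conf_nrm (hD k) (hre k) (hsep k)).good
  have h1 : 1 ≤ ‖σ lam‖ * (∏ k, D k ^ (r k + 1)) * ∏ k, (8 / 9 * rad (r k)) := by
    rw [rad_prod, one_le_div (by positivity)]
    exact h
  refine ⟨fun x hx => smooth hD hg ?_ x hx, exists_tori hD hg h1⟩
  refine h1.trans ?_
  refine mul_le_mul_of_nonneg_left ?_ ?_
  · refine prod_le_prod (fun k _ => ?_) fun k _ => ?_
    · have := (hg k).pos
      positivity
    · have := (hg k).pos
      linarith
  · have : 0 ≤ ∏ k, D k ^ (r k + 1) := prod_nonneg fun k _ => pow_nonneg (hD k).le _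
    positivity

end Pool.Agent.J4H54.KT
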