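import Pool.Agent.J4H54.KT.FibB
import Pool.Agent.J4H54.KT.Main
set_option autoImplicit false

/-!
Smoothness of the fibrations and the main theorem for real configurations.
-/

namespace Pool.Agent.J4H54.KT

open Pool.Agent.TH826.MH (qq eqn_eq pderiv_eqn eval_aeval)

open Pool.Agent.TH690.PF (mPhi fl SmoothPts IndepReg)

open Pool.Agent.J4H54.K2 (nrm prod_nrm conf_nrm rad)

open Finset

variable {K : Type*} [Field K] {n q : ℕ} {m : Fin n → ℕ} {σ : K →+* ℂ} {lam : K}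
  {a : (k : Fin n) → Fin (m k + 1) → K} {D R : Fin n → ℝ}

/-- the values of `Φ` at its critical points are large or zero -/
theorem noncritF (hn : 0 < n) (hD : ∀ k, 0 < D k)
    (hg : ∀ k, K2.Good (nrm σ (D k) (a k)) (R k)) (x : Fin n → ℂ)
    (h0 : MvPolynomial.eval₂ σ x (mPhi lam a) ≠ 0)
    (hcon : ∀ j, MvPolynomial.eval₂ σ x (MvPolynomial.pderiv j (mPhi lam a)) = 0) :
    ‖σ lam‖ * (∏ k, D k ^ (m k + 1)) * ∏ k, (3 / 2 * R k) ≤
      ‖MvPolynomial.eval₂ σ x (mPhi lam a)‖ := by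
  have hP : mPhi lam a = Pool.Agent.TH826.MH.eqn lam a + 1 := by
    unfold mPhi Pool.Agent.TH826.MH.eqn fl
    rw [Fintype.prod_sigma]
    ring
  have hcon' : ∀ k, MvPolynomial.eval₂ σ x
      (MvPolynomial.pderiv k (Pool.Agent.TH826.MH.eqn lam a)) = 0 := by
    intro k
    have h3 := hcon k
    rw [hP, map_add, MvPolynomial.pderiv_one, add_zero] at h3
    exact h3
  have hval : MvPolynomial.eval₂ σ x (mPhi lam a) =
      σ lam * ∏ k, (qq (a k)).eval₂ σ (x k) := by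
    rw [hP, eqn_eq lam a ⟨0, hn⟩, sub_add_cancel, MvPolynomial.eval₂_mul,
      MvPolynomial.eval₂_mul, MvPolynomial.eval₂_C, eval_aeval, MvPolynomial.eval₂_prod,
      ← Finset.mul_prod_erase _ _ (Finset.mem_univ (⟨0, hn⟩ : Fin n))]
    simp only [eval_aeval]
  rw [hval] at h0 ⊢
  have h0' := mul_ne_zero_iff.1 h0
  have hcrit : ∀ k, (Polynomial.derivative (qq (a k))).eval₂ σ (x k) = 0 := by
    intro k
    have h2 := hcon' k
    rw [pderiv_eqn, MvPolynomial.eval₂_mul, MvPolynomial.eval₂_mul, MvPolynomial.eval₂_C,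
      eval_aeval, MvPolynomial.eval₂_prod] at h2
    simp only [eval_aeval] at h2
    have h4 : ∏ l ∈ Finset.univ.erase k, (qq (a l)).eval₂ σ (x l) ≠ 0 :=
      Finset.prod_ne_zero_iff.2 fun l _ => (Finset.prod_ne_zero_iff.1 h0'.2) l
        (Finset.mem_univ l)
    rcases mul_eq_zero.1 h2 with h5 | h5
    · exact absurd h5 h0'.1
    · rcases mul_eq_zero.1 h5 with h6 | h6
      · exact h6
      · exact absurd h6 h4
  have hge := fun k => crit_ge (hD k) (hg k) (hcrit k)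
  have hval' : ∀ k, ‖(qq (a k)).eval₂ σ (x k)‖ = D k ^ (m k + 1) *
      ‖∏ i, (x k / D k - nrm σ (D k) (a k) i)‖ := by
    intro k
    rw [← Polynomial.eval_map, qq_map, eval_qq, prod_nrm (hD k), norm_mul, norm_pow,
      Complex.norm_real, Real.norm_of_nonneg (hD k).le]
  have hfin : ‖σ lam * ∏ k, (qq (a k)).eval₂ σ (x k)‖ = ‖σ lam‖ * (∏ k, D k ^ (m k + 1)) *
      ∏ k, ‖∏ i, (x k / D k - nrm σ (D k) (a k) i)‖ := by
    rw [norm_mul, norm_prod]
    simp only [hval']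
    rw [prod_mul_distrib, ← mul_assoc]
  rw [hfin]
  refine mul_le_mul_of_nonneg_left ?_ ?_
  · exact prod_le_prod (fun k _ => by have := (hg k).pos; positivity) fun k _ => hge k
  · have : 0 ≤ ∏ k, D k ^ (m k + 1) := prod_nonneg fun k _ => pow_nonneg (hD k).le _
    positivity

/-- smoothness, following `Pool.Agent.TH826.UM.smoothPts` -/
theorem smoothPtsF (hn : 0 < n) (w : Fin q → ℕ) (hD : ∀ k, 0 < D k)
    (hg : ∀ k, K2.Good (nrm σ (D k) (a k)) (R k))
    (hlam : ((∑ i, (w i + 1) : ℕ) : ℝ) + 2 <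
      ‖σ lam‖ * (∏ k, D k ^ (m k + 1)) * ∏ k, (3 / 2 * R k)) :
    SmoothPts w σ (mPhi lam a) := by
  intro x y z Y t hY ht heq
  set w0 : ℕ := ∑ i, (w i + 1) with hw0
  by_contra hcon
  push Not at hcon
  obtain ⟨h1, h2, h3⟩ := hcon
  set Φ : ℂ := MvPolynomial.eval₂ σ x (mPhi lam a) with hΦdef
  have hYz : Y ≠ 0 ∧ z ≠ 0 := by
    constructor
    · intro h
      rw [h] at heq
      norm_num at heq
    · intro h
      rw [h] at heq
      norm_num at heq
  obtain ⟨hY0, hz0⟩ := hYz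
  have hYz2 : Y * z ^ 2 = 1 := by linear_combination z * h1 - heq
  have hyz : ∀ i, y i = (w i + 1) * z := by
    intro i
    have h4 := h2 i
    have h5 : y i ^ (w i + 1) * ∏ k ∈ Finset.univ.erase i, y k ^ (w k + 1) = Y := by
      rw [hY]
      exact Finset.mul_prod_erase Finset.univ (fun k => y k ^ (w k + 1)) (Finset.mem_univ i)
    rw [pow_succ] at h5
    have h6 : Y * z * (y i - (w i + 1) * z) = 0 := by
      linear_combination y i * h4 - (w i + 1) * (z ^ 2 + t * z) * h5 -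
        (w i + 1) * heq - (w i + 1) * hYz2
    rcases mul_eq_zero.1 h6 with h | h
    · exact absurd h (mul_ne_zero hY0 hz0)
    · exact sub_eq_zero.1 h
  have hYq : Y = ((∏ i, (w i + 1) ^ (w i + 1) : ℕ) : ℂ) * z ^ w0 := by
    rw [hY, hw0, Nat.cast_prod, ← Finset.prod_pow_eq_pow_sum, ← Finset.prod_mul_distrib]
    refine Finset.prod_congr rfl fun i _ => ?_
    rw [hyz, mul_pow]
    push_cast
    rfl
  have hS : ∑ i, y i = w0 * z := by
    simp only [hyz]
    rw [← Finset.sum_mul, hw0]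
    push_cast
    rfl
  have hnz : ‖z‖ ≤ 1 := by
    have h4 : ((∏ i, (w i + 1) ^ (w i + 1) : ℕ) : ℂ) * z ^ (w0 + 2) = 1 := by
      rw [pow_add, ← mul_assoc, ← hYq, hYz2]
    have h5 := congrArg norm h4
    rw [norm_mul, norm_pow, norm_one, Complex.norm_natCast] at h5
    have h6 : (1 : ℝ) ≤ ((∏ i, (w i + 1) ^ (w i + 1) : ℕ) : ℝ) := by
      exact_mod_cast Finset.one_le_prod' fun i _ => Nat.one_le_pow _ _ (Nat.succ_pos _)
    by_contra hcon
    push Not at hcon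
    have h7 : 1 < ‖z‖ ^ (w0 + 2) := one_lt_pow₀ hcon (by omega)
    nlinarith
  have hPhi : Φ = (w0 + 2) * z := by
    rw [ht, hS] at h1
    have h4 : Y * (2 * z + (w0 * z - Φ)) = 0 := by linear_combination h1
    rcases mul_eq_zero.1 h4 with h | h
    · exact absurd h hY0
    · linear_combination -h
  have hq2 : (w0 + 2 : ℂ) ≠ 0 := by
    exact_mod_cast (show w0 + 2 ≠ 0 by omega)
  have hΦn : ‖Φ‖ ≤ w0 + 2 := by
    have h4 : ‖(w0 + 2 : ℂ)‖ = w0 + 2 := by
      have h5 : (w0 + 2 : ℂ) = ((w0 + 2 : ℝ) : ℂ) := by push_cast; ring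
      rw [h5, Complex.norm_real, Real.norm_eq_abs, abs_of_pos (by positivity)]
    rw [hPhi, norm_mul, h4]
    calc ((w0 : ℝ) + 2) * ‖z‖ ≤ (w0 + 2) * 1 :=
          mul_le_mul_of_nonneg_left hnz (by positivity)
      _ = w0 + 2 := mul_one _
  have h5 := noncritF hn hD hg x (by
    rw [← hΦdef, hPhi]
    exact mul_ne_zero hq2 hz0) (fun j => by
    have h4 := h3 j
    rw [mul_eq_zero, or_iff_left hz0, mul_eq_zero, neg_eq_zero, or_iff_right hY0] at h4
    exact h4)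
  rw [← hΦdef] at h5
  linarith

theorem main_fib {K : Type*} [Field K] [NumberField K] {n q : ℕ} (w : Fin q → ℕ)
    {m : Fin (n + 1) → ℕ} (σ : K →+* ℂ) (lam : K) (a : (k : Fin (n + 1)) → Fin (m k + 1) → K)
    (D : Fin (n + 1) → ℝ) (hD : ∀ k, 0 < D k) (hre : ∀ k i, (σ (a k i)).im = 0)
    (hsep : ∀ k i j, i ≠ j → D k ≤ ‖σ (a k i) - σ (a k j)‖)
    (h : 3 * (2 + ∑ i, ((w i : ℝ) + 1)) * 9 ^ (n + 1) ≤
      ‖σ lam‖ * ∏ k, (D k ^ (m k + 1) * 2 ^ (m k - 3))) :
    SmoothPts w σ (mPhi lam a) ∧ IndepReg w σ lam a := by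
  have hg : ∀ k, K2.Good (nrm σ (D k) (a k)) (rad (m k)) := fun k =>
    (conf_nrm (hD k) (hre k) (hsep k)).good
  have hw : (q : ℝ) ≤ ∑ i, ((w i : ℝ) + 1) := by
    rw [Finset.sum_add_distrib, Finset.sum_const, Finset.card_univ, Fintype.card_fin,
      nsmul_eq_mul, mul_one]
    have : 0 ≤ ∑ i, (w i : ℝ) := Finset.sum_nonneg fun i _ => Nat.cast_nonneg _
    linarith
  have hq : (0 : ℝ) ≤ q := Nat.cast_nonneg q
  have h1 : 3 * (2 + ∑ i, ((w i : ℝ) + 1)) ≤
      ‖σ lam‖ * (∏ k, D k ^ (m k + 1)) * ∏ k, (8 / 9 * rad (m k)) := by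
    rw [rad_prod, le_div_iff₀ (by positivity)]
    exact h
  refine ⟨smoothPtsF (Nat.succ_pos n) w hD hg ?_, indepRegF (Nat.succ_pos n) w hD hg ?_⟩
  · have h2 : ‖σ lam‖ * (∏ k, D k ^ (m k + 1)) * ∏ k, (8 / 9 * rad (m k)) ≤
        ‖σ lam‖ * (∏ k, D k ^ (m k + 1)) * ∏ k, (3 / 2 * rad (m k)) := by
      refine mul_le_mul_of_nonneg_left ?_ ?_
      · refine prod_le_prod (fun k _ => ?_) fun k _ => ?_
        · have := (hg k).pos
          positivity
        · have := (hg k).pos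
          linarith
      · have : 0 ≤ ∏ k, D k ^ (m k + 1) := prod_nonneg fun k _ => pow_nonneg (hD k).le _
        positivity
    push_cast
    linarith
  · linarith

end Pool.Agent.J4H54.KT
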