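import Pool.Agent.TH826.MK.OneVar
set_option autoImplicit false

/-!
The sign of an integral over a cube from the sign of the integrals over slices.
-/

namespace Pool.Agent.J4H54.KT

open MeasureTheory Set

open Pool.Agent.TH826.MK (restrict_Icc)

/-- glueing -/
def ap {n q : ℕ} (z : Fin (n + 1) → ℝ) (φ : Fin q → ℝ) (i : Fin (n + q + 1)) : ℝ :=
  if h : i.val < n + 1 then z ⟨i.val, h⟩ else φ ⟨i.val - (n + 1), by omega⟩

theorem ap_zero {n q : ℕ} (z : Fin (n + 1) → ℝ) (φ : Fin q → ℝ) : ap z φ 0 = z 0 := by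
  unfold ap
  rw [dif_pos (by simp)]
  rfl

theorem ap_left {n q : ℕ} (z : Fin (n + 1) → ℝ) (φ : Fin q → ℝ) (k : Fin n) :
    ap z φ (Fin.castAdd q k).succ = z k.succ := by
  unfold ap
  rw [dif_pos (by simp)]
  rfl

theorem ap_right {n q : ℕ} (z : Fin (n + 1) → ℝ) (φ : Fin q → ℝ) (j : Fin q) :
    ap z φ (Fin.natAdd n j).succ = φ j := by
  unfold ap
  rw [dif_neg (by simp)]
  congr 1
  ext
  simp

theorem continuous_ap {n q : ℕ} (φ : Fin q → ℝ) :
    Continuous fun z : Fin (n + 1) → ℝ => ap z φ := by
  refine continuous_pi fun i => ?_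
  unfold ap
  split_ifs with h
  · exact continuous_apply _
  · exact continuous_const

theorem insert_ap {n q : ℕ} (z : Fin (n + 1) → ℝ) (φ : Fin q → ℝ) (s : ℝ) :
    ((Fin.last (n + q + 1)).insertNth s (ap z φ) : Fin (n + q + 1 + 1) → ℝ) =
      ap (q := q + 1) z (Fin.snoc φ s) := by
  rw [Fin.insertNth_last']
  funext i
  refine Fin.lastCases ?_ (fun i => ?_) i
  · rw [Fin.snoc_last]
    unfold ap
    rw [dif_neg (by simp)]
    have h : (⟨(Fin.last (n + q + 1)).val - (n + 1), by simp⟩ : Fin (q + 1)) =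
        Fin.last q := by
      ext
      simp
    exact (congrArg (Fin.snoc φ s : Fin (q + 1) → ℝ) h |>.trans (Fin.snoc_last _ _)).symm
  · rw [Fin.snoc_castSucc]
    unfold ap
    by_cases hi : i.val < n + 1
    · rw [dif_pos hi, dif_pos (by simpa using hi)]
      rfl
    · rw [dif_neg hi, dif_neg (by simpa using hi)]
      have h : (⟨(Fin.castSucc i).val - (n + 1), by simp; omega⟩ : Fin (q + 1)) =
          Fin.castSucc ⟨i.val - (n + 1), by omega⟩ := by
        ext
        simp
      exact ((congrArg (Fin.snoc φ s : Fin (q + 1) → ℝ) h).trans (Fin.snoc_castSucc _ _ _)).symm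

theorem pos_of_pos {f : ℝ → ℝ} (hf : Integrable f ((volume : Measure ℝ).restrict (Icc 0 1)))
    (h : ∀ s, 0 < f s) : 0 < ∫ s in Icc (0 : ℝ) 1, f s := by
  refine (integral_pos_iff_support_of_nonneg (fun s => (h s).le) hf).2 ?_
  have h1 : Function.support f = univ := by
    ext s
    simp [(h s).ne']
  rw [h1, Measure.restrict_apply_univ]
  simp

theorem fub_pos (n : ℕ) : ∀ (q : ℕ) (E : (Fin (n + q + 1) → ℝ) → ℝ), Continuous E →
    (∀ φ : Fin q → ℝ, 0 < ∫ z in Icc (0 : Fin (n + 1) → ℝ) 1, E (ap z φ)) →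
    0 < ∫ y in Icc (0 : Fin (n + q + 1) → ℝ) 1, E y := by
  intro q
  induction q with
  | zero =>
    intro E _ h
    have h1 := h Fin.elim0
    have e : ∀ z : Fin (n + 1) → ℝ, ap (q := 0) z Fin.elim0 = z := by
      intro z
      funext i
      unfold ap
      rw [dif_pos i.2]
    simp only [e] at h1
    exact h1
  | succ q ih =>
    intro E hE h
    set N : ℕ := n + q + 1 with hN
    have hcont : Continuous fun p : ℝ × (Fin N → ℝ) =>
        E ((Fin.last N).insertNth p.1 p.2 : Fin (N + 1) → ℝ) := by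
      refine hE.comp ?_
      refine continuous_pi fun l => ?_
      rcases Fin.eq_self_or_eq_succAbove (Fin.last N) l with h | ⟨i, h⟩
      · subst h
        simpa using continuous_fst
      · subst h
        simp only [Fin.insertNth_apply_succAbove]
        exact (continuous_apply i).comp continuous_snd
    have h1 := measurePreserving_piFinSuccAbove
      (fun _ : Fin (N + 1) => (volume : Measure ℝ).restrict (Icc 0 1)) (Fin.last N)
    have h2 := h1.integral_comp' (fun p : ℝ × (Fin N → ℝ) =>
      E ((Fin.last N).insertNth p.1 p.2 : Fin (N + 1) → ℝ))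
    have e : ∀ y : Fin (N + 1) → ℝ, (fun p : ℝ × (Fin N → ℝ) =>
        E ((Fin.last N).insertNth p.1 p.2 : Fin (N + 1) → ℝ))
        (MeasurableEquiv.piFinSuccAbove (fun _ => ℝ) (Fin.last N) y) = E y := by
      intro y
      show E ((Fin.last N).insertNth (y (Fin.last N)) ((Fin.last N).removeNth y)) = E y
      rw [Fin.insertNth_self_removeNth]
    simp only [e] at h2
    have hint : Integrable (fun p : ℝ × (Fin N → ℝ) =>
        E ((Fin.last N).insertNth p.1 p.2 : Fin (N + 1) → ℝ))
        (((volume : Measure ℝ).restrict (Icc 0 1)).prod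
          (Measure.pi fun _ : Fin N => (volume : Measure ℝ).restrict (Icc 0 1))) := by
      rw [← restrict_Icc, Measure.prod_restrict]
      exact hcont.continuousOn.integrableOn_compact (isCompact_Icc.prod isCompact_Icc)
    have h3 : ∫ y in Icc (0 : Fin (n + (q + 1) + 1) → ℝ) 1, E y =
        ∫ s in Icc (0 : ℝ) 1, ∫ z in Icc (0 : Fin N → ℝ) 1,
          E ((Fin.last N).insertNth s z : Fin (N + 1) → ℝ) := by
      rw [restrict_Icc]
      refine h2.trans ?_
      rw [integral_prod _ hint, ← restrict_Icc]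
    rw [h3]
    refine pos_of_pos ?_ fun s => ?_
    · have h4 := hint.integral_prod_left
      rw [← restrict_Icc] at h4
      exact h4
    · refine ih (fun z => E ((Fin.last N).insertNth s z : Fin (N + 1) → ℝ)) ?_ fun φ => ?_
      · exact hcont.comp (continuous_const.prodMk continuous_id)
      · have h5 := h (Fin.snoc φ s)
        refine lt_of_lt_of_eq h5 ?_
        congr 1
        funext z
        rw [← insert_ap]

end Pool.Agent.J4H54.KT
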