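import Pool.Agent.TH826.MK.OneVar
set_option autoImplicit false

/-!
Integrals over the torus `x_0 = x_1 + ... + x_n` of products of functions of the coordinates.
-/

namespace Pool.Agent.J4H54.KT

open MeasureTheory Set

open Pool.Agent.TH826.MK (restrict_Icc tl tl_apply)

variable {n : ℕ}

/-- A continuous function whose integrals in one direction vanish. -/
theorem int_zero (m : Fin (n + 1)) {F : (Fin (n + 1) → ℝ) → ℂ} (hF : Continuous F)
    (h : ∀ y, ∫ s in Icc (0 : ℝ) 1, F (Function.update y m s) = 0) :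
    ∫ y in Icc (0 : Fin (n + 1) → ℝ) 1, F y = 0 := by
  rw [restrict_Icc]
  have h1 := measurePreserving_piFinSuccAbove
    (fun _ : Fin (n + 1) => (volume : Measure ℝ).restrict (Icc 0 1)) m
  have h2 := h1.integral_comp' (fun p : ℝ × (Fin n → ℝ) => F (m.insertNth p.1 p.2))
  have e : ∀ y : Fin (n + 1) → ℝ, (fun p : ℝ × (Fin n → ℝ) => F (m.insertNth p.1 p.2))
      (MeasurableEquiv.piFinSuccAbove (fun _ => ℝ) m y) = F y := by
    intro y
    show F (m.insertNth (y m) (m.removeNth y)) = F y
    rw [Fin.insertNth_self_removeNth]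
  simp only [e] at h2
  rw [h2, integral_prod_symm]
  · have h3 : ∀ z : Fin n → ℝ, ∫ s in Icc (0 : ℝ) 1, F (m.insertNth s z) = 0 := by
      intro z
      have h4 := h (m.insertNth 0 z)
      simpa using h4
    simp only [h3, integral_zero]
  · rw [← restrict_Icc, Measure.prod_restrict]
    refine ContinuousOn.integrableOn_compact (isCompact_Icc.prod isCompact_Icc) ?_
    refine Continuous.continuousOn (hF.comp ?_)
    refine continuous_pi fun l => ?_
    rcases Fin.eq_self_or_eq_succAbove m l with h | ⟨i, h⟩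
    · subst h
      simpa using continuous_fst
    · subst h
      simp only [Fin.insertNth_apply_succAbove]
      exact (continuous_apply i).comp continuous_snd

/-- the coordinates `x_0 = ∑ θ_j` and `x_{j+1} = θ_j` -/
def co (θ : Fin n → ℝ) : Fin (n + 1) → ℝ := Fin.cons (∑ j, θ j) θ

theorem continuous_co (l : Fin (n + 1)) : Continuous fun θ : Fin n → ℝ => co θ l := by
  refine Fin.cases ?_ (fun j => ?_) l
  · show Continuous fun θ : Fin n → ℝ => ∑ j, θ j
    exact continuous_finsetSum _ fun j _ => continuous_apply j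
  · exact continuous_apply j

/-- continuous functions of `t` and `x`, periodic in `x` -/
structure Fn (H : ℝ → ℝ → ℂ) : Prop where
  cont : Continuous fun p : ℝ × ℝ => H p.1 p.2
  per : ∀ t x, H t (x + 1) = H t x

/-- the integrals over `x` vanish -/
def Mz (H : ℝ → ℝ → ℂ) : Prop := ∀ t, ∫ x in (0 : ℝ)..1, H t x = 0

theorem Fn.const (c : ℂ) : Fn fun _ _ => c := ⟨continuous_const, fun _ _ => rfl⟩

/-- the integral over the torus -/
noncomputable def J (H : Fin (n + 1) → ℝ → ℝ → ℂ) : ℂ :=
  ∫ y in Icc (0 : Fin (n + 1) → ℝ) 1, ∏ l, H l (y 0) (co (tl n y) l)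

theorem continuous_J {H : Fin (n + 1) → ℝ → ℝ → ℂ} (hH : ∀ l, Fn (H l)) :
    Continuous fun y : Fin (n + 1) → ℝ => ∏ l, H l (y 0) (co (tl n y) l) := by
  refine continuous_finsetProd _ fun l _ => ?_
  have h7 : Continuous fun y : Fin (n + 1) → ℝ => ((y 0, co (tl n y) l) : ℝ × ℝ) :=
    (continuous_apply 0).prodMk ((continuous_co l).comp (tl n).continuous)
  exact (hH l).cont.comp h7

/-- One factor is constant, and another one has vanishing integrals; the first case. -/
theorem J_zero1 {H : Fin (n + 1) → ℝ → ℝ → ℂ} (hH : ∀ l, Fn (H l)) (h0 : ∀ t x, H 0 t x = H 0 t 0)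
    {j : Fin n} (hj : Mz (H j.succ)) : J H = 0 := by
  refine int_zero j.succ (continuous_J hH) fun y => ?_
  have hne : (0 : Fin (n + 1)) ≠ j.succ := (Fin.succ_ne_zero j).symm
  have e : ∀ s : ℝ, ∏ l, H l ((Function.update y j.succ s) 0)
      (co (tl n (Function.update y j.succ s)) l) =
      (∏ l ∈ Finset.univ.erase j.succ, H l (y 0) (co (tl n y) l)) * H j.succ (y 0) s := by
    intro s
    rw [← Finset.mul_prod_erase _ _ (Finset.mem_univ j.succ), mul_comm,
      Function.update_of_ne hne]
    congr 1
    · refine Finset.prod_congr rfl fun l hl => ?_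
      have hl' := Finset.ne_of_mem_erase hl
      revert hl'
      refine Fin.cases ?_ (fun l => ?_) l
      · intro _
        rw [h0 _ (co _ 0), h0 _ (co (tl n y) 0)]
      · intro hl'
        show H l.succ (y 0) ((Function.update y j.succ s) l.succ) = H l.succ (y 0) (y l.succ)
        rw [Function.update_of_ne hl']
    · show H j.succ (y 0) ((Function.update y j.succ s) j.succ) = _
      rw [Function.update_self]
  simp only [e]
  rw [integral_const_mul]
  have h1 := hj (y 0)
  rw [intervalIntegral.integral_of_le zero_le_one, ← integral_Icc_eq_integral_Ioc] at h1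
  rw [h1, mul_zero]

/-- the second case -/
theorem J_zero2 {H : Fin (n + 1) → ℝ → ℝ → ℂ} (hH : ∀ l, Fn (H l)) (h0 : Mz (H 0))
    {j : Fin n} (hj : ∀ t x, H j.succ t x = H j.succ t 0) : J H = 0 := by
  refine int_zero j.succ (continuous_J hH) fun y => ?_
  have hne : (0 : Fin (n + 1)) ≠ j.succ := (Fin.succ_ne_zero j).symm
  set c : ℝ := ∑ i ∈ Finset.univ.erase j, y i.succ with hc
  have e : ∀ s : ℝ, ∏ l, H l ((Function.update y j.succ s) 0)
      (co (tl n (Function.update y j.succ s)) l) =
      (∏ l ∈ Finset.univ.erase 0, H l (y 0) (co (tl n y) l)) * H 0 (y 0) (s + c) := by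
    intro s
    rw [← Finset.mul_prod_erase _ _ (Finset.mem_univ 0), mul_comm,
      Function.update_of_ne hne]
    congr 1
    · refine Finset.prod_congr rfl fun l hl => ?_
      have hl' := Finset.ne_of_mem_erase hl
      revert hl'
      refine Fin.cases ?_ (fun l => ?_) l
      · intro h
        exact absurd rfl h
      · intro _
        show H l.succ (y 0) ((Function.update y j.succ s) l.succ) = H l.succ (y 0) (y l.succ)
        by_cases hlj : l = j
        · subst hlj
          rw [hj _ ((Function.update y l.succ s) l.succ), hj _ (y l.succ)]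
        · rw [Function.update_of_ne fun h => hlj (Fin.succ_injective _ h)]
    · show H 0 (y 0) (∑ i : Fin n, (Function.update y j.succ s) i.succ) = _
      congr 1
      rw [← Finset.add_sum_erase _ _ (Finset.mem_univ j), Function.update_self]
      congr 1
      refine Finset.sum_congr rfl fun i hi => ?_
      rw [Function.update_of_ne fun h => (Finset.ne_of_mem_erase hi) (Fin.succ_injective _ h)]
  simp only [e]
  rw [integral_const_mul]
  have h1 : ∫ s in (0 : ℝ)..1, H 0 (y 0) (s + c) = 0 := by
    rw [intervalIntegral.integral_comp_add_right (fun s => H 0 (y 0) s)]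
    have h2 : Function.Periodic (H 0 (y 0)) 1 := fun x => (hH 0).per _ x
    have h3 := h2.intervalIntegral_add_eq 0 c
    rw [zero_add] at h3
    rw [zero_add, add_comm 1 c, ← h3]
    exact h0 _
  rw [intervalIntegral.integral_of_le zero_le_one, ← integral_Icc_eq_integral_Ioc] at h1
  rw [h1, mul_zero]

theorem J_zero {H : Fin (n + 1) → ℝ → ℝ → ℂ} (hH : ∀ l, Fn (H l)) {a b : Fin (n + 1)}
    (ha : ∀ t x, H a t x = H a t 0) (hb : Mz (H b)) (hall : ∀ l, (∀ t x, H l t x = H l t 0) ∨
      Mz (H l)) (hab : a ≠ b) : J H = 0 := by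
  rcases hall 0 with h0 | h0
  · by_cases hb0 : b = 0
    · subst hb0
      -- then `a` is not zero
      obtain ⟨j, rfl⟩ := Fin.exists_succ_eq.2 hab
      exact J_zero2 hH hb ha
    · obtain ⟨j, rfl⟩ := Fin.exists_succ_eq.2 hb0
      exact J_zero1 hH h0 hb
  · by_cases ha0 : a = 0
    · subst ha0
      obtain ⟨j, rfl⟩ := Fin.exists_succ_eq.2 hab.symm
      exact J_zero1 hH ha hb
    · obtain ⟨j, rfl⟩ := Fin.exists_succ_eq.2 ha0
      exact J_zero2 hH h0 ha

/-- The product of the constants and the product of the functions with vanishing integrals. -/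
theorem J_add {C : Fin (n + 1) → ℂ} {M : Fin (n + 1) → ℝ → ℝ → ℂ} (hM : ∀ l, Fn (M l))
    (hz : ∀ l, Mz (M l)) : J (fun l t x => C l + M l t x) = ∏ l, C l + J M := by
  classical
  set H : Finset (Fin (n + 1)) → Fin (n + 1) → ℝ → ℝ → ℂ := fun S l =>
    if l ∈ S then fun _ _ => C l else M l with hH
  have hFn : ∀ S l, Fn (H S l) := by
    intro S l
    simp only [hH]
    split_ifs
    · exact Fn.const _
    · exact hM l
  have e : ∀ y : Fin (n + 1) → ℝ, ∏ l, (C l + M l (y 0) (co (tl n y) l)) =
      ∑ S : Finset (Fin (n + 1)), ∏ l, H S l (y 0) (co (tl n y) l) := by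
    intro y
    rw [Fintype.prod_add]
    refine Finset.sum_congr rfl fun S _ => ?_
    rw [← Finset.prod_mul_prod_compl S]
    congr 1
    · refine Finset.prod_congr rfl fun l hl => ?_
      simp only [hH, if_pos hl]
    · refine Finset.prod_congr rfl fun l hl => ?_
      simp only [hH, if_neg (Finset.mem_compl.1 hl)]
  have h1 : J (fun l t x => C l + M l t x) = ∑ S : Finset (Fin (n + 1)), J (H S) := by
    unfold J
    simp only [e]
    rw [integral_finsetSum]
    intro S _
    exact (continuous_J (hFn S)).continuousOn.integrableOn_compact isCompact_Icc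
  have hmid : ∀ S : Finset (Fin (n + 1)), S ≠ Finset.univ → S ≠ ∅ → J (H S) = 0 := by
    intro S hS1 hS2
    obtain ⟨a, ha⟩ := Finset.nonempty_iff_ne_empty.2 hS2
    obtain ⟨b, hb⟩ : ∃ b, b ∉ S := by
      by_contra hcon
      push Not at hcon
      exact hS1 (Finset.eq_univ_iff_forall.2 hcon)
    refine J_zero (hFn S) (a := a) (b := b) ?_ ?_ ?_ ?_
    · intro t x
      simp only [hH, if_pos ha]
    · simp only [hH, if_neg hb]
      exact hz b
    · intro l
      by_cases hl : l ∈ S
      · left
        intro t x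
        simp only [hH, if_pos hl]
      · right
        simp only [hH, if_neg hl]
        exact hz l
    · rintro rfl
      exact hb ha
  have huniv : J (H Finset.univ) = ∏ l, C l := by
    unfold J
    simp only [hH, Finset.mem_univ, if_true]
    rw [setIntegral_const]
    have hv : (volume : Measure (Fin (n + 1) → ℝ)).real (Icc 0 1) = 1 := by
      rw [measureReal_def, Real.volume_Icc_pi]
      simp
    rw [hv, one_smul]
  have hempty : J (H ∅) = J M := by
    simp only [hH, Finset.notMem_empty, if_false]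
  rw [h1, ← Finset.add_sum_erase _ _ (Finset.mem_univ (Finset.univ : Finset (Fin (n + 1)))),
    huniv]
  congr 1
  rw [← Finset.add_sum_erase _ _ (Finset.mem_erase.2 ⟨?_, Finset.mem_univ
    (∅ : Finset (Fin (n + 1)))⟩), hempty, Finset.sum_eq_zero, add_zero]
  · intro S hS
    have h2 := Finset.mem_erase.1 hS
    exact hmid S (Finset.ne_of_mem_erase h2.2) h2.1
  · exact (Finset.univ_nonempty.ne_empty).symm

/-- the bound -/
theorem norm_J_le {M : Fin (n + 1) → ℝ → ℝ → ℂ} {B : Fin (n + 1) → ℝ}
    (hB : ∀ l, ∀ t ∈ Icc (0 : ℝ) 1, ∀ x, ‖M l t x‖ ≤ B l) : ‖J M‖ ≤ ∏ l, B l := by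
  have h1 : ‖∫ y in Icc (0 : Fin (n + 1) → ℝ) 1, ∏ l, M l (y 0) (co (tl n y) l)‖ ≤
      (∏ l, B l) * (volume : Measure (Fin (n + 1) → ℝ)).real (Icc 0 1) := by
    refine norm_setIntegral_le_of_norm_le_const (isCompact_Icc.measure_lt_top) fun y hy => ?_
    rw [norm_prod]
    exact Finset.prod_le_prod (fun l _ => norm_nonneg _) fun l _ =>
      hB l (y 0) ⟨hy.1 0, hy.2 0⟩ _
  have hv : (volume : Measure (Fin (n + 1) → ℝ)).real (Icc 0 1) = 1 := by
    rw [measureReal_def, Real.volume_Icc_pi]
    simp
  rw [hv, mul_one] at h1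
  exact h1

end Pool.Agent.J4H54.KT
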