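import Pool.Agent.J4H54.KT.Fub
import Pool.Agent.J4H54.KT.Det
import Pool.Agent.TH826.UM.FB
set_option autoImplicit false

/-!
The regulator integrand on tori of dimension `n + q` in the fibrations.
-/

namespace Pool.Agent.J4H54.KT

open MeasureTheory Set

open Pool.Agent.TH826.MK (restrict_Icc tl tl_apply lw grow grow_zero grow_succ integrand pairing
  lw_vf_ne lw_vf_self circ norm_circ contDiff_circ hasDerivAt_circ vf)

open Pool.Agent.TH826.UM (yT norm_yT)

variable {n q : ℕ}

theorem det_bord_gen {N : ℕ} (v : Fin (N + 1) → ℂ) (a b : Fin N → ℂ) :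
    (bord v a b).det = v 0 * ∏ m, b m -
      ∑ m, v m.succ * (a m * ∏ l ∈ Finset.univ.erase m, b l) := by
  rw [det_bord_sum, Fin.sum_univ_succ, det_bord_one, sub_eq_add_neg, ← Finset.sum_neg_distrib]
  congr 1
  refine Finset.sum_congr rfl fun m _ => ?_
  rw [det_bord_succ]
  ring

theorem prod_erase_append (f : Fin n → ℂ) (c : ℂ) (k : Fin n) :
    ∏ l ∈ Finset.univ.erase (Fin.castAdd q k), (Fin.append f (fun _ : Fin q => c) l) =
      c ^ q * ∏ l ∈ Finset.univ.erase k, f l := by
  classical
  have h1 : ∀ {m : ℕ} (g : Fin m → ℂ) (a : Fin m), ∏ l ∈ Finset.univ.erase a, g l =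
      ∏ l, if l = a then 1 else g l := by
    intro m g a
    rw [← Finset.mul_prod_erase Finset.univ _ (Finset.mem_univ a), if_pos rfl, one_mul]
    exact Finset.prod_congr rfl fun l hl => (if_neg (Finset.ne_of_mem_erase hl)).symm
  rw [h1, h1, Fin.prod_univ_add]
  have h2 : ∀ i : Fin q, (if Fin.natAdd n i = Fin.castAdd q k then (1 : ℂ) else
      Fin.append f (fun _ : Fin q => c) (Fin.natAdd n i)) = c := by
    intro i
    rw [Fin.append_right, if_neg]
    intro h
    have h2 := congrArg Fin.val h
    rw [Fin.val_natAdd, Fin.val_castAdd] at h2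
    have := k.isLt
    omega
  simp only [h2, Finset.prod_const, Finset.card_univ, Fintype.card_fin]
  rw [mul_comm]
  congr 1
  refine Finset.prod_congr rfl fun i _ => ?_
  rw [Fin.append_left]
  by_cases h : i = k
  · rw [if_pos h, if_pos (by rw [h])]
  · rw [if_neg h, if_neg (fun h' => h (Fin.castAdd_injective _ _ h'))]

theorem det_append (v : Fin (n + q + 1) → ℂ) (a b : Fin n → ℂ) (c : ℂ) :
    (bord v (Fin.append a fun _ : Fin q => 0) (Fin.append b fun _ => c)).det =
      c ^ q * (bord (Fin.cons (v 0) fun m => v (Fin.castAdd q m).succ) a b).det := by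
  rw [det_bord_gen, det_bord_gen, Fin.sum_univ_add, Fin.prod_univ_add]
  simp only [Fin.append_left, Fin.append_right, zero_mul, mul_zero, Finset.sum_const_zero,
    add_zero, prod_erase_append, Finset.prod_const, Finset.card_univ, Fintype.card_fin,
    Fin.cons_zero, Fin.cons_succ]
  rw [mul_sub, Finset.mul_sum]
  congr 1
  · ring
  · exact Finset.sum_congr rfl fun m _ => by ring

/-- the integrand as a determinant -/
theorem integrand_bord {G : Fin (n + 1) → ℝ → ℂ} (hG : ∀ l, ContDiff ℝ 2 (G l))
    (y : Fin (n + 1) → ℝ) : integrand (tf G) y =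
      (bord (Fin.cons (pt (G 0) (y 0) (co (tl n y) 0)) fun _ => qt (G 0) (y 0) (co (tl n y) 0))
        (fun m => pt (G m.succ) (y 0) (co (tl n y) m.succ))
        (fun m => qt (G m.succ) (y 0) (co (tl n y) m.succ))).det.re := by
  classical
  rw [integrand_tf hG]
  have h1 : ∀ l, ∏ j, (Function.update (fun j => qt (G j)) l (pt (G l))) j (y 0)
        (co (tl n y) j) = ∏ j, Function.update (fun j => qt (G j) (y 0) (co (tl n y) j)) l
          (pt (G l) (y 0) (co (tl n y) l)) j := by
    intro l
    refine Finset.prod_congr rfl fun j _ => ?_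
    by_cases hj : j = l
    · subst hj
      rw [Function.update_self, Function.update_self]
    · rw [Function.update_of_ne hj, Function.update_of_ne hj]
  simp only [h1]
  rw [← det_bord' (fun l => pt (G l) (y 0) (co (tl n y) l))
    (fun l => qt (G l) (y 0) (co (tl n y) l))]

/-- the functions on the torus of dimension `n + q` -/
noncomputable def FF (Z : (Fin (n + q) → ℝ) → ℂ) (G : Fin n → ℝ → ℂ) :
    Fin (n + q + 1) → (Fin (n + q) → ℝ) → ℂ :=
  Fin.cons Z (Fin.append (fun k θ => G k (θ (Fin.castAdd q k))) fun j θ => yT n θ j)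

variable {Z : (Fin (n + q) → ℝ) → ℂ} {G : Fin n → ℝ → ℂ} {Zp : (Fin q → ℝ) → ℝ → ℂ}

theorem lw_Z (hZc : ContDiff ℝ 2 Z) (hZ : ∀ θ, Z θ = Zp (fun j => θ (Fin.natAdd n j))
    (∑ k, θ (Fin.castAdd q k))) (m : Fin n) (θ : Fin (n + q) → ℝ) :
    lw Z (Fin.castAdd q m) θ =
      ld (Zp fun j => θ (Fin.natAdd n j)) (∑ k, θ (Fin.castAdd q k)) := by
  have h1 : HasFDerivAt Z (fderiv ℝ Z θ) θ :=
    ((hZc.differentiable (by norm_num)) θ).hasFDerivAt
  have h2 := h1.hasLineDerivAt (Pi.single (Fin.castAdd q m) (1 : ℝ))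
  unfold HasLineDerivAt at h2
  have e : (fun t : ℝ => Z (θ + t • Pi.single (Fin.castAdd q m) (1 : ℝ))) = fun t =>
      Zp (fun j => θ (Fin.natAdd n j)) (∑ k, θ (Fin.castAdd q k) + t) := by
    funext t
    rw [hZ]
    congr 1
    · funext j
      have hne : Fin.natAdd n j ≠ Fin.castAdd q m := by
        intro h
        have h2 := congrArg Fin.val h
        rw [Fin.val_natAdd, Fin.val_castAdd] at h2
        have := m.isLt
        omega
      simp [Pi.single_eq_of_ne hne]
    · simp only [Pi.add_apply, Pi.smul_apply, smul_eq_mul, Finset.sum_add_distrib]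
      congr 1
      rw [Finset.sum_eq_single m]
      · rw [Pi.single_eq_same, mul_one]
      · intro b _ hb
        rw [Pi.single_eq_of_ne (fun h => hb (Fin.castAdd_injective _ _ h)), mul_zero]
      · intro h
        exact absurd (Finset.mem_univ m) h
  rw [e] at h2
  set s := ∑ k, θ (Fin.castAdd q k) with hs
  have h3 : HasDerivAt (fun x => Zp (fun j => θ (Fin.natAdd n j)) (s + (x - s)))
      (fderiv ℝ Z θ (Pi.single (Fin.castAdd q m) 1)) s := by
    have h4 : HasDerivAt (fun t => Zp (fun j => θ (Fin.natAdd n j)) (s + t))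
        (fderiv ℝ Z θ (Pi.single (Fin.castAdd q m) 1)) (s - s) := by
      rw [sub_self]
      exact h2
    exact h4.comp_sub_const s s
  have e2 : (fun x => Zp (fun j => θ (Fin.natAdd n j)) (s + (x - s))) =
      Zp fun j => θ (Fin.natAdd n j) := by
    funext x
    rw [add_sub_cancel]
  rw [e2] at h3
  unfold lw ld
  rw [h3.deriv, hZ]

theorem integrand_FF (hZc : ContDiff ℝ 2 Z) (hG : ∀ k, ContDiff ℝ 2 (G k))
    (hZp : ∀ φ, ContDiff ℝ 2 (Zp φ)) (hZ : ∀ θ, Z θ = Zp (fun j => θ (Fin.natAdd n j))
    (∑ k, θ (Fin.castAdd q k))) (z : Fin (n + 1) → ℝ) (φ : Fin q → ℝ) :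
    integrand (FF Z G) (ap z φ) =
      (2 * Real.pi) ^ q * integrand (tf (Fin.cons (Zp φ) G)) z := by
  classical
  have hG' : ∀ l, ContDiff ℝ 2 ((Fin.cons (Zp φ) G : Fin (n + 1) → ℝ → ℂ) l) := by
    intro l
    refine Fin.cases ?_ (fun l => ?_) l
    · exact hZp φ
    · exact hG l
  rw [integrand_bord hG']
  set y := ap z φ with hy
  set θ : Fin (n + q) → ℝ := tl (n + q) y with hθ
  have y0 : y 0 = z 0 := ap_zero z φ
  have hθl : ∀ k, θ (Fin.castAdd q k) = z k.succ := fun k => ap_left z φ k
  have hθr : ∀ j, θ (Fin.natAdd n j) = φ j := fun j => ap_right z φ j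
  have hθs : ∑ k, θ (Fin.castAdd q k) = ∑ k, tl n z k := Finset.sum_congr rfl fun k _ => hθl k
  have hφ : (fun j => θ (Fin.natAdd n j)) = φ := funext hθr
  have hZθ : Z θ = Zp φ (∑ k, tl n z k) := by rw [hZ, hφ, hθs]
  unfold integrand
  have h2 : (-Complex.I) ^ (n + q) = ∏ j : Fin (n + q + 1), (Fin.cons 1 fun _ => -Complex.I :
      Fin (n + q + 1) → ℂ) j := by
    rw [Fin.prod_univ_succ]
    simp
  have hI : ∀ w : ℂ, -Complex.I * (((z 0 * w.re : ℝ) : ℂ) + Complex.I * (w.im : ℝ)) =
      (w.im : ℂ) - Complex.I * (((z 0 : ℝ) : ℂ) * ((w.re : ℝ) : ℂ)) := by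
    intro w
    push_cast
    linear_combination (-(w.im : ℂ)) * Complex.I_mul_I
  have hπ : (2 * (Real.pi : ℂ)) ^ q = (((2 * Real.pi) ^ q : ℝ) : ℂ) := by push_cast; rfl
  have key : (Matrix.of fun l j => (Fin.cons 1 fun _ => -Complex.I : Fin (n + q + 1) → ℂ) j *
      (Matrix.of fun l => grow (FF Z G l) y) l j) =
      bord (Fin.cons (((Real.log ‖Z θ‖ : ℝ)) : ℂ) fun j => ((lw Z j θ).im : ℂ) -
          Complex.I * (((z 0 : ℝ) : ℂ) * (((lw Z j θ).re : ℝ) : ℂ)))
        (Fin.append (fun m => pt (G m) (z 0) (z m.succ)) fun _ => 0)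
        (Fin.append (fun m => qt (G m) (z 0) (z m.succ)) fun _ => 2 * (Real.pi : ℂ)) := by
    ext l j
    rw [Matrix.of_apply, Matrix.of_apply]
    refine Fin.cases ?_ (fun j => ?_) j
    · rw [Fin.cons_zero, one_mul, grow_zero]
      refine Fin.cases ?_ (fun l => ?_) l
      · rfl
      · rw [bord_succ, Fin.cons_zero]
        refine Fin.addCases (fun l => ?_) (fun l => ?_) l
        · rw [Fin.append_left]
          unfold FF
          rw [Fin.cons_succ, Fin.append_left]
          show ((Real.log ‖G l (θ (Fin.castAdd q l))‖ : ℝ) : ℂ) = _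
          rw [hθl]
          rfl
        · rw [Fin.append_right]
          unfold FF
          rw [Fin.cons_succ, Fin.append_right]
          show ((Real.log ‖yT n θ l‖ : ℝ) : ℂ) = _
          rw [norm_yT, Real.log_one, Complex.ofReal_zero]
    · rw [Fin.cons_succ, grow_succ, y0, hI]
      refine Fin.cases ?_ (fun l => ?_) l
      · rfl
      · rw [bord_succ, Fin.cons_succ]
        refine Fin.addCases (fun l => ?_) (fun l => ?_) l
        · have h4 : FF Z G (Fin.castAdd q l).succ =
              fun θ : Fin (n + q) → ℝ => G l (θ (Fin.castAdd q l)) := by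
            unfold FF
            rw [Fin.cons_succ, Fin.append_left]
          rw [h4, Fin.append_left]
          by_cases hj : j = Fin.castAdd q l
          · subst hj
            rw [lw_vf_self (hG l), Pi.single_eq_same]
            show _ = qt (G l) (z 0) (z l.succ)
            rw [← hθl]
            rfl
          · rw [lw_vf_ne (hG l) hj, Pi.single_eq_of_ne hj]
            simp
        · have h4 : FF Z G (Fin.natAdd n l).succ =
              fun θ : Fin (n + q) → ℝ => circ 1 (θ (Fin.natAdd n l)) := by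
            unfold FF
            rw [Fin.cons_succ, Fin.append_right]
            rfl
          rw [h4, Fin.append_right]
          by_cases hj : j = Fin.natAdd n l
          · subst hj
            rw [lw_vf_self (contDiff_circ 1), Pi.single_eq_same, (hasDerivAt_circ 1 _).deriv,
              mul_div_cancel_right₀]
            · simp
            · rw [← norm_ne_zero_iff, norm_circ zero_le_one]
              exact one_ne_zero
          · rw [lw_vf_ne (contDiff_circ 1) hj, Pi.single_eq_of_ne hj]
            simp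
  rw [h2, ← Matrix.det_mul_row, key, det_append, hπ, Complex.re_ofReal_mul]
  congr 4
  · rw [Fin.cons_zero, hZθ]
    congr 1
    funext m
    rw [Fin.cons_succ, lw_Z hZc hZ, hφ, hθs]
    rfl

end Pool.Agent.J4H54.KT
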