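import Pool.Agent.J4H54.K2.Loop
import Pool.Agent.J4H54.KT.Est
set_option autoImplicit false

/-!
The loops near the roots of `∏ (x - a_k)`.
-/

namespace Pool.Agent.J4H54.KT

open Pool.Agent.TH826.UH (NZ)

open Pool.Agent.J4H54.K2 (Good LP tk)

open MeasureTheory Finset

open scoped Real

variable {m : ℕ} {a : Fin (m + 1) → ℂ} {R : ℝ} {i : Fin (m + 1)} {X W : ℝ → ℂ} {ρ ω : ℝ}

/-- the bounds -/
noncomputable def bta (a : Fin (m + 1) → ℂ) (i k : Fin (m + 1)) : ℝ :=
  1 / 3 / (∑ l ∈ univ.erase i, tk a i l) * tk a i k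

theorem bta_nonneg (h : Good a R) {k : Fin (m + 1)} (hk : i ≠ k) : 0 ≤ bta a i k :=
  mul_nonneg (div_nonneg (by norm_num) h.sum_tk_nonneg) (h.tk_pos hk).le

theorem sum_bta_nonneg (h : Good a R) : 0 ≤ ∑ k ∈ univ.erase i, bta a i k :=
  sum_nonneg fun _ hk => bta_nonneg h (ne_of_mem_erase hk).symm

theorem sum_bta (h : Good a R) : ∑ k ∈ univ.erase i, bta a i k ≤ 1 / 3 := by
  unfold bta
  rw [← mul_sum, div_mul_eq_mul_div]
  exact div_le_of_le_mul₀ h.sum_tk_nonneg (by norm_num) le_rfl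

theorem small3 (h : LP a R i X W ρ ω) (hρ : ρ ≤ 8 / 9 * R) (hc : Good a R) (s : ℝ) :
    ‖X s - a i‖ * ∑ k ∈ univ.erase i, tk a i k ≤ 1 / 3 := by
  have h1 : R * ∑ k ∈ univ.erase i, tk a i k ≤ _ := hc.recip i _ (h.near s).le
  have e : ∀ k, a i + (X s - a i) - a k = X s - a k := fun k => by ring
  simp only [e] at h1
  have h2 : ‖X s - a i‖ * ∏ k ∈ univ.erase i, ‖X s - a k‖ = ρ := by
    rw [mul_prod_erase univ (fun k => ‖X s - a k‖) (mem_univ i), ← norm_prod, h.prod, h.nW]
  have h3 : R * (‖X s - a i‖ * ∑ k ∈ univ.erase i, tk a i k) ≤ R * (1 / 3) := by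
    calc R * (‖X s - a i‖ * ∑ k ∈ univ.erase i, tk a i k) =
          ‖X s - a i‖ * (R * ∑ k ∈ univ.erase i, tk a i k) := by ring
      _ ≤ ‖X s - a i‖ * (3 / 8 * ∏ k ∈ univ.erase i, ‖X s - a k‖) :=
          mul_le_mul_of_nonneg_left h1 (norm_nonneg _)
      _ = 3 / 8 * (‖X s - a i‖ * ∏ k ∈ univ.erase i, ‖X s - a k‖) := by ring
      _ = 3 / 8 * ρ := by rw [h2]
      _ ≤ R * (1 / 3) := by linarith
  exact le_of_mul_le_mul_left h3 hc.pos

theorem r_le3 (h : LP a R i X W ρ ω) (hρ : ρ ≤ 8 / 9 * R) (hc : Good a R) {k : Fin (m + 1)}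
    (hk : i ≠ k) (s : ℝ) : ‖X s - a i‖ * tk a i k ≤ bta a i k := by
  unfold bta
  refine mul_le_mul_of_nonneg_right ?_ (hc.tk_pos hk).le
  rw [le_div_iff₀ (hc.sum_tk_pos hk)]
  exact small3 h hρ hc s

theorem deriv_le3 (h : LP a R i X W ρ ω) (hρ : ρ ≤ 8 / 9 * R) (hc : Good a R) (s : ℝ) :
    ‖deriv X s‖ ≤ 3 * π * ‖X s - a i‖ := by
  set r : ℂ := X s - a i with hr
  have h1 := h.sum_ld s
  rw [← add_sum_erase univ _ (mem_univ i)] at h1
  have hi : r ≠ 0 := h.ne i s
  set E : ℂ := ∑ k ∈ univ.erase i, r / (X s - a k) with hE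
  have h2 : deriv X s * (1 + E) = ω * Complex.I * r := by
    rw [← h1, hE, mul_add, mul_sum, add_mul, sum_mul]
    congr 1
    · rw [← hr, mul_one]
      field_simp
    · refine sum_congr rfl fun k _ => ?_
      ring
  have h3 : ‖E‖ ≤ 1 / 3 := by
    calc ‖E‖ ≤ ∑ k ∈ univ.erase i, ‖r / (X s - a k)‖ := norm_sum_le _ _
      _ ≤ ∑ k ∈ univ.erase i, ‖r‖ * tk a i k := by
          refine sum_le_sum fun k hk => ?_
          rw [norm_div, div_eq_mul_inv]
          exact mul_le_mul_of_nonneg_left (h.inv_le hc (ne_of_mem_erase hk).symm s)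
            (norm_nonneg _)
      _ = ‖r‖ * ∑ k ∈ univ.erase i, tk a i k := by rw [mul_sum]
      _ ≤ 1 / 3 := small3 h hρ hc s
  have h4 : 2 / 3 ≤ ‖1 + E‖ := by
    have h5 := norm_sub_norm_le (1 : ℂ) (-E)
    rw [norm_neg, sub_neg_eq_add, norm_one] at h5
    linarith
  have h5 : ‖deriv X s‖ * ‖1 + E‖ ≤ 2 * π * ‖r‖ := by
    rw [← norm_mul, h2, norm_mul, norm_mul, Complex.norm_I, mul_one, Complex.norm_real,
      Real.norm_eq_abs]
    exact mul_le_mul_of_nonneg_right h.ωle (norm_nonneg _)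
  have h6 : ‖deriv X s‖ * (2 / 3) ≤ 2 * π * ‖r‖ :=
    (mul_le_mul_of_nonneg_left h4 (norm_nonneg _)).trans h5
  have h7 : 3 * π * ‖r‖ = 3 / 2 * (2 * π * ‖r‖) := by ring
  rw [h7]
  linarith

theorem ld_sub (h : LP a R i X W ρ ω) (k : Fin (m + 1)) (s : ℝ) :
    ld (fun s => X s - a k) s = deriv X s / (X s - a k) := by
  unfold ld
  rw [h.deriv_sub]

theorem ld_le3 (h : LP a R i X W ρ ω) (hρ : ρ ≤ 8 / 9 * R) (hc : Good a R) {k : Fin (m + 1)}
    (hk : i ≠ k) (s : ℝ) : ‖ld (fun s => X s - a k) s‖ ≤ 3 * π * bta a i k := by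
  rw [ld_sub h, norm_div, div_eq_mul_inv]
  calc ‖deriv X s‖ * ‖X s - a k‖⁻¹ ≤ 3 * π * ‖X s - a i‖ * tk a i k :=
        mul_le_mul (deriv_le3 h hρ hc s) (h.inv_le hc hk s) (inv_nonneg.2 (norm_nonneg _))
          (by positivity)
    _ = 3 * π * (‖X s - a i‖ * tk a i k) := by ring
    _ ≤ 3 * π * bta a i k := mul_le_mul_of_nonneg_left (r_le3 h hρ hc hk s) (by positivity)

theorem log_le3 (h : LP a R i X W ρ ω) (hρ : ρ ≤ 8 / 9 * R) (hc : Good a R) {k : Fin (m + 1)}
    (hk : i ≠ k) (s : ℝ) : |Real.log ‖X s - a k‖ - Real.log ‖a i - a k‖| ≤ bta a i k := by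
  refine le_trans ?_ (r_le3 h hρ hc hk s)
  have h1 := hc.sep i k hk
  have hd : 0 < ‖a i - a k‖ := by linarith
  have hr := h.near s
  have hr0 := norm_nonneg (X s - a i)
  have hx : 0 < ‖X s - a k‖ := norm_pos_iff.2 (h.ne k s)
  have h2 : ‖X s - a k‖ ≤ ‖a i - a k‖ + ‖X s - a i‖ := by
    have e : X s - a k = (a i - a k) + (X s - a i) := by ring
    rw [e]
    exact norm_add_le _ _
  have h3 : ‖a i - a k‖ ≤ ‖X s - a k‖ + ‖X s - a i‖ := by
    have e : a i - a k = (X s - a k) - (X s - a i) := by ring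
    rw [e]
    exact norm_sub_le _ _
  rw [← Real.log_div hx.ne' hd.ne']
  set q := ‖X s - a k‖ / ‖a i - a k‖ with hq
  have hq0 : 0 < q := div_pos hx hd
  set r := ‖X s - a i‖ with hrdef
  set d := ‖a i - a k‖ with hddef
  have ht : tk a i k = (d - 1 / 4)⁻¹ := rfl
  have htd : d⁻¹ ≤ tk a i k := by
    rw [ht]
    exact inv_anti₀ (by linarith) (by linarith)
  have ht0 := hc.tk_pos hk
  rw [abs_le]
  constructor
  · have h4 := Real.one_sub_inv_le_log_of_pos hq0
    have h5 : -(r * tk a i k) ≤ 1 - q⁻¹ := by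
      have h6 : q⁻¹ = d / ‖X s - a k‖ := by rw [hq, inv_div]
      have h7 : d / ‖X s - a k‖ ≤ 1 + r * tk a i k := by
        rw [div_le_iff₀ hx]
        have h8 : r * tk a i k * (d - 1 / 4) = r := by
          rw [ht, mul_assoc, inv_mul_cancel₀ (by linarith), mul_one]
        have h9 : d - 1 / 4 ≤ ‖X s - a k‖ := by linarith
        have h10 : r ≤ r * tk a i k * ‖X s - a k‖ := by
          calc r = r * tk a i k * (d - 1 / 4) := h8.symm
            _ ≤ r * tk a i k * ‖X s - a k‖ :=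
              mul_le_mul_of_nonneg_left h9 (mul_nonneg hr0 ht0.le)
        linarith
      rw [h6]
      linarith
    linarith
  · have h4 := Real.log_le_sub_one_of_pos hq0
    have h5 : q - 1 ≤ r * tk a i k := by
      have h6 : q ≤ 1 + r * d⁻¹ := by
        rw [hq, div_le_iff₀ hd, add_mul, mul_assoc, inv_mul_cancel₀ hd.ne']
        linarith
      have h7 : r * d⁻¹ ≤ r * tk a i k := mul_le_mul_of_nonneg_left htd hr0
      linarith
    linarith

theorem wind3 (h : LP a R i X W ρ ω) (hc : Good a R) {k : Fin (m + 1)} (hk : i ≠ k) :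
    ∫ s in (0 : ℝ)..1, ld (fun s => X s - a k) s = 0 := by
  have h1 := hc.sep i k hk
  have hcc : a i - a k ≠ 0 := by
    rw [← norm_pos_iff]
    linarith
  have nX := h.nz k
  set w : ℝ → ℂ := fun s => 1 + (X s - a i) / (a i - a k) with hw
  have hws : ∀ s, w s ∈ Complex.slitPlane := by
    intro s
    refine Complex.mem_slitPlane_iff.2 (Or.inl ?_)
    have h1 : ‖(X s - a i) / (a i - a k)‖ < 1 := by
      rw [norm_div, div_lt_one (norm_pos_iff.2 hcc)]
      linarith [h.near s]
    have h2 := Complex.abs_re_le_norm ((X s - a i) / (a i - a k))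
    have h3 := (abs_le.1 h2).1
    rw [hw]
    simp only [Complex.add_re, Complex.one_re]
    linarith
  have hXd : ∀ s, HasDerivAt X (deriv X s) s := fun s =>
    (h.smooth.differentiable (by norm_num) s).hasDerivAt
  have hlog : ∀ s, HasDerivAt (fun s => Complex.log (w s))
      (deriv (fun s => X s - a k) s / (X s - a k)) s := by
    intro s
    have h1 : HasDerivAt w (deriv X s / (a i - a k)) s := by
      rw [hw]
      exact (((hXd s).sub_const (a i)).div_const (a i - a k)).const_add 1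
    have h2 := h1.clog_real (hws s)
    refine h2.congr_deriv ?_
    rw [((hXd s).sub_const (a k)).deriv]
    have h3 : w s = (X s - a k) / (a i - a k) := by
      rw [hw]
      simp only
      field_simp
      ring
    rw [h3]
    have := nX.ne_zero s
    field_simp
  unfold ld
  rw [intervalIntegral.integral_eq_sub_of_hasDerivAt (fun s _ => hlog s)
    (nX.cont_ld.intervalIntegrable _ _)]
  have h1 : X 1 = X 0 := by
    have := h.per 0
    rwa [zero_add] at this
  simp only [hw, h1, sub_self]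

/-- the mean of the logarithm -/
noncomputable def mn (a : Fin (m + 1) → ℂ) (X : ℝ → ℂ) (k : Fin (m + 1)) : ℝ :=
  ∫ s in (0 : ℝ)..1, Real.log ‖X s - a k‖

theorem mn_le (h : LP a R i X W ρ ω) (hρ : ρ ≤ 8 / 9 * R) (hc : Good a R) {k : Fin (m + 1)}
    (hk : i ≠ k) : |mn a X k - Real.log ‖a i - a k‖| ≤ bta a i k := by
  have e : mn a X k - Real.log ‖a i - a k‖ =
      ∫ s in (0 : ℝ)..1, (Real.log ‖X s - a k‖ - Real.log ‖a i - a k‖) := by
    rw [intervalIntegral.integral_sub ((h.nz k).cont_log.intervalIntegrable _ _)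
      (continuous_const.intervalIntegrable _ _)]
    unfold mn
    simp
  rw [e, ← Real.norm_eq_abs]
  refine (intervalIntegral.norm_integral_le_of_norm_le_const
    (C := bta a i k) fun s _ => ?_).trans (by simp)
  rw [Real.norm_eq_abs]
  exact log_le3 h hρ hc hk s

theorem log_sum (h : LP a R i X W ρ ω) (s : ℝ) :
    ∑ k, Real.log ‖X s - a k‖ = Real.log ρ := by
  rw [← h.nW s, ← h.prod s, norm_prod, Real.log_prod]
  intro k _
  exact norm_ne_zero_iff.2 (h.ne k s)

theorem sum_mn (h : LP a R i X W ρ ω) : ∑ k, mn a X k = Real.log ρ := by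
  unfold mn
  rw [← intervalIntegral.integral_finsetSum]
  · simp only [log_sum h]
    simp
  · intro k _
    exact (h.nz k).cont_log.intervalIntegrable _ _

/-- the bounds for all `k` -/
noncomputable def gam (a : Fin (m + 1) → ℂ) (i k : Fin (m + 1)) : ℝ :=
  if k = i then ∑ l ∈ univ.erase i, bta a i l else bta a i k

theorem gam_nonneg (h : Good a R) (k : Fin (m + 1)) : 0 ≤ gam a i k := by
  unfold gam
  split_ifs with hk
  · exact sum_bta_nonneg h
  · exact bta_nonneg h (Ne.symm hk)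

theorem sum_gam (h : Good a R) : ∑ k, gam a i k ≤ 2 / 3 := by
  have h1 := sum_bta (i := i) h
  rw [← add_sum_erase univ _ (mem_univ i)]
  have h2 : ∑ k ∈ univ.erase i, gam a i k = ∑ k ∈ univ.erase i, bta a i k :=
    sum_congr rfl fun k hk => by
      unfold gam
      rw [if_neg (ne_of_mem_erase hk)]
  rw [h2]
  unfold gam
  rw [if_pos rfl]
  linarith

/-- the functions `X - a_k` -/
theorem lo (h : LP a R i X W ρ ω) (hρ : ρ ≤ 8 / 9 * R) (hc : Good a R) (k : Fin (m + 1)) :
    Lo (fun s => X s - a k) (if k = i then ω else 0) (mn a X k) (2 * gam a i k)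
      (3 * π * gam a i k) := by
  have hper : ∀ s, X (s + 1) - a k = X s - a k := fun s => by rw [h.per]
  have hdev : ∀ k, i ≠ k → ∀ s, |Real.log ‖X s - a k‖ - mn a X k| ≤ 2 * bta a i k := by
    intro k hk s
    have h1 := abs_le.1 (log_le3 h hρ hc hk s)
    have h2 := abs_le.1 (mn_le h hρ hc hk)
    rw [abs_le]
    constructor <;> linarith [h1.1, h1.2, h2.1, h2.2]
  by_cases hk : k = i
  · subst hk
    simp only [if_true]
    have hg : gam a k k = ∑ l ∈ univ.erase k, bta a k l := by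
      unfold gam
      rw [if_pos rfl]
    have hld : ∀ s, ld (fun s => X s - a k) s = ω * Complex.I -
        ∑ l ∈ univ.erase k, ld (fun s => X s - a l) s := by
      intro s
      have h1 := h.sum_ld s
      rw [← add_sum_erase univ _ (mem_univ k)] at h1
      rw [eq_sub_iff_add_eq, ← h1, ld_sub h]
      congr 1
      exact sum_congr rfl fun l _ => ld_sub h l s
    refine ⟨h.nz k, hper, ?_, rfl, fun s => ?_, fun s => ?_⟩
    · simp only [hld]
      rw [intervalIntegral.integral_sub (continuous_const.intervalIntegrable _ _)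
        ((continuous_finsetSum _ fun l _ => cont_ld (h.nz l)).intervalIntegrable _ _),
        intervalIntegral.integral_finsetSum fun l _ => (cont_ld (h.nz l)).intervalIntegrable _ _,
        sum_eq_zero fun l hl => wind3 h hc (ne_of_mem_erase hl).symm]
      simp
    · have h1 := log_sum h s
      have h2 := sum_mn h
      rw [← add_sum_erase univ _ (mem_univ k)] at h1 h2
      have h3 : Real.log ‖X s - a k‖ - mn a X k =
          -∑ l ∈ univ.erase k, (Real.log ‖X s - a l‖ - mn a X l) := by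
        rw [sum_sub_distrib]
        linarith
      rw [h3, abs_neg, hg, mul_sum]
      exact (abs_sum_le_sum_abs _ _).trans (sum_le_sum fun l hl =>
        hdev l (ne_of_mem_erase hl).symm s)
    · rw [hld, sub_sub_cancel_left, norm_neg, hg, mul_sum]
      exact (norm_sum_le _ _).trans (sum_le_sum fun l hl =>
        ld_le3 h hρ hc (ne_of_mem_erase hl).symm s)
  · rw [if_neg hk]
    have hg : gam a i k = bta a i k := by
      unfold gam
      rw [if_neg hk]
    rw [hg]
    refine ⟨h.nz k, hper, ?_, rfl, fun s => ?_, fun s => ?_⟩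
    · rw [wind3 h hc (Ne.symm hk)]
      simp
    · exact hdev k (Ne.symm hk) s
    · rw [Complex.ofReal_zero, zero_mul, sub_zero]
      exact ld_le3 h hρ hc (Ne.symm hk) s

end Pool.Agent.J4H54.KT
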